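import Pool.Agent.Helper93_CH6.KernB

/-!
Certificates from packed data: tables, range checks, positivity, reduction.
-/

set_option autoImplicit false

namespace Pool.Agent.CH6

open Pool.Agent.CH

section Tables

/-- rows of the first table -/
noncomputable def rowC (L : ℕ → List ℕ) (R : ℕ → List (ℕ × ℕ × ℕ)) (n : ℕ) : ℕ :=
  lit (Nat.div n 128) (fun i => lit (Nat.mod n 128) (fun f => rowv (offK i (L i)) (L i) (R i) f))

/-- all ones, 128 digits -/
noncomputable def JK : ℕ := pkN (fun _ => 1) 128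

/-- row of a class for two roots -/
noncomputable def rowm (vs : List ℕ) (κ : ℕ) : ℕ :=
  Nat.sub (Nat.add (Nat.mul (Nat.add 618970019642690137449562112 (Nat.mul 302231454903657293676544
    (List.length vs))) JK) (sqs vs κ))
    (Nat.add (Nat.mul (vd (Nat.mul 549755813888 (smv vs)) κ) JK) (Nat.mul 549755813888 (smv vs)))

/-- rows of the second table -/
noncomputable def rowP (P : ℕ → List ℕ) (n : ℕ) : ℕ :=
  lit (Nat.div n 128) (fun τ => lit (Nat.mod n 128) (fun κ => rowm (P τ) κ))

/-- the table -/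
noncomputable def WC (L : ℕ → List ℕ) (R : ℕ → List (ℕ × ℕ × ℕ)) (t f g r : ℕ) : ℤ :=
  if R4 t then vl (L (ie t % 64)) (R (ie t % 64)) f g r + vl (L (ie t % 64)) (R (ie t % 64)) g f
    (inv r) else 0

lemma rowC_eq (L : ℕ → List ℕ) (R : ℕ → List (ℕ × ℕ × ℕ)) (n i f : ℕ) (hi : n / 128 = i)
    (hf : n % 128 = f) : rowC L R n = rowv (offK i (L i)) (L i) (R i) f := by
  have h1 : Nat.div n 128 = i := hi
  have h2 : Nat.mod n 128 = f := hf
  unfold rowC
  rw [lit_eq, lit_eq, h1, h2]

lemma rowP_eq (P : ℕ → List ℕ) (n τ κ : ℕ) (hi : n / 128 = τ) (hf : n % 128 = κ) :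
    rowP P n = rowm (P τ) κ := by
  have h1 : Nat.div n 128 = τ := hi
  have h2 : Nat.mod n 128 = κ := hf
  unfold rowP
  rw [lit_eq, lit_eq, h1, h2]

theorem fact_e : ∀ i : Fin 32, ie (rep i) % 64 = i := by decide +kernel

/-- the data are in range -/
structure OkC (L : ℕ → List ℕ) (R : ℕ → List (ℕ × ℕ × ℕ)) : Prop where
  v : ∀ i, i < 32 → okvs (L i)
  r : ∀ i, i < 32 → okrows (R i)
  nv : ∀ i, i < 32 → (L i).length ≤ 128
  nr : ∀ i, i < 32 → (R i).length ≤ 128

lemma inv_inv {r : ℕ} (hr : r < 3) : inv (inv r) = r := by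
  have : r = 0 ∨ r = 1 ∨ r = 2 := by omega
  rcases this with rfl | rfl | rfl <;> rfl

lemma WC_rep (L : ℕ → List ℕ) (R : ℕ → List (ℕ × ℕ × ℕ)) (i f g r : ℕ) (hi : i < 32) :
    WC L R (rep i) f g r = vl (L i) (R i) f g r + vl (L i) (R i) g f (inv r) := by
  have h1 : R4 (rep i) := ⟨⟨i, hi⟩, rfl⟩
  have h2 : ie (rep i) % 64 = i := fact_e ⟨i, hi⟩
  unfold WC
  rw [if_pos h1, h2]

theorem tab1 (L : ℕ → List ℕ) (R : ℕ → List (ℕ × ℕ × ℕ)) (h : OkC L R) :
    Tab1 (WC L R) (rowC L R) := by
  refine ⟨fun t f g r ht => ?_, fun i f g r hi hf hg hr => ?_, fun i f g r hi hf hg hr => ?_⟩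
  · unfold WC
    rw [if_neg ht]
  · rw [WC_rep L R i f g r hi]
    have h1 := entry_val i hi (L i) (R i) (h.v i hi) (h.r i hi) (h.nv i hi) (h.nr i hi)
      f g r hf hg hr
    have h2 : entB (rowC L R) i f g r = vd (rowv (offK i (L i)) (L i) (R i) f) (81 * r + g) := by
      have e1 : (128 * i + f) / 128 = i := by omega
      have e2 : (128 * i + f) % 128 = f := by omega
      rw [entB_eq, rowC_eq L R _ i f e1 e2]
    rw [h2, ← h1]
  · rw [WC_rep L R i f g r hi, WC_rep L R i g f (inv r) hi, inv_inv hr, add_comm]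

/-- the packed data are in range, any number of digits -/
def okvn (n : ℕ) (vs : List ℕ) : Prop :=
  ∀ v ∈ vs, v < BB ^ n ∧ ∀ g, g < n → vd v g < 2 ^ 40

lemma sqs_eqn (n : ℕ) (vs : List ℕ) (hv : okvn n vs) (f : ℕ) :
    sqs vs f = pk n (fun g => SQ vs f g) := by
  induction vs with
  | nil =>
    show 0 = _
    simp [SQ, pk]
  | cons v vs ih =>
    have h1 := ih (fun w hw => hv w (by simp [hw]))
    have h2 := pk_vd n v (hv v (by simp)).1
    have h3 : sqs (v :: vs) f = vd v f * v + sqs vs f := rfl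
    rw [h3, h1]
    conv_lhs => rw [h2]
    rw [pk_mul, pk_add]
    refine pk_congr (fun g _ => ?_)
    simp only [SQ, List.map_cons, List.sum_cons]
    rw [← h2]

lemma smv_eqn (n : ℕ) (vs : List ℕ) (hv : okvn n vs) :
    smv vs = pk n (fun g => (vs.map (fun v => vd v g)).sum) := by
  induction vs with
  | nil =>
    show 0 = _
    simp [pk]
  | cons v vs ih =>
    have h1 := ih (fun w hw => hv w (by simp [hw]))
    have h2 := pk_vd n v (hv v (by simp)).1
    have h3 : smv (v :: vs) = v + smv vs := rfl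
    rw [h3, h1]
    conv_lhs => rw [h2]
    rw [pk_add]
    refine pk_congr (fun g _ => ?_)
    simp only [List.map_cons, List.sum_cons]

lemma sq_id2 (vs : List ℕ) (f g : ℕ) :
    (vs.map (fun v => ((vd v f : ℤ) - 549755813888) * ((vd v g : ℤ) - 549755813888))).sum =
      (SQ vs f g : ℤ) - 549755813888 * ((vs.map (fun v => vd v f)).sum : ℕ) -
      549755813888 * ((vs.map (fun v => vd v g)).sum : ℕ) + 302231454903657293676544 * vs.length := by
  have := sq_id vs f g
  linarith

theorem tab2_of (P : ℕ → List ℕ) (hv : ∀ τ, τ < 2 → okvn 128 (P τ))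
    (hn : ∀ τ, τ < 2 → (P τ).length ≤ 128) : tab2 P (rowP P) := by
  intro τ κ κ' hτ hκ hκ'
  have e1 : (128 * τ + κ) / 128 = τ := by omega
  have e2 : (128 * τ + κ) % 128 = κ := by omega
  have h0 : rowP P (128 * τ + κ) = rowm (P τ) κ := rowP_eq P _ τ κ e1 e2
  rw [h0]
  have hv' := hv τ hτ
  have hn' := hn τ hτ
  generalize P τ = vs at hv' hn'
  have hSQ : ∀ g, g < 128 → SQ vs κ g ≤ 154742504910672534362390528 := by
    intro g hg
    have h := list_sum_le vs (fun v => vd v κ * vd v g) (2 ^ 80) (fun v hv1 => by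
      have h1 := (hv' v hv1).2 κ hκ
      have h2 := (hv' v hv1).2 g hg
      have : vd v κ * vd v g ≤ 2 ^ 40 * 2 ^ 40 := Nat.mul_le_mul h1.le h2.le
      calc vd v κ * vd v g ≤ 2 ^ 40 * 2 ^ 40 := this
        _ = 2 ^ 80 := by norm_num)
    unfold SQ
    omega
  have hSV : ∀ g, g < 128 → (vs.map (fun v => vd v g)).sum ≤ 140737488355328 := by
    intro g hg
    have h := list_sum_le vs (fun v => vd v g) (2 ^ 40) (fun v hv1 => ((hv' v hv1).2 g hg).le)
    omega
  have hJ : JK = pk 128 (fun _ => 1) := pkN_eq _ _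
  have h1 : rowm vs κ = ((618970019642690137449562112 + 302231454903657293676544 * vs.length) * JK + sqs vs κ) -
    (vd (549755813888 * smv vs) κ * JK + 549755813888 * smv vs) := rfl
  have h2 : vd (549755813888 * smv vs) κ = 549755813888 * (vs.map (fun v => vd v κ)).sum := by
    rw [smv_eqn 128 vs hv', pk_mul]
    refine vd_pk 128 _ κ (fun i hi => ?_) hκ
    have := hSV i hi
    unfold BB
    omega
  rw [h2, hJ, sqs_eqn 128 vs hv', smv_eqn 128 vs hv', pk_mul, pk_mul, pk_mul, pk_add,
    pk_add] at h1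
  have h3 : rowm vs κ = pk 128 (fun g => 618970019642690137449562112 + 302231454903657293676544 * vs.length +
      SQ vs κ g - (549755813888 * (vs.map (fun v => vd v κ)).sum +
      549755813888 * (vs.map (fun v => vd v g)).sum)) := by
    rw [h1, Nat.sub_eq_iff_eq_add]
    · rw [pk_add]
      refine pk_congr (fun g hg => ?_)
      have a1 := hSV g hg
      have a2 := hSV κ hκ
      omega
    · unfold pk
      refine Finset.sum_le_sum (fun j hj => Nat.mul_le_mul_right _ ?_)
      have a1 := hSV j (Finset.mem_range.1 hj)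
      have a2 := hSV κ hκ
      simp only [mul_one]
      omega
  rw [h3, vd_pk 128 _ κ' (fun g hg => by
    have a1 := hSQ g hg
    unfold BB
    omega) hκ']
  have a1 := hSV κ' hκ'
  have a2 := hSV κ hκ
  have h4 := sq_id2 vs κ κ'
  rw [h4]
  rw [Nat.cast_sub (by omega)]
  push_cast
  ring

end Tables

section Range

/-- packed constant -/
noncomputable def MK (c n : ℕ) : ℕ := pkN (fun _ => c) n

lemma pk_const_lt (c n : ℕ) (hc : c < BB) : pk n (fun _ => c) < BB ^ n := by
  induction n with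
  | zero => simp [pk]
  | succ n ih =>
    rw [pk_succ]
    have h1 : pk n (fun _ => c) + c * BB ^ n < BB ^ n + c * BB ^ n := by omega
    have h2 : BB ^ n + c * BB ^ n = (c + 1) * BB ^ n := by ring
    have h3 : (c + 1) * BB ^ n ≤ BB * BB ^ n := Nat.mul_le_mul_right _ hc
    have h4 : BB ^ (n + 1) = BB * BB ^ n := by ring
    omega

lemma land_range (v c n : ℕ) (hc : c < BB) (h : Nat.land v (MK c n) = v) :
    v < BB ^ n ∧ ∀ g, g < n → vd v g ≤ c := by
  have h' : v &&& MK c n = v := h
  have hM : MK c n = pk n (fun _ => c) := pkN_eq _ _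
  refine ⟨?_, fun g hg => ?_⟩
  · have h1 : v &&& MK c n ≤ MK c n := Nat.and_le_right
    have h2 := pk_const_lt c n hc
    rw [← hM] at h2
    omega
  · have h1 : vd v g = vd (v &&& MK c n) g := by rw [h']
    have h2 : vd (v &&& MK c n) g = vd v g &&& vd (MK c n) g := by
      rw [vd_eq, vd_eq, vd_eq, BB_pow, show BB = 2 ^ 96 from rfl, Nat.and_div_two_pow,
        Nat.and_mod_two_pow]
    have h3 : vd (MK c n) g = c := by
      rw [hM]
      exact vd_pk n _ g (fun _ _ => hc) hg
    rw [h1, h2, h3]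
    exact Nat.and_le_right

/-- range check of vectors -/
noncomputable def okV (n : ℕ) (vs : List ℕ) : Bool :=
  List.rec (motive := fun _ => Bool) true
    (fun v _ ih => Nat.beq (Nat.land v (MK 1099511627775 n)) v && ih) vs

lemma okV_spec (n : ℕ) (vs : List ℕ) (h : okV n vs = true) : okvn n vs := by
  induction vs with
  | nil => intro v hv; simp at hv
  | cons a vs ih =>
    have h' : (Nat.beq (Nat.land a (MK 1099511627775 n)) a && okV n vs) = true := h
    rw [Bool.and_eq_true] at h'
    intro v hv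
    rcases List.mem_cons.1 hv with rfl | hv
    · have h1 := land_range v 1099511627775 n (by unfold BB; norm_num) (Nat.eq_of_beq_eq_true h'.1)
      exact ⟨h1.1, fun g hg => by have := h1.2 g hg; omega⟩
    · exact ih h'.2 v hv

/-- range check of rows -/
noncomputable def okR (rows : List (ℕ × ℕ × ℕ)) : Bool :=
  List.rec (motive := fun _ => Bool) true
    (fun ρ _ ih => Nat.beq (Nat.land ρ.1 (MK 18446744073709551615 81)) ρ.1 &&
      (Nat.beq (Nat.land ρ.2.1 (MK 65535 243)) ρ.2.1 && (Nat.ble ρ.2.2 65535 && ih))) rows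

lemma okR_spec (rows : List (ℕ × ℕ × ℕ)) (h : okR rows = true) : okrows rows := by
  induction rows with
  | nil => intro v hv; simp at hv
  | cons ρ rows ih =>
    have h' : (Nat.beq (Nat.land ρ.1 (MK 18446744073709551615 81)) ρ.1 &&
      (Nat.beq (Nat.land ρ.2.1 (MK 65535 243)) ρ.2.1 && (Nat.ble ρ.2.2 65535 && okR rows))) =
      true := h
    rw [Bool.and_eq_true, Bool.and_eq_true, Bool.and_eq_true] at h'
    obtain ⟨b1, b2, b3, b4⟩ := h'
    intro v hv
    rcases List.mem_cons.1 hv with rfl | hv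
    · have h1 := land_range v.1 18446744073709551615 81 (by unfold BB; norm_num)
        (Nat.eq_of_beq_eq_true b1)
      have h2 := land_range v.2.1 65535 243 (by unfold BB; norm_num)
        (Nat.eq_of_beq_eq_true b2)
      have h3 := Nat.le_of_ble_eq_true b3
      exact ⟨h1.1, fun g hg => by have := h1.2 g hg; omega, h2.1,
        fun g hg => by have := h2.2 g hg; omega, by omega⟩
    · exact ih b4 v hv

lemma okvs_of (vs : List ℕ) (h : okV 81 vs = true) : okvs vs := okV_spec 81 vs h

end Range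

section Pos

variable {V : Type*} [Fintype V]

/-- sum of a row over all pairs of vertices -/
def RS (E : V → V → Prop) [DecidableRel E] (x : Fin 4 → V) (ρ : ℕ × ℕ × ℕ) : ℤ :=
  ∑ a : V, ∑ b : V, (vd ρ.1 (prof4 (fun i => rel E (x i) a)) : ℤ) *
    ((vd ρ.2.1 (81 * rel E a b + prof4 (fun i => rel E (x i) b)) : ℤ) - ρ.2.2)

theorem pos_vl (E : V → V → Prop) [DecidableRel E] (x : Fin 4 → V) (vs : List ℕ)
    (rows : List (ℕ × ℕ × ℕ)) (h : ∀ ρ ∈ rows, 0 ≤ RS E x ρ) :
    0 ≤ ∑ a : V, ∑ b : V, vl vs rows (prof4 (fun i => rel E (x i) a))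
      (prof4 (fun i => rel E (x i) b)) (rel E a b) := by
  unfold vl
  simp only [Finset.sum_add_distrib]
  refine add_nonneg ?_ ?_
  · have := sq_nonneg' (vs.map (fun v => fun g : ℕ => (vd v g : ℤ) - 549755813888))
      (fun a : V => prof4 (fun i => rel E (x i) a))
    unfold sqV at this
    simp only [List.map_map] at this
    exact this
  · clear vs
    induction rows with
    | nil => simp
    | cons ρ rows ih =>
      simp only [List.map_cons, List.sum_cons, Finset.sum_add_distrib]
      exact add_nonneg (h ρ (by simp)) (ih (fun q hq => h q (by simp [hq])))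

theorem pos_WC (E : V → V → Prop) [DecidableRel E] (hE : ∀ u v, E u v → ¬ E v u)
    (L : ℕ → List ℕ) (R : ℕ → List (ℕ × ℕ × ℕ)) (x : Fin 4 → V)
    (h : ∀ i, i < 32 → code4 (fun i j => rel E (x i) (x j)) = rep i → ∀ ρ ∈ R i,
      0 ≤ RS E x ρ) :
    0 ≤ ∑ a : V, ∑ b : V, WC L R (code4 (fun i j => rel E (x i) (x j)))
      (prof4 (fun i => rel E (x i) a)) (prof4 (fun i => rel E (x i) b)) (rel E a b) := by
  by_cases ht : R4 (code4 (fun i j => rel E (x i) (x j)))
  · obtain ⟨i, hi⟩ := ht
    rw [← hi]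
    have h1 := pos_vl E x (L i) (R i) (h i i.2 hi.symm)
    simp only [WC_rep L R i _ _ _ i.2, Finset.sum_add_distrib]
    refine add_nonneg h1 ?_
    rw [Finset.sum_comm]
    have e : ∀ a b : V, inv (rel E b a) = rel E a b := fun a b => (rel_inv E hE b a).symm
    simp only [e]
    exact h1
  · unfold WC
    simp only [if_neg ht]
    simp

end Pos

end Pool.Agent.CH6
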