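import Pool.Agent.Helper93_CH6.Perm6

/-!
Every configuration on four (five) points is a permutation of a representative.
-/

set_option autoImplicit false

namespace Pool.Agent.CH6

open Pool.Agent.CH

theorem comp4 : Comp4 R4 := by
  intro d hd
  have hok : ok4 (code4 d) := by
    unfold ok4
    rw [← eq_mat hd]
    exact ⟨hd.ok 0 1 2, hd.ok 0 1 3, hd.ok 0 2 3, hd.ok 1 2 3⟩
  obtain ⟨a1, a2, a3⟩ := fact_a (code4 d) (code4_lt hd) hok
  refine ⟨pm ⟨ie (code4 d) / 64, a1⟩, ⟨⟨ie (code4 d) % 64, a2⟩, ?_⟩⟩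
  show rep (ie (code4 d) % 64) = code4 (fun i j => d (pf (ie (code4 d) / 64) i)
    (pf (ie (code4 d) / 64) j))
  rw [← a3]
  unfold pc
  rw [← eq_mat hd]

/-- all representatives on five points -/
def R5L : List ℕ := R5P0 ++ (R5P1 ++ (R5P2 ++ (R5P3 ++ (R5P4 ++ (R5P5 ++ (R5P6 ++ R5P7))))))

/-- representatives on five points -/
def R5 (t f : ℕ) : Prop := t + 729 * f ∈ R5L

instance (t f : ℕ) : Decidable (R5 t f) := by unfold R5; infer_instance

/-- the permutation which puts `z` last and permutes the other four points -/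
def pg (z : Fin 5) (s : ℕ) (y : Fin 5) : Fin 5 :=
  if h : (y : ℕ) < 4 then z.succAbove (pf s ⟨y, h⟩) else z

theorem pg_inj : ∀ z : Fin 5, ∀ s : Fin 24, ∀ y y' : Fin 5, pg z s y = pg z s y' → y = y' := by
  decide +kernel

/-- certificate for the reduction on five points -/
def qr (i f : ℕ) : ℕ := Nat.mod (Nat.shiftRight QRL (Nat.mul 8 (Nat.add (Nat.mul 81 i) f))) 256

/-- the profile is compatible with the code -/
def okf (t f : ℕ) : Prop :=
  okT (mat t 0 1) (dg f 1) (dg f 0) ∧ okT (mat t 0 2) (dg f 2) (dg f 0) ∧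
  okT (mat t 1 2) (dg f 2) (dg f 1) ∧ okT (mat t 0 3) (dg f 3) (dg f 0) ∧
  okT (mat t 1 3) (dg f 3) (dg f 1) ∧ okT (mat t 2 3) (dg f 3) (dg f 2)

instance (t f : ℕ) : Decidable (okf t f) := by unfold okf; infer_instance

/-- last point of the certificate -/
def qz (i f : ℕ) : Fin 5 := ⟨qr i f / 24 % 5, Nat.mod_lt _ (by norm_num)⟩

/-- permutation of the certificate -/
def qs (i f : ℕ) : Fin 24 := ⟨qr i f % 24, Nat.mod_lt _ (by norm_num)⟩

theorem fact5 : ∀ i : Fin 32, ∀ f : Fin 81, okf (rep i) f →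
    R5 (code4 (fun x y => rc6 (rep i) f (pg (qz i f) (qs i f) (c45 x))
      (pg (qz i f) (qs i f) (c45 y))))
      (prof4 (fun x => rc6 (rep i) f (pg (qz i f) (qs i f) (c45 x))
      (pg (qz i f) (qs i f) 4))) := by decide +kernel

lemma d_rc6 {d : Fin 5 → Fin 5 → ℕ} (hd : Cfg d) (i z : Fin 5) (hiz : i ≠ z) :
    rc6 (code4 (fun i j => d (c45 i) (c45 j))) (prof4 (fun i => d (c45 i) 4)) i z = d i z := by
  have hne : ∀ j : Fin 4, (j.castSucc : Fin 5) ≠ 4 := by
    intro j h
    have := congrArg Fin.val h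
    simp at this
    omega
  have h44 : (Fin.last 4 : Fin 5) = 4 := rfl
  have hpr : ∀ j : Fin 4, dg (prof4 (fun i => d (c45 i) 4)) j = d (c45 j) 4 := fun j =>
    dg_prof (fun i => d (c45 i) 4) (fun i => hd.lt _ _) j
  unfold rc6
  revert hiz
  refine Fin.lastCases ?_ (fun z' => ?_) z
  · intro hiz
    rw [if_pos h44]
    revert hiz
    refine Fin.lastCases ?_ (fun i' => ?_) i
    · intro h; exact absurd rfl h
    · intro _
      exact hpr i'
  · intro hiz
    rw [if_neg (hne z')]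
    revert hiz
    refine Fin.lastCases ?_ (fun i' => ?_) i
    · intro _
      rw [if_pos h44]
      have h := hpr z'
      show inv (dg _ ((z' : Fin 4) : ℕ)) = d 4 z'.castSucc
      rw [h, hd.anti z'.castSucc 4]
      rfl
    · intro hiz
      rw [if_neg (hne i')]
      have hiz' : i' ≠ z' := fun h => hiz (by rw [h])
      by_cases hlt : i' < z'
      · have : (i'.castSucc : Fin 5) < z'.castSucc := hlt
        rw [if_pos this]
        exact code_dg (fun i j => d (c45 i) (c45 j)) (fun i j => hd.lt _ _) i' z' hlt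
      · have : ¬ (i'.castSucc : Fin 5) < z'.castSucc := hlt
        rw [if_neg this]
        have hgt : z' < i' := lt_of_le_of_ne (not_lt.1 hlt) (Ne.symm hiz')
        have h := code_dg (fun i j => d (c45 i) (c45 j)) (fun i j => hd.lt _ _) z' i' hgt
        show inv (_ / 3 ^ (((i' : Fin 4) : ℕ) * (((i' : Fin 4) : ℕ) - 1) / 2 +
          ((z' : Fin 4) : ℕ)) % 3) = _
        rw [h, hd.anti z'.castSucc i'.castSucc]
        rfl

lemma code4_congr {d d' : Fin 4 → Fin 4 → ℕ} (h : ∀ i j, i ≠ j → d i j = d' i j) :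
    code4 d = code4 d' := by
  unfold code4
  rw [h 0 1 (by decide), h 0 2 (by decide), h 1 2 (by decide), h 0 3 (by decide),
    h 1 3 (by decide), h 2 3 (by decide)]

theorem comp5 : Comp5 R4 R5 := by
  intro d hd hR
  obtain ⟨i, hi⟩ := hR
  have hpl : prof4 (fun i => d (c45 i) 4) < 81 := prof_lt _ (fun i => hd.lt _ _)
  have hd4 : Cfg (fun i j => d (c45 i) (c45 j)) := hd.comp c45
  have hokf : okf (rep i) (prof4 (fun i => d (c45 i) 4)) := by
    unfold okf
    rw [hi, ← eq_mat hd4]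
    have hpr : ∀ j : Fin 4, dg (prof4 (fun i => d (c45 i) 4)) j = d (c45 j) 4 := fun j =>
      dg_prof (fun i => d (c45 i) 4) (fun i => hd.lt _ _) j
    have p0 := hpr 0
    have p1 := hpr 1
    have p2 := hpr 2
    have p3 := hpr 3
    have e0 : dg (prof4 (fun i => d (c45 i) 4)) 0 = d (c45 0) 4 := p0
    have e1 : dg (prof4 (fun i => d (c45 i) 4)) 1 = d (c45 1) 4 := p1
    have e2 : dg (prof4 (fun i => d (c45 i) 4)) 2 = d (c45 2) 4 := p2
    have e3 : dg (prof4 (fun i => d (c45 i) 4)) 3 = d (c45 3) 4 := p3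
    rw [e0, e1, e2, e3]
    exact ⟨hd.ok _ _ _, hd.ok _ _ _, hd.ok _ _ _, hd.ok _ _ _, hd.ok _ _ _, hd.ok _ _ _⟩
  have hf := fact5 i ⟨prof4 (fun i => d (c45 i) 4), hpl⟩ hokf
  generalize hz : qz i (prof4 (fun i => d (c45 i) 4)) = z at hf
  generalize hs : qs i (prof4 (fun i => d (c45 i) 4)) = s at hf
  have hinj : Function.Injective (pg z s) := fun y y' => pg_inj z s y y'
  refine ⟨Equiv.ofBijective (pg z s) (Finite.injective_iff_bijective.1 hinj), ?_⟩
  have hval : ∀ y y' : Fin 5, y ≠ y' →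
      rc6 (rep i) (prof4 (fun i => d (c45 i) 4)) (pg z s y) (pg z s y') =
        d (pg z s y) (pg z s y') := by
    intro y y' hy
    rw [hi]
    exact d_rc6 hd _ _ (fun h => hy (hinj h))
  show R5 (code4 (fun x y => d (pg z s (c45 x)) (pg z s (c45 y))))
    (prof4 (fun x => d (pg z s (c45 x)) (pg z s 4)))
  have k1 : code4 (fun x y => d (pg z s (c45 x)) (pg z s (c45 y))) =
      code4 (fun x y => rc6 (rep i) (prof4 (fun i => d (c45 i) 4)) (pg z s (c45 x))
        (pg z s (c45 y))) := by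
    refine code4_congr (fun x y hxy => (hval _ _ (fun h => hxy ?_)).symm)
    exact Fin.castAdd_injective 4 1 h
  have k2 : prof4 (fun x => d (pg z s (c45 x)) (pg z s 4)) =
      prof4 (fun x => rc6 (rep i) (prof4 (fun i => d (c45 i) 4)) (pg z s (c45 x))
        (pg z s 4)) := by
    congr 1
    funext x
    refine (hval _ _ (fun h => ?_)).symm
    have := congrArg Fin.val h
    have h2 := x.2
    simp [c45] at this
    omega
  rw [k1, k2]
  exact hf

end Pool.Agent.CH6
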