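import Pool.Agent.Helper93_CH.Core

/-!
Six-vertex flag certificates: soundness with full symmetrisation.
-/

set_option autoImplicit false

namespace Pool.Agent.CH6

open Pool.Agent.CH

/-- code of a relation matrix on four points -/
def code4 (d : Fin 4 → Fin 4 → ℕ) : ℕ :=
  d 0 1 + 3 * d 0 2 + 9 * d 1 2 + 27 * d 0 3 + 81 * d 1 3 + 243 * d 2 3

/-- code of a profile over four roots -/
def prof4 (f : Fin 4 → ℕ) : ℕ := f 0 + 3 * f 1 + 9 * f 2 + 27 * f 3

/-- relation matrices of digraphs without directed cycles of length at most three -/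
structure Cfg {n : ℕ} (d : Fin n → Fin n → ℕ) : Prop where
  lt : ∀ i j, d i j < 3
  anti : ∀ i j, d j i = inv (d i j)
  ok : ∀ i j k, okT (d i j) (d j k) (d i k)

/-- value of a matrix on six points: `0, 1` are the two extra vertices, `2, .., 5` the roots -/
def hval (W : ℕ → ℕ → ℕ → ℕ → ℤ) (d : Fin 6 → Fin 6 → ℕ) : ℤ :=
  W (code4 (fun i j => d i.succ.succ j.succ.succ)) (prof4 (fun i => d i.succ.succ 0))
    (prof4 (fun i => d i.succ.succ 1)) (d 0 1)

/-- the fully symmetrised value -/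
def T6 (W : ℕ → ℕ → ℕ → ℕ → ℤ) (d : Fin 6 → Fin 6 → ℕ) : ℤ :=
  ∑ π : Equiv.Perm (Fin 6), hval W (fun i j => d (π i) (π j))

lemma T6_comp (W : ℕ → ℕ → ℕ → ℕ → ℤ) (d : Fin 6 → Fin 6 → ℕ) (ρ : Equiv.Perm (Fin 6)) :
    T6 W (fun i j => d (ρ i) (ρ j)) = T6 W d := by
  unfold T6
  rw [← Equiv.sum_comp (Equiv.mulLeft ρ) (fun π : Equiv.Perm (Fin 6) =>
    hval W (fun i j => d (π i) (π j)))]
  rfl

lemma Cfg.comp {n m : ℕ} {d : Fin n → Fin n → ℕ} (h : Cfg d) (s : Fin m → Fin n) :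
    Cfg (fun i j => d (s i) (s j)) :=
  ⟨fun _ _ => h.lt _ _, fun _ _ => h.anti _ _, fun _ _ _ => h.ok _ _ _⟩

section Sound

variable {V : Type*} [Fintype V]

omit [Fintype V] in
lemma cfg_rel (E : V → V → Prop) [DecidableRel E]
    (hE : ∀ u v, E u v → ¬ E v u) (h3 : ∀ u v w, E u v → E v w → ¬ E w u) {n : ℕ}
    (x : Fin n → V) : Cfg (fun i j => rel E (x i) (x j)) :=
  ⟨fun _ _ => rel_lt E _ _, fun _ _ => rel_inv E hE _ _, fun _ _ _ => rel_okT E hE h3 _ _ _⟩

lemma sum6 (g : V → V → (Fin 4 → V) → ℤ) :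
    ∑ x : Fin 6 → V, g (x 0) (x 1) (fun i => x i.succ.succ) =
      ∑ x : Fin 4 → V, ∑ a, ∑ b, g a b x := by
  rw [← Equiv.sum_comp (Fin.consEquiv (fun _ : Fin 6 => V))]
  rw [Fintype.sum_prod_type]
  have : ∀ a : V, ∑ y : Fin 5 → V, g ((Fin.consEquiv (fun _ : Fin 6 => V)) (a, y) 0)
      ((Fin.consEquiv (fun _ : Fin 6 => V)) (a, y) 1)
      (fun i => (Fin.consEquiv (fun _ : Fin 6 => V)) (a, y) i.succ.succ) =
      ∑ b, ∑ x : Fin 4 → V, g a b x := by
    intro a
    rw [← Equiv.sum_comp (Fin.consEquiv (fun _ : Fin 5 => V))]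
    rw [Fintype.sum_prod_type]
    rfl
  rw [Finset.sum_congr rfl (fun a _ => this a)]
  symm
  rw [Finset.sum_comm]
  exact Finset.sum_congr rfl (fun a _ => Finset.sum_comm)

/-- SOUNDNESS: if all root sums are nonnegative, some 6-tuple has a nonnegative symmetrised
value. -/
theorem exists_nonneg [Nonempty V] (E : V → V → Prop) [DecidableRel E]
    (W : ℕ → ℕ → ℕ → ℕ → ℤ)
    (hpos : ∀ x : Fin 4 → V, 0 ≤ ∑ a : V, ∑ b : V,
      W (code4 (fun i j => rel E (x i) (x j))) (prof4 (fun i => rel E (x i) a))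
        (prof4 (fun i => rel E (x i) b)) (rel E a b)) :
    ∃ x : Fin 6 → V, 0 ≤ T6 W (fun i j => rel E (x i) (x j)) := by
  classical
  by_contra hcon
  push Not at hcon
  have h1 : ∑ x : Fin 6 → V, T6 W (fun i j => rel E (x i) (x j)) < 0 :=
    Finset.sum_neg (fun x _ => hcon x) Finset.univ_nonempty
  have h2 : ∑ x : Fin 6 → V, T6 W (fun i j => rel E (x i) (x j)) =
      ∑ _π : Equiv.Perm (Fin 6), ∑ x : Fin 6 → V, hval W (fun i j => rel E (x i) (x j)) := by
    unfold T6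
    rw [Finset.sum_comm]
    refine Finset.sum_congr rfl (fun π _ => ?_)
    let e : (Fin 6 → V) ≃ (Fin 6 → V) :=
      { toFun := fun x i => x (π i)
        invFun := fun x i => x (π.symm i)
        left_inv := by intro x; funext i; simp
        right_inv := by intro x; funext i; simp }
    exact Equiv.sum_comp e (fun x => hval W (fun i j => rel E (x i) (x j)))
  have h3 : 0 ≤ ∑ x : Fin 6 → V, hval W (fun i j => rel E (x i) (x j)) := by
    have h := sum6 (fun a b (x : Fin 4 → V) =>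
      W (code4 (fun i j => rel E (x i) (x j))) (prof4 (fun i => rel E (x i) a))
        (prof4 (fun i => rel E (x i) b)) (rel E a b))
    unfold hval
    rw [h]
    exact Finset.sum_nonneg (fun x _ => hpos x)
  rw [h2, Finset.sum_const, nsmul_eq_mul] at h1
  have h4 : (0 : ℤ) ≤ ((Finset.univ : Finset (Equiv.Perm (Fin 6))).card : ℤ) := by positivity
  nlinarith

end Sound

end Pool.Agent.CH6
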