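import Pool.Agent.Helper93_CH6.Val6

/-!
The symmetrised value of the squares with two roots.
-/

set_option autoImplicit false

namespace Pool.Agent.CH6

open Pool.Agent.CH

/-- invariance under permutations of the four points -/
def PInv (H : (Fin 4 → Fin 6) → Fin 6 → Fin 6 → ℤ) : Prop :=
  ∀ (ρ ρ' : Fin 4 → Fin 6) (p q : Fin 6), (∃ τ : Equiv.Perm (Fin 4), ∀ i, ρ i = ρ' (τ i)) →
    H ρ p q = H ρ' p q

lemma tc00 (H : (Fin 4 → Fin 6) → Fin 6 → Fin 6 → ℤ) (hH : PInv H) :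
    H (fun i => Equiv.swap 0 (0 : Fin 6) (Equiv.swap 0 (0 : Fin 5) i.succ).succ) 0
      (Equiv.swap 0 (0 : Fin 6) (0 : Fin 5).succ) = H ![2, 3, 4, 5] 0 1 := by
  have e : Equiv.swap 0 (0 : Fin 6) (0 : Fin 5).succ = 1 := by decide
  rw [e]
  exact hH _ _ _ _ ⟨⟨![0, 1, 2, 3], ![0, 1, 2, 3], by decide, by decide⟩, by decide⟩

lemma tc01 (H : (Fin 4 → Fin 6) → Fin 6 → Fin 6 → ℤ) (hH : PInv H) :
    H (fun i => Equiv.swap 0 (0 : Fin 6) (Equiv.swap 0 (1 : Fin 5) i.succ).succ) 0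
      (Equiv.swap 0 (0 : Fin 6) (1 : Fin 5).succ) = H ![1, 3, 4, 5] 0 2 := by
  have e : Equiv.swap 0 (0 : Fin 6) (1 : Fin 5).succ = 2 := by decide
  rw [e]
  exact hH _ _ _ _ ⟨⟨![0, 1, 2, 3], ![0, 1, 2, 3], by decide, by decide⟩, by decide⟩

lemma tc02 (H : (Fin 4 → Fin 6) → Fin 6 → Fin 6 → ℤ) (hH : PInv H) :
    H (fun i => Equiv.swap 0 (0 : Fin 6) (Equiv.swap 0 (2 : Fin 5) i.succ).succ) 0
      (Equiv.swap 0 (0 : Fin 6) (2 : Fin 5).succ) = H ![1, 2, 4, 5] 0 3 := by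
  have e : Equiv.swap 0 (0 : Fin 6) (2 : Fin 5).succ = 3 := by decide
  rw [e]
  exact hH _ _ _ _ ⟨⟨![1, 0, 2, 3], ![1, 0, 2, 3], by decide, by decide⟩, by decide⟩

lemma tc03 (H : (Fin 4 → Fin 6) → Fin 6 → Fin 6 → ℤ) (hH : PInv H) :
    H (fun i => Equiv.swap 0 (0 : Fin 6) (Equiv.swap 0 (3 : Fin 5) i.succ).succ) 0
      (Equiv.swap 0 (0 : Fin 6) (3 : Fin 5).succ) = H ![1, 2, 3, 5] 0 4 := by
  have e : Equiv.swap 0 (0 : Fin 6) (3 : Fin 5).succ = 4 := by decide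
  rw [e]
  exact hH _ _ _ _ ⟨⟨![1, 2, 0, 3], ![2, 0, 1, 3], by decide, by decide⟩, by decide⟩

lemma tc04 (H : (Fin 4 → Fin 6) → Fin 6 → Fin 6 → ℤ) (hH : PInv H) :
    H (fun i => Equiv.swap 0 (0 : Fin 6) (Equiv.swap 0 (4 : Fin 5) i.succ).succ) 0
      (Equiv.swap 0 (0 : Fin 6) (4 : Fin 5).succ) = H ![1, 2, 3, 4] 0 5 := by
  have e : Equiv.swap 0 (0 : Fin 6) (4 : Fin 5).succ = 5 := by decide
  rw [e]
  exact hH _ _ _ _ ⟨⟨![1, 2, 3, 0], ![3, 0, 1, 2], by decide, by decide⟩, by decide⟩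

lemma tc10 (H : (Fin 4 → Fin 6) → Fin 6 → Fin 6 → ℤ) (hH : PInv H) :
    H (fun i => Equiv.swap 0 (1 : Fin 6) (Equiv.swap 0 (0 : Fin 5) i.succ).succ) 1
      (Equiv.swap 0 (1 : Fin 6) (0 : Fin 5).succ) = H ![2, 3, 4, 5] 1 0 := by
  have e : Equiv.swap 0 (1 : Fin 6) (0 : Fin 5).succ = 0 := by decide
  rw [e]
  exact hH _ _ _ _ ⟨⟨![0, 1, 2, 3], ![0, 1, 2, 3], by decide, by decide⟩, by decide⟩

lemma tc11 (H : (Fin 4 → Fin 6) → Fin 6 → Fin 6 → ℤ) (hH : PInv H) :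
    H (fun i => Equiv.swap 0 (1 : Fin 6) (Equiv.swap 0 (1 : Fin 5) i.succ).succ) 1
      (Equiv.swap 0 (1 : Fin 6) (1 : Fin 5).succ) = H ![0, 3, 4, 5] 1 2 := by
  have e : Equiv.swap 0 (1 : Fin 6) (1 : Fin 5).succ = 2 := by decide
  rw [e]
  exact hH _ _ _ _ ⟨⟨![0, 1, 2, 3], ![0, 1, 2, 3], by decide, by decide⟩, by decide⟩

lemma tc12 (H : (Fin 4 → Fin 6) → Fin 6 → Fin 6 → ℤ) (hH : PInv H) :
    H (fun i => Equiv.swap 0 (1 : Fin 6) (Equiv.swap 0 (2 : Fin 5) i.succ).succ) 1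
      (Equiv.swap 0 (1 : Fin 6) (2 : Fin 5).succ) = H ![0, 2, 4, 5] 1 3 := by
  have e : Equiv.swap 0 (1 : Fin 6) (2 : Fin 5).succ = 3 := by decide
  rw [e]
  exact hH _ _ _ _ ⟨⟨![1, 0, 2, 3], ![1, 0, 2, 3], by decide, by decide⟩, by decide⟩

lemma tc13 (H : (Fin 4 → Fin 6) → Fin 6 → Fin 6 → ℤ) (hH : PInv H) :
    H (fun i => Equiv.swap 0 (1 : Fin 6) (Equiv.swap 0 (3 : Fin 5) i.succ).succ) 1
      (Equiv.swap 0 (1 : Fin 6) (3 : Fin 5).succ) = H ![0, 2, 3, 5] 1 4 := by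
  have e : Equiv.swap 0 (1 : Fin 6) (3 : Fin 5).succ = 4 := by decide
  rw [e]
  exact hH _ _ _ _ ⟨⟨![1, 2, 0, 3], ![2, 0, 1, 3], by decide, by decide⟩, by decide⟩

lemma tc14 (H : (Fin 4 → Fin 6) → Fin 6 → Fin 6 → ℤ) (hH : PInv H) :
    H (fun i => Equiv.swap 0 (1 : Fin 6) (Equiv.swap 0 (4 : Fin 5) i.succ).succ) 1
      (Equiv.swap 0 (1 : Fin 6) (4 : Fin 5).succ) = H ![0, 2, 3, 4] 1 5 := by
  have e : Equiv.swap 0 (1 : Fin 6) (4 : Fin 5).succ = 5 := by decide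
  rw [e]
  exact hH _ _ _ _ ⟨⟨![1, 2, 3, 0], ![3, 0, 1, 2], by decide, by decide⟩, by decide⟩

lemma tc20 (H : (Fin 4 → Fin 6) → Fin 6 → Fin 6 → ℤ) (hH : PInv H) :
    H (fun i => Equiv.swap 0 (2 : Fin 6) (Equiv.swap 0 (0 : Fin 5) i.succ).succ) 2
      (Equiv.swap 0 (2 : Fin 6) (0 : Fin 5).succ) = H ![0, 3, 4, 5] 2 1 := by
  have e : Equiv.swap 0 (2 : Fin 6) (0 : Fin 5).succ = 1 := by decide
  rw [e]
  exact hH _ _ _ _ ⟨⟨![0, 1, 2, 3], ![0, 1, 2, 3], by decide, by decide⟩, by decide⟩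

lemma tc21 (H : (Fin 4 → Fin 6) → Fin 6 → Fin 6 → ℤ) (hH : PInv H) :
    H (fun i => Equiv.swap 0 (2 : Fin 6) (Equiv.swap 0 (1 : Fin 5) i.succ).succ) 2
      (Equiv.swap 0 (2 : Fin 6) (1 : Fin 5).succ) = H ![1, 3, 4, 5] 2 0 := by
  have e : Equiv.swap 0 (2 : Fin 6) (1 : Fin 5).succ = 0 := by decide
  rw [e]
  exact hH _ _ _ _ ⟨⟨![0, 1, 2, 3], ![0, 1, 2, 3], by decide, by decide⟩, by decide⟩

lemma tc22 (H : (Fin 4 → Fin 6) → Fin 6 → Fin 6 → ℤ) (hH : PInv H) :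
    H (fun i => Equiv.swap 0 (2 : Fin 6) (Equiv.swap 0 (2 : Fin 5) i.succ).succ) 2
      (Equiv.swap 0 (2 : Fin 6) (2 : Fin 5).succ) = H ![0, 1, 4, 5] 2 3 := by
  have e : Equiv.swap 0 (2 : Fin 6) (2 : Fin 5).succ = 3 := by decide
  rw [e]
  exact hH _ _ _ _ ⟨⟨![0, 1, 2, 3], ![0, 1, 2, 3], by decide, by decide⟩, by decide⟩

lemma tc23 (H : (Fin 4 → Fin 6) → Fin 6 → Fin 6 → ℤ) (hH : PInv H) :
    H (fun i => Equiv.swap 0 (2 : Fin 6) (Equiv.swap 0 (3 : Fin 5) i.succ).succ) 2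
      (Equiv.swap 0 (2 : Fin 6) (3 : Fin 5).succ) = H ![0, 1, 3, 5] 2 4 := by
  have e : Equiv.swap 0 (2 : Fin 6) (3 : Fin 5).succ = 4 := by decide
  rw [e]
  exact hH _ _ _ _ ⟨⟨![0, 2, 1, 3], ![0, 2, 1, 3], by decide, by decide⟩, by decide⟩

lemma tc24 (H : (Fin 4 → Fin 6) → Fin 6 → Fin 6 → ℤ) (hH : PInv H) :
    H (fun i => Equiv.swap 0 (2 : Fin 6) (Equiv.swap 0 (4 : Fin 5) i.succ).succ) 2
      (Equiv.swap 0 (2 : Fin 6) (4 : Fin 5).succ) = H ![0, 1, 3, 4] 2 5 := by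
  have e : Equiv.swap 0 (2 : Fin 6) (4 : Fin 5).succ = 5 := by decide
  rw [e]
  exact hH _ _ _ _ ⟨⟨![0, 2, 3, 1], ![0, 3, 1, 2], by decide, by decide⟩, by decide⟩

lemma tc30 (H : (Fin 4 → Fin 6) → Fin 6 → Fin 6 → ℤ) (hH : PInv H) :
    H (fun i => Equiv.swap 0 (3 : Fin 6) (Equiv.swap 0 (0 : Fin 5) i.succ).succ) 3
      (Equiv.swap 0 (3 : Fin 6) (0 : Fin 5).succ) = H ![0, 2, 4, 5] 3 1 := by
  have e : Equiv.swap 0 (3 : Fin 6) (0 : Fin 5).succ = 1 := by decide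
  rw [e]
  exact hH _ _ _ _ ⟨⟨![1, 0, 2, 3], ![1, 0, 2, 3], by decide, by decide⟩, by decide⟩

lemma tc31 (H : (Fin 4 → Fin 6) → Fin 6 → Fin 6 → ℤ) (hH : PInv H) :
    H (fun i => Equiv.swap 0 (3 : Fin 6) (Equiv.swap 0 (1 : Fin 5) i.succ).succ) 3
      (Equiv.swap 0 (3 : Fin 6) (1 : Fin 5).succ) = H ![0, 1, 4, 5] 3 2 := by
  have e : Equiv.swap 0 (3 : Fin 6) (1 : Fin 5).succ = 2 := by decide
  rw [e]
  exact hH _ _ _ _ ⟨⟨![1, 0, 2, 3], ![1, 0, 2, 3], by decide, by decide⟩, by decide⟩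

lemma tc32 (H : (Fin 4 → Fin 6) → Fin 6 → Fin 6 → ℤ) (hH : PInv H) :
    H (fun i => Equiv.swap 0 (3 : Fin 6) (Equiv.swap 0 (2 : Fin 5) i.succ).succ) 3
      (Equiv.swap 0 (3 : Fin 6) (2 : Fin 5).succ) = H ![1, 2, 4, 5] 3 0 := by
  have e : Equiv.swap 0 (3 : Fin 6) (2 : Fin 5).succ = 0 := by decide
  rw [e]
  exact hH _ _ _ _ ⟨⟨![1, 0, 2, 3], ![1, 0, 2, 3], by decide, by decide⟩, by decide⟩

lemma tc33 (H : (Fin 4 → Fin 6) → Fin 6 → Fin 6 → ℤ) (hH : PInv H) :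
    H (fun i => Equiv.swap 0 (3 : Fin 6) (Equiv.swap 0 (3 : Fin 5) i.succ).succ) 3
      (Equiv.swap 0 (3 : Fin 6) (3 : Fin 5).succ) = H ![0, 1, 2, 5] 3 4 := by
  have e : Equiv.swap 0 (3 : Fin 6) (3 : Fin 5).succ = 4 := by decide
  rw [e]
  exact hH _ _ _ _ ⟨⟨![2, 0, 1, 3], ![1, 2, 0, 3], by decide, by decide⟩, by decide⟩

lemma tc34 (H : (Fin 4 → Fin 6) → Fin 6 → Fin 6 → ℤ) (hH : PInv H) :
    H (fun i => Equiv.swap 0 (3 : Fin 6) (Equiv.swap 0 (4 : Fin 5) i.succ).succ) 3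
      (Equiv.swap 0 (3 : Fin 6) (4 : Fin 5).succ) = H ![0, 1, 2, 4] 3 5 := by
  have e : Equiv.swap 0 (3 : Fin 6) (4 : Fin 5).succ = 5 := by decide
  rw [e]
  exact hH _ _ _ _ ⟨⟨![2, 0, 3, 1], ![1, 3, 0, 2], by decide, by decide⟩, by decide⟩

lemma tc40 (H : (Fin 4 → Fin 6) → Fin 6 → Fin 6 → ℤ) (hH : PInv H) :
    H (fun i => Equiv.swap 0 (4 : Fin 6) (Equiv.swap 0 (0 : Fin 5) i.succ).succ) 4
      (Equiv.swap 0 (4 : Fin 6) (0 : Fin 5).succ) = H ![0, 2, 3, 5] 4 1 := by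
  have e : Equiv.swap 0 (4 : Fin 6) (0 : Fin 5).succ = 1 := by decide
  rw [e]
  exact hH _ _ _ _ ⟨⟨![1, 2, 0, 3], ![2, 0, 1, 3], by decide, by decide⟩, by decide⟩

lemma tc41 (H : (Fin 4 → Fin 6) → Fin 6 → Fin 6 → ℤ) (hH : PInv H) :
    H (fun i => Equiv.swap 0 (4 : Fin 6) (Equiv.swap 0 (1 : Fin 5) i.succ).succ) 4
      (Equiv.swap 0 (4 : Fin 6) (1 : Fin 5).succ) = H ![0, 1, 3, 5] 4 2 := by
  have e : Equiv.swap 0 (4 : Fin 6) (1 : Fin 5).succ = 2 := by decide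
  rw [e]
  exact hH _ _ _ _ ⟨⟨![1, 2, 0, 3], ![2, 0, 1, 3], by decide, by decide⟩, by decide⟩

lemma tc42 (H : (Fin 4 → Fin 6) → Fin 6 → Fin 6 → ℤ) (hH : PInv H) :
    H (fun i => Equiv.swap 0 (4 : Fin 6) (Equiv.swap 0 (2 : Fin 5) i.succ).succ) 4
      (Equiv.swap 0 (4 : Fin 6) (2 : Fin 5).succ) = H ![0, 1, 2, 5] 4 3 := by
  have e : Equiv.swap 0 (4 : Fin 6) (2 : Fin 5).succ = 3 := by decide
  rw [e]
  exact hH _ _ _ _ ⟨⟨![2, 1, 0, 3], ![2, 1, 0, 3], by decide, by decide⟩, by decide⟩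

lemma tc43 (H : (Fin 4 → Fin 6) → Fin 6 → Fin 6 → ℤ) (hH : PInv H) :
    H (fun i => Equiv.swap 0 (4 : Fin 6) (Equiv.swap 0 (3 : Fin 5) i.succ).succ) 4
      (Equiv.swap 0 (4 : Fin 6) (3 : Fin 5).succ) = H ![1, 2, 3, 5] 4 0 := by
  have e : Equiv.swap 0 (4 : Fin 6) (3 : Fin 5).succ = 0 := by decide
  rw [e]
  exact hH _ _ _ _ ⟨⟨![1, 2, 0, 3], ![2, 0, 1, 3], by decide, by decide⟩, by decide⟩

lemma tc44 (H : (Fin 4 → Fin 6) → Fin 6 → Fin 6 → ℤ) (hH : PInv H) :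
    H (fun i => Equiv.swap 0 (4 : Fin 6) (Equiv.swap 0 (4 : Fin 5) i.succ).succ) 4
      (Equiv.swap 0 (4 : Fin 6) (4 : Fin 5).succ) = H ![0, 1, 2, 3] 4 5 := by
  have e : Equiv.swap 0 (4 : Fin 6) (4 : Fin 5).succ = 5 := by decide
  rw [e]
  exact hH _ _ _ _ ⟨⟨![2, 3, 0, 1], ![2, 3, 0, 1], by decide, by decide⟩, by decide⟩

lemma tc50 (H : (Fin 4 → Fin 6) → Fin 6 → Fin 6 → ℤ) (hH : PInv H) :
    H (fun i => Equiv.swap 0 (5 : Fin 6) (Equiv.swap 0 (0 : Fin 5) i.succ).succ) 5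
      (Equiv.swap 0 (5 : Fin 6) (0 : Fin 5).succ) = H ![0, 2, 3, 4] 5 1 := by
  have e : Equiv.swap 0 (5 : Fin 6) (0 : Fin 5).succ = 1 := by decide
  rw [e]
  exact hH _ _ _ _ ⟨⟨![1, 2, 3, 0], ![3, 0, 1, 2], by decide, by decide⟩, by decide⟩

lemma tc51 (H : (Fin 4 → Fin 6) → Fin 6 → Fin 6 → ℤ) (hH : PInv H) :
    H (fun i => Equiv.swap 0 (5 : Fin 6) (Equiv.swap 0 (1 : Fin 5) i.succ).succ) 5
      (Equiv.swap 0 (5 : Fin 6) (1 : Fin 5).succ) = H ![0, 1, 3, 4] 5 2 := by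
  have e : Equiv.swap 0 (5 : Fin 6) (1 : Fin 5).succ = 2 := by decide
  rw [e]
  exact hH _ _ _ _ ⟨⟨![1, 2, 3, 0], ![3, 0, 1, 2], by decide, by decide⟩, by decide⟩

lemma tc52 (H : (Fin 4 → Fin 6) → Fin 6 → Fin 6 → ℤ) (hH : PInv H) :
    H (fun i => Equiv.swap 0 (5 : Fin 6) (Equiv.swap 0 (2 : Fin 5) i.succ).succ) 5
      (Equiv.swap 0 (5 : Fin 6) (2 : Fin 5).succ) = H ![0, 1, 2, 4] 5 3 := by
  have e : Equiv.swap 0 (5 : Fin 6) (2 : Fin 5).succ = 3 := by decide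
  rw [e]
  exact hH _ _ _ _ ⟨⟨![2, 1, 3, 0], ![3, 1, 0, 2], by decide, by decide⟩, by decide⟩

lemma tc53 (H : (Fin 4 → Fin 6) → Fin 6 → Fin 6 → ℤ) (hH : PInv H) :
    H (fun i => Equiv.swap 0 (5 : Fin 6) (Equiv.swap 0 (3 : Fin 5) i.succ).succ) 5
      (Equiv.swap 0 (5 : Fin 6) (3 : Fin 5).succ) = H ![0, 1, 2, 3] 5 4 := by
  have e : Equiv.swap 0 (5 : Fin 6) (3 : Fin 5).succ = 4 := by decide
  rw [e]
  exact hH _ _ _ _ ⟨⟨![2, 3, 1, 0], ![3, 2, 0, 1], by decide, by decide⟩, by decide⟩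

lemma tc54 (H : (Fin 4 → Fin 6) → Fin 6 → Fin 6 → ℤ) (hH : PInv H) :
    H (fun i => Equiv.swap 0 (5 : Fin 6) (Equiv.swap 0 (4 : Fin 5) i.succ).succ) 5
      (Equiv.swap 0 (5 : Fin 6) (4 : Fin 5).succ) = H ![1, 2, 3, 4] 5 0 := by
  have e : Equiv.swap 0 (5 : Fin 6) (4 : Fin 5).succ = 0 := by decide
  rw [e]
  exact hH _ _ _ _ ⟨⟨![1, 2, 3, 0], ![3, 0, 1, 2], by decide, by decide⟩, by decide⟩

theorem thirty (H : (Fin 4 → Fin 6) → Fin 6 → Fin 6 → ℤ) (hH : PInv H) :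
    ∑ p : Fin 6, ∑ q : Fin 5,
      H (fun i => Equiv.swap 0 p (Equiv.swap 0 q i.succ).succ) p (Equiv.swap 0 p q.succ) =
      (H ![2, 3, 4, 5] 0 1 + H ![2, 3, 4, 5] 1 0) +
      (H ![1, 3, 4, 5] 0 2 + H ![1, 3, 4, 5] 2 0) +
      (H ![0, 3, 4, 5] 1 2 + H ![0, 3, 4, 5] 2 1) +
      (H ![1, 2, 4, 5] 0 3 + H ![1, 2, 4, 5] 3 0) +
      (H ![0, 2, 4, 5] 1 3 + H ![0, 2, 4, 5] 3 1) +
      (H ![0, 1, 4, 5] 2 3 + H ![0, 1, 4, 5] 3 2) +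
      (H ![1, 2, 3, 5] 0 4 + H ![1, 2, 3, 5] 4 0) +
      (H ![0, 2, 3, 5] 1 4 + H ![0, 2, 3, 5] 4 1) +
      (H ![0, 1, 3, 5] 2 4 + H ![0, 1, 3, 5] 4 2) +
      (H ![0, 1, 2, 5] 3 4 + H ![0, 1, 2, 5] 4 3) +
      (H ![1, 2, 3, 4] 0 5 + H ![1, 2, 3, 4] 5 0) +
      (H ![0, 2, 3, 4] 1 5 + H ![0, 2, 3, 4] 5 1) +
      (H ![0, 1, 3, 4] 2 5 + H ![0, 1, 3, 4] 5 2) +
      (H ![0, 1, 2, 4] 3 5 + H ![0, 1, 2, 4] 5 3) +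
      (H ![0, 1, 2, 3] 4 5 + H ![0, 1, 2, 3] 5 4) := by
  rw [Fin.sum_univ_six]
  simp only [Fin.sum_univ_five]
  rw [tc00 H hH, tc01 H hH, tc02 H hH, tc03 H hH, tc04 H hH, tc10 H hH, tc11 H hH, tc12 H hH, tc13 H hH, tc14 H hH, tc20 H hH, tc21 H hH, tc22 H hH, tc23 H hH, tc24 H hH, tc30 H hH, tc31 H hH, tc32 H hH, tc33 H hH, tc34 H hH, tc40 H hH, tc41 H hH, tc42 H hH, tc43 H hH, tc44 H hH, tc50 H hH, tc51 H hH, tc52 H hH, tc53 H hH, tc54 H hH]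
  ring

end Pool.Agent.CH6
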