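import Pool.Agent.Helper93_CH6.Core6

/-!
The symmetrised value as a sum of fifteen pair terms, and the reduction to representatives.
-/

set_option autoImplicit false

namespace Pool.Agent.CH6

open Pool.Agent.CH

/-- sum over all orderings of four roots; `p, q` are the two extra vertices -/
def G (W : ℕ → ℕ → ℕ → ℕ → ℤ) (d : Fin 6 → Fin 6 → ℕ) (ρ : Fin 4 → Fin 6) (p q : Fin 6) : ℤ :=
  ∑ σ : Equiv.Perm (Fin 4), W (code4 (fun i j => d (ρ (σ i)) (ρ (σ j))))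
    (prof4 (fun i => d (ρ (σ i)) p)) (prof4 (fun i => d (ρ (σ i)) q)) (d p q)

lemma G_congr (W : ℕ → ℕ → ℕ → ℕ → ℤ) (d : Fin 6 → Fin 6 → ℕ) (ρ ρ' : Fin 4 → Fin 6)
    (p q : Fin 6) (h : ∃ τ : Equiv.Perm (Fin 4), ∀ i, ρ i = ρ' (τ i)) :
    G W d ρ p q = G W d ρ' p q := by
  obtain ⟨τ, hτ⟩ := h
  unfold G
  rw [← Equiv.sum_comp (Equiv.mulLeft τ) (fun σ : Equiv.Perm (Fin 4) =>
    W (code4 (fun i j => d (ρ' (σ i)) (ρ' (σ j))))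
    (prof4 (fun i => d (ρ' (σ i)) p)) (prof4 (fun i => d (ρ' (σ i)) q)) (d p q))]
  refine Finset.sum_congr rfl (fun σ _ => ?_)
  simp only [hτ]
  rfl

/-- the two halves of a pair term -/
def GG (W : ℕ → ℕ → ℕ → ℕ → ℤ) (d : Fin 6 → Fin 6 → ℕ) (i j k l p q : Fin 6) : ℤ :=
  G W d ![i, j, k, l] p q + G W d ![i, j, k, l] q p

lemma T6_decomp (W : ℕ → ℕ → ℕ → ℕ → ℤ) (d : Fin 6 → Fin 6 → ℕ) :
    T6 W d = ∑ p : Fin 6, ∑ q : Fin 5,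
      G W d (fun i => Equiv.swap 0 p (Equiv.swap 0 q i.succ).succ) p (Equiv.swap 0 p q.succ) := by
  unfold T6
  rw [← Equiv.sum_comp (Equiv.Perm.decomposeFin (n := 5)).symm, Fintype.sum_prod_type]
  refine Finset.sum_congr rfl (fun p _ => ?_)
  rw [← Equiv.sum_comp (Equiv.Perm.decomposeFin (n := 4)).symm, Fintype.sum_prod_type]
  refine Finset.sum_congr rfl (fun q _ => ?_)
  unfold G
  refine Finset.sum_congr rfl (fun σ _ => ?_)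
  unfold hval
  have h0 : (Equiv.Perm.decomposeFin.symm (p, Equiv.Perm.decomposeFin.symm (q, σ)) :
      Equiv.Perm (Fin 6)) 0 = p := by
    rw [Equiv.Perm.decomposeFin_symm_apply_zero]
  have h1 : (Equiv.Perm.decomposeFin.symm (p, Equiv.Perm.decomposeFin.symm (q, σ)) :
      Equiv.Perm (Fin 6)) 1 = Equiv.swap 0 p q.succ := by
    have := Equiv.Perm.decomposeFin_symm_apply_succ
      (Equiv.Perm.decomposeFin.symm (q, σ) : Equiv.Perm (Fin 5)) p 0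
    rw [Equiv.Perm.decomposeFin_symm_apply_zero] at this
    exact this
  have h2 : ∀ i : Fin 4, (Equiv.Perm.decomposeFin.symm
      (p, Equiv.Perm.decomposeFin.symm (q, σ)) : Equiv.Perm (Fin 6)) i.succ.succ =
      Equiv.swap 0 p (Equiv.swap 0 q (σ i).succ).succ := by
    intro i
    rw [Equiv.Perm.decomposeFin_symm_apply_succ, Equiv.Perm.decomposeFin_symm_apply_succ]
  simp only [h0, h1, h2]

lemma hc00 (W : ℕ → ℕ → ℕ → ℕ → ℤ) (d : Fin 6 → Fin 6 → ℕ) :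
    G W d (fun i => Equiv.swap 0 (0 : Fin 6) (Equiv.swap 0 (0 : Fin 5) i.succ).succ) 0
      (Equiv.swap 0 (0 : Fin 6) (0 : Fin 5).succ) = G W d ![2, 3, 4, 5] 0 1 := by
  have e : Equiv.swap 0 (0 : Fin 6) (0 : Fin 5).succ = 1 := by decide
  rw [e]
  exact G_congr W d _ _ _ _ ⟨⟨![0, 1, 2, 3], ![0, 1, 2, 3], by decide, by decide⟩, by decide⟩

lemma hc01 (W : ℕ → ℕ → ℕ → ℕ → ℤ) (d : Fin 6 → Fin 6 → ℕ) :
    G W d (fun i => Equiv.swap 0 (0 : Fin 6) (Equiv.swap 0 (1 : Fin 5) i.succ).succ) 0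
      (Equiv.swap 0 (0 : Fin 6) (1 : Fin 5).succ) = G W d ![1, 3, 4, 5] 0 2 := by
  have e : Equiv.swap 0 (0 : Fin 6) (1 : Fin 5).succ = 2 := by decide
  rw [e]
  exact G_congr W d _ _ _ _ ⟨⟨![0, 1, 2, 3], ![0, 1, 2, 3], by decide, by decide⟩, by decide⟩

lemma hc02 (W : ℕ → ℕ → ℕ → ℕ → ℤ) (d : Fin 6 → Fin 6 → ℕ) :
    G W d (fun i => Equiv.swap 0 (0 : Fin 6) (Equiv.swap 0 (2 : Fin 5) i.succ).succ) 0
      (Equiv.swap 0 (0 : Fin 6) (2 : Fin 5).succ) = G W d ![1, 2, 4, 5] 0 3 := by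
  have e : Equiv.swap 0 (0 : Fin 6) (2 : Fin 5).succ = 3 := by decide
  rw [e]
  exact G_congr W d _ _ _ _ ⟨⟨![1, 0, 2, 3], ![1, 0, 2, 3], by decide, by decide⟩, by decide⟩

lemma hc03 (W : ℕ → ℕ → ℕ → ℕ → ℤ) (d : Fin 6 → Fin 6 → ℕ) :
    G W d (fun i => Equiv.swap 0 (0 : Fin 6) (Equiv.swap 0 (3 : Fin 5) i.succ).succ) 0
      (Equiv.swap 0 (0 : Fin 6) (3 : Fin 5).succ) = G W d ![1, 2, 3, 5] 0 4 := by
  have e : Equiv.swap 0 (0 : Fin 6) (3 : Fin 5).succ = 4 := by decide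
  rw [e]
  exact G_congr W d _ _ _ _ ⟨⟨![1, 2, 0, 3], ![2, 0, 1, 3], by decide, by decide⟩, by decide⟩

lemma hc04 (W : ℕ → ℕ → ℕ → ℕ → ℤ) (d : Fin 6 → Fin 6 → ℕ) :
    G W d (fun i => Equiv.swap 0 (0 : Fin 6) (Equiv.swap 0 (4 : Fin 5) i.succ).succ) 0
      (Equiv.swap 0 (0 : Fin 6) (4 : Fin 5).succ) = G W d ![1, 2, 3, 4] 0 5 := by
  have e : Equiv.swap 0 (0 : Fin 6) (4 : Fin 5).succ = 5 := by decide
  rw [e]
  exact G_congr W d _ _ _ _ ⟨⟨![1, 2, 3, 0], ![3, 0, 1, 2], by decide, by decide⟩, by decide⟩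

lemma hc10 (W : ℕ → ℕ → ℕ → ℕ → ℤ) (d : Fin 6 → Fin 6 → ℕ) :
    G W d (fun i => Equiv.swap 0 (1 : Fin 6) (Equiv.swap 0 (0 : Fin 5) i.succ).succ) 1
      (Equiv.swap 0 (1 : Fin 6) (0 : Fin 5).succ) = G W d ![2, 3, 4, 5] 1 0 := by
  have e : Equiv.swap 0 (1 : Fin 6) (0 : Fin 5).succ = 0 := by decide
  rw [e]
  exact G_congr W d _ _ _ _ ⟨⟨![0, 1, 2, 3], ![0, 1, 2, 3], by decide, by decide⟩, by decide⟩

lemma hc11 (W : ℕ → ℕ → ℕ → ℕ → ℤ) (d : Fin 6 → Fin 6 → ℕ) :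
    G W d (fun i => Equiv.swap 0 (1 : Fin 6) (Equiv.swap 0 (1 : Fin 5) i.succ).succ) 1
      (Equiv.swap 0 (1 : Fin 6) (1 : Fin 5).succ) = G W d ![0, 3, 4, 5] 1 2 := by
  have e : Equiv.swap 0 (1 : Fin 6) (1 : Fin 5).succ = 2 := by decide
  rw [e]
  exact G_congr W d _ _ _ _ ⟨⟨![0, 1, 2, 3], ![0, 1, 2, 3], by decide, by decide⟩, by decide⟩

lemma hc12 (W : ℕ → ℕ → ℕ → ℕ → ℤ) (d : Fin 6 → Fin 6 → ℕ) :
    G W d (fun i => Equiv.swap 0 (1 : Fin 6) (Equiv.swap 0 (2 : Fin 5) i.succ).succ) 1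
      (Equiv.swap 0 (1 : Fin 6) (2 : Fin 5).succ) = G W d ![0, 2, 4, 5] 1 3 := by
  have e : Equiv.swap 0 (1 : Fin 6) (2 : Fin 5).succ = 3 := by decide
  rw [e]
  exact G_congr W d _ _ _ _ ⟨⟨![1, 0, 2, 3], ![1, 0, 2, 3], by decide, by decide⟩, by decide⟩

lemma hc13 (W : ℕ → ℕ → ℕ → ℕ → ℤ) (d : Fin 6 → Fin 6 → ℕ) :
    G W d (fun i => Equiv.swap 0 (1 : Fin 6) (Equiv.swap 0 (3 : Fin 5) i.succ).succ) 1
      (Equiv.swap 0 (1 : Fin 6) (3 : Fin 5).succ) = G W d ![0, 2, 3, 5] 1 4 := by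
  have e : Equiv.swap 0 (1 : Fin 6) (3 : Fin 5).succ = 4 := by decide
  rw [e]
  exact G_congr W d _ _ _ _ ⟨⟨![1, 2, 0, 3], ![2, 0, 1, 3], by decide, by decide⟩, by decide⟩

lemma hc14 (W : ℕ → ℕ → ℕ → ℕ → ℤ) (d : Fin 6 → Fin 6 → ℕ) :
    G W d (fun i => Equiv.swap 0 (1 : Fin 6) (Equiv.swap 0 (4 : Fin 5) i.succ).succ) 1
      (Equiv.swap 0 (1 : Fin 6) (4 : Fin 5).succ) = G W d ![0, 2, 3, 4] 1 5 := by
  have e : Equiv.swap 0 (1 : Fin 6) (4 : Fin 5).succ = 5 := by decide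
  rw [e]
  exact G_congr W d _ _ _ _ ⟨⟨![1, 2, 3, 0], ![3, 0, 1, 2], by decide, by decide⟩, by decide⟩

lemma hc20 (W : ℕ → ℕ → ℕ → ℕ → ℤ) (d : Fin 6 → Fin 6 → ℕ) :
    G W d (fun i => Equiv.swap 0 (2 : Fin 6) (Equiv.swap 0 (0 : Fin 5) i.succ).succ) 2
      (Equiv.swap 0 (2 : Fin 6) (0 : Fin 5).succ) = G W d ![0, 3, 4, 5] 2 1 := by
  have e : Equiv.swap 0 (2 : Fin 6) (0 : Fin 5).succ = 1 := by decide
  rw [e]
  exact G_congr W d _ _ _ _ ⟨⟨![0, 1, 2, 3], ![0, 1, 2, 3], by decide, by decide⟩, by decide⟩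

lemma hc21 (W : ℕ → ℕ → ℕ → ℕ → ℤ) (d : Fin 6 → Fin 6 → ℕ) :
    G W d (fun i => Equiv.swap 0 (2 : Fin 6) (Equiv.swap 0 (1 : Fin 5) i.succ).succ) 2
      (Equiv.swap 0 (2 : Fin 6) (1 : Fin 5).succ) = G W d ![1, 3, 4, 5] 2 0 := by
  have e : Equiv.swap 0 (2 : Fin 6) (1 : Fin 5).succ = 0 := by decide
  rw [e]
  exact G_congr W d _ _ _ _ ⟨⟨![0, 1, 2, 3], ![0, 1, 2, 3], by decide, by decide⟩, by decide⟩

lemma hc22 (W : ℕ → ℕ → ℕ → ℕ → ℤ) (d : Fin 6 → Fin 6 → ℕ) :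
    G W d (fun i => Equiv.swap 0 (2 : Fin 6) (Equiv.swap 0 (2 : Fin 5) i.succ).succ) 2
      (Equiv.swap 0 (2 : Fin 6) (2 : Fin 5).succ) = G W d ![0, 1, 4, 5] 2 3 := by
  have e : Equiv.swap 0 (2 : Fin 6) (2 : Fin 5).succ = 3 := by decide
  rw [e]
  exact G_congr W d _ _ _ _ ⟨⟨![0, 1, 2, 3], ![0, 1, 2, 3], by decide, by decide⟩, by decide⟩

lemma hc23 (W : ℕ → ℕ → ℕ → ℕ → ℤ) (d : Fin 6 → Fin 6 → ℕ) :
    G W d (fun i => Equiv.swap 0 (2 : Fin 6) (Equiv.swap 0 (3 : Fin 5) i.succ).succ) 2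
      (Equiv.swap 0 (2 : Fin 6) (3 : Fin 5).succ) = G W d ![0, 1, 3, 5] 2 4 := by
  have e : Equiv.swap 0 (2 : Fin 6) (3 : Fin 5).succ = 4 := by decide
  rw [e]
  exact G_congr W d _ _ _ _ ⟨⟨![0, 2, 1, 3], ![0, 2, 1, 3], by decide, by decide⟩, by decide⟩

lemma hc24 (W : ℕ → ℕ → ℕ → ℕ → ℤ) (d : Fin 6 → Fin 6 → ℕ) :
    G W d (fun i => Equiv.swap 0 (2 : Fin 6) (Equiv.swap 0 (4 : Fin 5) i.succ).succ) 2
      (Equiv.swap 0 (2 : Fin 6) (4 : Fin 5).succ) = G W d ![0, 1, 3, 4] 2 5 := by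
  have e : Equiv.swap 0 (2 : Fin 6) (4 : Fin 5).succ = 5 := by decide
  rw [e]
  exact G_congr W d _ _ _ _ ⟨⟨![0, 2, 3, 1], ![0, 3, 1, 2], by decide, by decide⟩, by decide⟩

lemma hc30 (W : ℕ → ℕ → ℕ → ℕ → ℤ) (d : Fin 6 → Fin 6 → ℕ) :
    G W d (fun i => Equiv.swap 0 (3 : Fin 6) (Equiv.swap 0 (0 : Fin 5) i.succ).succ) 3
      (Equiv.swap 0 (3 : Fin 6) (0 : Fin 5).succ) = G W d ![0, 2, 4, 5] 3 1 := by
  have e : Equiv.swap 0 (3 : Fin 6) (0 : Fin 5).succ = 1 := by decide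
  rw [e]
  exact G_congr W d _ _ _ _ ⟨⟨![1, 0, 2, 3], ![1, 0, 2, 3], by decide, by decide⟩, by decide⟩

lemma hc31 (W : ℕ → ℕ → ℕ → ℕ → ℤ) (d : Fin 6 → Fin 6 → ℕ) :
    G W d (fun i => Equiv.swap 0 (3 : Fin 6) (Equiv.swap 0 (1 : Fin 5) i.succ).succ) 3
      (Equiv.swap 0 (3 : Fin 6) (1 : Fin 5).succ) = G W d ![0, 1, 4, 5] 3 2 := by
  have e : Equiv.swap 0 (3 : Fin 6) (1 : Fin 5).succ = 2 := by decide
  rw [e]
  exact G_congr W d _ _ _ _ ⟨⟨![1, 0, 2, 3], ![1, 0, 2, 3], by decide, by decide⟩, by decide⟩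

lemma hc32 (W : ℕ → ℕ → ℕ → ℕ → ℤ) (d : Fin 6 → Fin 6 → ℕ) :
    G W d (fun i => Equiv.swap 0 (3 : Fin 6) (Equiv.swap 0 (2 : Fin 5) i.succ).succ) 3
      (Equiv.swap 0 (3 : Fin 6) (2 : Fin 5).succ) = G W d ![1, 2, 4, 5] 3 0 := by
  have e : Equiv.swap 0 (3 : Fin 6) (2 : Fin 5).succ = 0 := by decide
  rw [e]
  exact G_congr W d _ _ _ _ ⟨⟨![1, 0, 2, 3], ![1, 0, 2, 3], by decide, by decide⟩, by decide⟩

lemma hc33 (W : ℕ → ℕ → ℕ → ℕ → ℤ) (d : Fin 6 → Fin 6 → ℕ) :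
    G W d (fun i => Equiv.swap 0 (3 : Fin 6) (Equiv.swap 0 (3 : Fin 5) i.succ).succ) 3
      (Equiv.swap 0 (3 : Fin 6) (3 : Fin 5).succ) = G W d ![0, 1, 2, 5] 3 4 := by
  have e : Equiv.swap 0 (3 : Fin 6) (3 : Fin 5).succ = 4 := by decide
  rw [e]
  exact G_congr W d _ _ _ _ ⟨⟨![2, 0, 1, 3], ![1, 2, 0, 3], by decide, by decide⟩, by decide⟩

lemma hc34 (W : ℕ → ℕ → ℕ → ℕ → ℤ) (d : Fin 6 → Fin 6 → ℕ) :
    G W d (fun i => Equiv.swap 0 (3 : Fin 6) (Equiv.swap 0 (4 : Fin 5) i.succ).succ) 3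
      (Equiv.swap 0 (3 : Fin 6) (4 : Fin 5).succ) = G W d ![0, 1, 2, 4] 3 5 := by
  have e : Equiv.swap 0 (3 : Fin 6) (4 : Fin 5).succ = 5 := by decide
  rw [e]
  exact G_congr W d _ _ _ _ ⟨⟨![2, 0, 3, 1], ![1, 3, 0, 2], by decide, by decide⟩, by decide⟩

lemma hc40 (W : ℕ → ℕ → ℕ → ℕ → ℤ) (d : Fin 6 → Fin 6 → ℕ) :
    G W d (fun i => Equiv.swap 0 (4 : Fin 6) (Equiv.swap 0 (0 : Fin 5) i.succ).succ) 4
      (Equiv.swap 0 (4 : Fin 6) (0 : Fin 5).succ) = G W d ![0, 2, 3, 5] 4 1 := by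
  have e : Equiv.swap 0 (4 : Fin 6) (0 : Fin 5).succ = 1 := by decide
  rw [e]
  exact G_congr W d _ _ _ _ ⟨⟨![1, 2, 0, 3], ![2, 0, 1, 3], by decide, by decide⟩, by decide⟩

lemma hc41 (W : ℕ → ℕ → ℕ → ℕ → ℤ) (d : Fin 6 → Fin 6 → ℕ) :
    G W d (fun i => Equiv.swap 0 (4 : Fin 6) (Equiv.swap 0 (1 : Fin 5) i.succ).succ) 4
      (Equiv.swap 0 (4 : Fin 6) (1 : Fin 5).succ) = G W d ![0, 1, 3, 5] 4 2 := by
  have e : Equiv.swap 0 (4 : Fin 6) (1 : Fin 5).succ = 2 := by decide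
  rw [e]
  exact G_congr W d _ _ _ _ ⟨⟨![1, 2, 0, 3], ![2, 0, 1, 3], by decide, by decide⟩, by decide⟩

lemma hc42 (W : ℕ → ℕ → ℕ → ℕ → ℤ) (d : Fin 6 → Fin 6 → ℕ) :
    G W d (fun i => Equiv.swap 0 (4 : Fin 6) (Equiv.swap 0 (2 : Fin 5) i.succ).succ) 4
      (Equiv.swap 0 (4 : Fin 6) (2 : Fin 5).succ) = G W d ![0, 1, 2, 5] 4 3 := by
  have e : Equiv.swap 0 (4 : Fin 6) (2 : Fin 5).succ = 3 := by decide
  rw [e]
  exact G_congr W d _ _ _ _ ⟨⟨![2, 1, 0, 3], ![2, 1, 0, 3], by decide, by decide⟩, by decide⟩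

lemma hc43 (W : ℕ → ℕ → ℕ → ℕ → ℤ) (d : Fin 6 → Fin 6 → ℕ) :
    G W d (fun i => Equiv.swap 0 (4 : Fin 6) (Equiv.swap 0 (3 : Fin 5) i.succ).succ) 4
      (Equiv.swap 0 (4 : Fin 6) (3 : Fin 5).succ) = G W d ![1, 2, 3, 5] 4 0 := by
  have e : Equiv.swap 0 (4 : Fin 6) (3 : Fin 5).succ = 0 := by decide
  rw [e]
  exact G_congr W d _ _ _ _ ⟨⟨![1, 2, 0, 3], ![2, 0, 1, 3], by decide, by decide⟩, by decide⟩

lemma hc44 (W : ℕ → ℕ → ℕ → ℕ → ℤ) (d : Fin 6 → Fin 6 → ℕ) :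
    G W d (fun i => Equiv.swap 0 (4 : Fin 6) (Equiv.swap 0 (4 : Fin 5) i.succ).succ) 4
      (Equiv.swap 0 (4 : Fin 6) (4 : Fin 5).succ) = G W d ![0, 1, 2, 3] 4 5 := by
  have e : Equiv.swap 0 (4 : Fin 6) (4 : Fin 5).succ = 5 := by decide
  rw [e]
  exact G_congr W d _ _ _ _ ⟨⟨![2, 3, 0, 1], ![2, 3, 0, 1], by decide, by decide⟩, by decide⟩

lemma hc50 (W : ℕ → ℕ → ℕ → ℕ → ℤ) (d : Fin 6 → Fin 6 → ℕ) :
    G W d (fun i => Equiv.swap 0 (5 : Fin 6) (Equiv.swap 0 (0 : Fin 5) i.succ).succ) 5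
      (Equiv.swap 0 (5 : Fin 6) (0 : Fin 5).succ) = G W d ![0, 2, 3, 4] 5 1 := by
  have e : Equiv.swap 0 (5 : Fin 6) (0 : Fin 5).succ = 1 := by decide
  rw [e]
  exact G_congr W d _ _ _ _ ⟨⟨![1, 2, 3, 0], ![3, 0, 1, 2], by decide, by decide⟩, by decide⟩

lemma hc51 (W : ℕ → ℕ → ℕ → ℕ → ℤ) (d : Fin 6 → Fin 6 → ℕ) :
    G W d (fun i => Equiv.swap 0 (5 : Fin 6) (Equiv.swap 0 (1 : Fin 5) i.succ).succ) 5
      (Equiv.swap 0 (5 : Fin 6) (1 : Fin 5).succ) = G W d ![0, 1, 3, 4] 5 2 := by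
  have e : Equiv.swap 0 (5 : Fin 6) (1 : Fin 5).succ = 2 := by decide
  rw [e]
  exact G_congr W d _ _ _ _ ⟨⟨![1, 2, 3, 0], ![3, 0, 1, 2], by decide, by decide⟩, by decide⟩

lemma hc52 (W : ℕ → ℕ → ℕ → ℕ → ℤ) (d : Fin 6 → Fin 6 → ℕ) :
    G W d (fun i => Equiv.swap 0 (5 : Fin 6) (Equiv.swap 0 (2 : Fin 5) i.succ).succ) 5
      (Equiv.swap 0 (5 : Fin 6) (2 : Fin 5).succ) = G W d ![0, 1, 2, 4] 5 3 := by
  have e : Equiv.swap 0 (5 : Fin 6) (2 : Fin 5).succ = 3 := by decide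
  rw [e]
  exact G_congr W d _ _ _ _ ⟨⟨![2, 1, 3, 0], ![3, 1, 0, 2], by decide, by decide⟩, by decide⟩

lemma hc53 (W : ℕ → ℕ → ℕ → ℕ → ℤ) (d : Fin 6 → Fin 6 → ℕ) :
    G W d (fun i => Equiv.swap 0 (5 : Fin 6) (Equiv.swap 0 (3 : Fin 5) i.succ).succ) 5
      (Equiv.swap 0 (5 : Fin 6) (3 : Fin 5).succ) = G W d ![0, 1, 2, 3] 5 4 := by
  have e : Equiv.swap 0 (5 : Fin 6) (3 : Fin 5).succ = 4 := by decide
  rw [e]
  exact G_congr W d _ _ _ _ ⟨⟨![2, 3, 1, 0], ![3, 2, 0, 1], by decide, by decide⟩, by decide⟩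

lemma hc54 (W : ℕ → ℕ → ℕ → ℕ → ℤ) (d : Fin 6 → Fin 6 → ℕ) :
    G W d (fun i => Equiv.swap 0 (5 : Fin 6) (Equiv.swap 0 (4 : Fin 5) i.succ).succ) 5
      (Equiv.swap 0 (5 : Fin 6) (4 : Fin 5).succ) = G W d ![1, 2, 3, 4] 5 0 := by
  have e : Equiv.swap 0 (5 : Fin 6) (4 : Fin 5).succ = 0 := by decide
  rw [e]
  exact G_congr W d _ _ _ _ ⟨⟨![1, 2, 3, 0], ![3, 0, 1, 2], by decide, by decide⟩, by decide⟩

theorem T6_eq (W : ℕ → ℕ → ℕ → ℕ → ℤ) (d : Fin 6 → Fin 6 → ℕ) :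
    T6 W d =
      GG W d 2 3 4 5 0 1 +
      GG W d 1 3 4 5 0 2 +
      GG W d 0 3 4 5 1 2 +
      GG W d 1 2 4 5 0 3 +
      GG W d 0 2 4 5 1 3 +
      GG W d 0 1 4 5 2 3 +
      GG W d 1 2 3 5 0 4 +
      GG W d 0 2 3 5 1 4 +
      GG W d 0 1 3 5 2 4 +
      GG W d 0 1 2 5 3 4 +
      GG W d 1 2 3 4 0 5 +
      GG W d 0 2 3 4 1 5 +
      GG W d 0 1 3 4 2 5 +
      GG W d 0 1 2 4 3 5 +
      GG W d 0 1 2 3 4 5 := by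
  rw [T6_decomp]
  rw [Fin.sum_univ_six]
  simp only [Fin.sum_univ_five]
  rw [hc00, hc01, hc02, hc03, hc04, hc10, hc11, hc12, hc13, hc14, hc20, hc21, hc22, hc23, hc24, hc30, hc31, hc32, hc33, hc34, hc40, hc41, hc42, hc43, hc44, hc50, hc51, hc52, hc53, hc54]
  simp only [GG]
  ring

end Pool.Agent.CH6
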