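import Pool.Agent.Helper93_CH6.Tab6

/-!
Kernel evaluation of the six-vertex check.
-/

set_option autoImplicit false

namespace Pool.Agent.CH6

open Pool.Agent.CH

/-- evaluate the first argument, then continue -/
noncomputable def lit (e : ℕ) (k : ℕ → ℕ) : ℕ :=
  Nat.rec (motive := fun _ => ℕ) (k 0) (fun n _ => k n) (Nat.succ e)

theorem lit_eq (e : ℕ) (k : ℕ → ℕ) : lit e k = k e := rfl

/-- evaluate the first argument, then continue -/
noncomputable def litB (e : ℕ) (k : ℕ → Bool) : Bool :=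
  Nat.rec (motive := fun _ => Bool) (k 0) (fun n _ => k n) (Nat.succ e)

theorem litB_eq (e : ℕ) (k : ℕ → Bool) : litB e k = k e := rfl

/-- the code of three digits -/
def cd3 (a b c : ℕ) : ℕ := Nat.add a (Nat.add (Nat.mul 3 b) (Nat.mul 9 c))

/-- the code of four digits -/
def cd4 (a b c d : ℕ) : ℕ := Nat.add (cd3 a b c) (Nat.mul 27 d)

/-- the code of six digits -/
def cd6 (a b c d e f : ℕ) : ℕ := Nat.add (cd3 a b c) (Nat.mul 27 (cd3 d e f))

/-- the inverse relation -/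
def iv (a : ℕ) : ℕ := Nat.mod (Nat.sub 3 a) 3

/-- index of the representative and of the permutation of a code -/
def ie (c : ℕ) : ℕ := Nat.mod (Nat.shiftRight IEL (Nat.mul 16 c)) 65536

/-- the table of a permutation -/
def pt (s : ℕ) : ℕ := Nat.mod (Nat.shiftRight PTL (Nat.mul 648 s)) (Nat.shiftLeft 1 648)

/-- permuted profile -/
def pp (T f : ℕ) : ℕ := Nat.mod (Nat.shiftRight T (Nat.mul 8 f)) 256

/-- number of nonidentity automorphisms -/
def an (i : ℕ) : ℕ := Nat.mod (Nat.shiftRight ANL (Nat.mul 8 i)) 256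

/-- nonidentity automorphisms -/
def au (i k : ℕ) : ℕ := Nat.mod (Nat.shiftRight AUL (Nat.mul 8 (Nat.add (Nat.mul 32 i) k))) 256

/-- the triangle code is a directed triangle -/
def bad (a b c : ℕ) : Bool := Nat.beq (cd3 a b c) 22 || Nat.beq (cd3 a b c) 17

/-- all digits -/
def all3 (p : ℕ → Bool) : Bool := p 0 && (p 1 && p 2)

/-- the fifteen pair values -/
def tot6 (P : ℕ → ℕ → ℕ → ℕ → ℕ) (a01 a02 a12 a03 a13 a23 a04 a14 a24 a34
    a05 a15 a25 a35 a45 : ℕ) : ℕ :=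
  Nat.add (P (cd6 a23 a24 a34 a25 a35 a45)
    (cd4 (iv a02) (iv a03) (iv a04) (iv a05)) (cd4 (iv a12) (iv a13) (iv a14) (iv a15)) a01)
  (Nat.add (P (cd6 a13 a14 a34 a15 a35 a45)
    (cd4 (iv a01) (iv a03) (iv a04) (iv a05)) (cd4 a12 (iv a23) (iv a24) (iv a25)) a02)
  (Nat.add (P (cd6 a03 a04 a34 a05 a35 a45)
    (cd4 a01 (iv a13) (iv a14) (iv a15)) (cd4 a02 (iv a23) (iv a24) (iv a25)) a12)
  (Nat.add (P (cd6 a12 a14 a24 a15 a25 a45)
    (cd4 (iv a01) (iv a02) (iv a04) (iv a05)) (cd4 a13 a23 (iv a34) (iv a35)) a03)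
  (Nat.add (P (cd6 a02 a04 a24 a05 a25 a45)
    (cd4 a01 (iv a12) (iv a14) (iv a15)) (cd4 a03 a23 (iv a34) (iv a35)) a13)
  (Nat.add (P (cd6 a01 a04 a14 a05 a15 a45)
    (cd4 a02 a12 (iv a24) (iv a25)) (cd4 a03 a13 (iv a34) (iv a35)) a23)
  (Nat.add (P (cd6 a12 a13 a23 a15 a25 a35)
    (cd4 (iv a01) (iv a02) (iv a03) (iv a05)) (cd4 a14 a24 a34 (iv a45)) a04)
  (Nat.add (P (cd6 a02 a03 a23 a05 a25 a35)
    (cd4 a01 (iv a12) (iv a13) (iv a15)) (cd4 a04 a24 a34 (iv a45)) a14)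
  (Nat.add (P (cd6 a01 a03 a13 a05 a15 a35)
    (cd4 a02 a12 (iv a23) (iv a25)) (cd4 a04 a14 a34 (iv a45)) a24)
  (Nat.add (P (cd6 a01 a02 a12 a05 a15 a25)
    (cd4 a03 a13 a23 (iv a35)) (cd4 a04 a14 a24 (iv a45)) a34)
  (Nat.add (P (cd6 a12 a13 a23 a14 a24 a34)
    (cd4 (iv a01) (iv a02) (iv a03) (iv a04)) (cd4 a15 a25 a35 a45) a05)
  (Nat.add (P (cd6 a02 a03 a23 a04 a24 a34)
    (cd4 a01 (iv a12) (iv a13) (iv a14)) (cd4 a05 a25 a35 a45) a15)
  (Nat.add (P (cd6 a01 a03 a13 a04 a14 a34)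
    (cd4 a02 a12 (iv a23) (iv a24)) (cd4 a05 a15 a35 a45) a25)
  (Nat.add (P (cd6 a01 a02 a12 a04 a14 a24)
    (cd4 a03 a13 a23 (iv a34)) (cd4 a05 a15 a25 a45) a35)
  (P (cd6 a01 a02 a12 a03 a13 a23)
    (cd4 a04 a14 a24 a34) (cd4 a05 a15 a25 a35) a45))))))))))))))

/-- the check for a configuration on five points -/
def chk5 (F : ℕ → ℕ → ℕ → ℕ → ℕ → Bool) (a01 a02 a12 a03 a13 a23 a04 a14 a24 a34 : ℕ) : Bool :=
  all3 (fun a05 => all3 (fun a15 => bad a01 a15 a05 ||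
  all3 (fun a25 => bad a02 a25 a05 || (bad a12 a25 a15 ||
  all3 (fun a35 => bad a03 a35 a05 || (bad a13 a35 a15 || (bad a23 a35 a25 ||
  all3 (fun a45 => bad a04 a45 a05 || (bad a14 a45 a15 || (bad a24 a45 a25 || (bad a34 a45 a35 ||
    F a05 a15 a25 a35 a45)))))))))))

/-- digit of the code of a configuration on five points -/
def pd (p m : ℕ) : ℕ := Nat.mod (Nat.div p m) 3

/-- the check for a code -/
noncomputable def chk (F : ℕ → ℕ → ℕ → ℕ → ℕ → ℕ → ℕ → ℕ → ℕ → ℕ → ℕ → ℕ → ℕ → ℕ → ℕ → Bool)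
    (p : ℕ) : Bool :=
  litB (pd p 1) fun a01 => litB (pd p 3) fun a02 => litB (pd p 9) fun a12 =>
  litB (pd p 27) fun a03 => litB (pd p 81) fun a13 => litB (pd p 243) fun a23 =>
  litB (pd p 729) fun a04 => litB (pd p 2187) fun a14 => litB (pd p 6561) fun a24 =>
  litB (pd p 19683) fun a34 =>
    chk5 (F a01 a02 a12 a03 a13 a23 a04 a14 a24 a34) a01 a02 a12 a03 a13 a23 a04 a14 a24 a34

/-- all codes of a list -/
noncomputable def chkL (F : ℕ → ℕ → ℕ → ℕ → ℕ → ℕ → ℕ → ℕ → ℕ → ℕ → ℕ → ℕ → ℕ → ℕ → ℕ → Bool)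
    (l : List ℕ) : Bool :=
  List.rec (motive := fun _ => Bool) true (fun p _ ih => chk F p && ih) l

section Spec

theorem all3_spec {p : ℕ → Bool} (h : all3 p = true) {i : ℕ} (hi : i < 3) : p i = true := by
  unfold all3 at h
  rw [Bool.and_eq_true, Bool.and_eq_true] at h
  obtain ⟨h0, h1, h2⟩ := h
  have : i = 0 ∨ i = 1 ∨ i = 2 := by omega
  rcases this with rfl | rfl | rfl
  · exact h0
  · exact h1
  · exact h2

theorem iv_eq {a : ℕ} (h : a < 3) : iv a = inv a := by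
  have : a = 0 ∨ a = 1 ∨ a = 2 := by omega
  rcases this with rfl | rfl | rfl <;> rfl

theorem cd3_eq (a b c : ℕ) : cd3 a b c = a + 3 * b + 9 * c := by
  show a + (3 * b + 9 * c) = _
  omega

theorem cd4_eq (a b c d : ℕ) : cd4 a b c d = a + 3 * b + 9 * c + 27 * d := by
  show cd3 a b c + 27 * d = _
  rw [cd3_eq]

theorem cd6_eq (a b c d e f : ℕ) :
    cd6 a b c d e f = a + 3 * b + 9 * c + 27 * d + 81 * e + 243 * f := by
  show cd3 a b c + 27 * cd3 d e f = _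
  rw [cd3_eq, cd3_eq]
  omega

theorem not_bad {a b c : ℕ} (ha : a < 3) (hb : b < 3) (hc : c < 3) (h : okT a b c) :
    bad a b c = false := by
  unfold bad
  rw [Bool.or_eq_false_iff, Bool.eq_false_iff, Bool.eq_false_iff]
  obtain ⟨h1, h2⟩ := h
  constructor
  · intro h3
    have h4 := Nat.eq_of_beq_eq_true h3
    rw [cd3_eq] at h4
    apply h1
    omega
  · intro h3
    have h4 := Nat.eq_of_beq_eq_true h3
    rw [cd3_eq] at h4
    apply h2
    omega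

theorem chk5_spec {F : ℕ → ℕ → ℕ → ℕ → ℕ → Bool} {d : Fin 6 → Fin 6 → ℕ} (hd : Cfg d)
    (h1 : chk5 F (d 0 1) (d 0 2) (d 1 2) (d 0 3) (d 1 3) (d 2 3) (d 0 4) (d 1 4) (d 2 4) (d 3 4)
      = true) : F (d 0 5) (d 1 5) (d 2 5) (d 3 5) (d 4 5) = true := by
  have lt := hd.lt
  have ok := hd.ok
  unfold chk5 at h1
  have h2 := all3_spec (all3_spec h1 (lt 0 5)) (lt 1 5)
  rw [not_bad (lt _ _) (lt _ _) (lt _ _) (ok 0 1 5), Bool.false_or] at h2
  have h3 := all3_spec h2 (lt 2 5)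
  rw [not_bad (lt _ _) (lt _ _) (lt _ _) (ok 0 2 5), Bool.false_or,
    not_bad (lt _ _) (lt _ _) (lt _ _) (ok 1 2 5), Bool.false_or] at h3
  have h4 := all3_spec h3 (lt 3 5)
  rw [not_bad (lt _ _) (lt _ _) (lt _ _) (ok 0 3 5), Bool.false_or,
    not_bad (lt _ _) (lt _ _) (lt _ _) (ok 1 3 5), Bool.false_or,
    not_bad (lt _ _) (lt _ _) (lt _ _) (ok 2 3 5), Bool.false_or] at h4
  have h5 := all3_spec h4 (lt 4 5)
  rw [not_bad (lt _ _) (lt _ _) (lt _ _) (ok 0 4 5), Bool.false_or,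
    not_bad (lt _ _) (lt _ _) (lt _ _) (ok 1 4 5), Bool.false_or,
    not_bad (lt _ _) (lt _ _) (lt _ _) (ok 2 4 5), Bool.false_or,
    not_bad (lt _ _) (lt _ _) (lt _ _) (ok 3 4 5), Bool.false_or] at h5
  exact h5

theorem chk_spec {F : ℕ → ℕ → ℕ → ℕ → ℕ → ℕ → ℕ → ℕ → ℕ → ℕ → ℕ → ℕ → ℕ → ℕ → ℕ → Bool}
    {d : Fin 6 → Fin 6 → ℕ} (hd : Cfg d)
    (h : chk F (code4 (fun i j => d (c46 i) (c46 j)) + 729 * prof4 (fun i => d (c46 i) 4))
      = true) :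
    F (d 0 1) (d 0 2) (d 1 2) (d 0 3) (d 1 3) (d 2 3) (d 0 4) (d 1 4) (d 2 4) (d 3 4)
      (d 0 5) (d 1 5) (d 2 5) (d 3 5) (d 4 5) = true := by
  have lt := hd.lt
  have e : code4 (fun i j => d (c46 i) (c46 j)) + 729 * prof4 (fun i => d (c46 i) 4) =
      d 0 1 + 3 * d 0 2 + 9 * d 1 2 + 27 * d 0 3 + 81 * d 1 3 + 243 * d 2 3 +
      729 * (d 0 4 + 3 * d 1 4 + 9 * d 2 4 + 27 * d 3 4) := rfl
  rw [e] at h
  unfold chk at h
  simp only [litB_eq] at h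
  have l1 := lt 0 1
  have l2 := lt 0 2
  have l3 := lt 1 2
  have l4 := lt 0 3
  have l5 := lt 1 3
  have l6 := lt 2 3
  have l7 := lt 0 4
  have l8 := lt 1 4
  have l9 := lt 2 4
  have l10 := lt 3 4
  generalize hp : d 0 1 + 3 * d 0 2 + 9 * d 1 2 + 27 * d 0 3 + 81 * d 1 3 + 243 * d 2 3 +
      729 * (d 0 4 + 3 * d 1 4 + 9 * d 2 4 + 27 * d 3 4) = p at h
  have e1 : pd p 1 = d 0 1 := by show p / 1 % 3 = _; omega
  have e2 : pd p 3 = d 0 2 := by show p / 3 % 3 = _; omega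
  have e3 : pd p 9 = d 1 2 := by show p / 9 % 3 = _; omega
  have e4 : pd p 27 = d 0 3 := by show p / 27 % 3 = _; omega
  have e5 : pd p 81 = d 1 3 := by show p / 81 % 3 = _; omega
  have e6 : pd p 243 = d 2 3 := by show p / 243 % 3 = _; omega
  have e7 : pd p 729 = d 0 4 := by show p / 729 % 3 = _; omega
  have e8 : pd p 2187 = d 1 4 := by show p / 2187 % 3 = _; omega
  have e9 : pd p 6561 = d 2 4 := by show p / 6561 % 3 = _; omega
  have e10 : pd p 19683 = d 3 4 := by show p / 19683 % 3 = _; omega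
  rw [e1, e2, e3, e4, e5, e6, e7, e8, e9, e10] at h
  exact chk5_spec hd h

theorem chkL_spec {F : ℕ → ℕ → ℕ → ℕ → ℕ → ℕ → ℕ → ℕ → ℕ → ℕ → ℕ → ℕ → ℕ → ℕ → ℕ → Bool}
    {l : List ℕ} (h : chkL F l = true) : ∀ p ∈ l, chk F p = true := by
  induction l with
  | nil => intro p hp; simp at hp
  | cons a l ih =>
    have h' : (chk F a && chkL F l) = true := h
    rw [Bool.and_eq_true] at h'
    intro p hp
    rcases List.mem_cons.1 hp with rfl | hp
    · exact h'.1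
    · exact ih h'.2 p hp

end Spec

end Pool.Agent.CH6
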