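import Pool.Agent.Helper93_CH6.Pos6
import Pool.Agent.Helper93_CH.Hered
import Pool.Agent.Helper93_CH.Motz

/-!
From six-vertex certificate data to theorems about digraphs.
-/

set_option autoImplicit false

namespace Pool.Agent.CH6

open Pool.Agent.CH

/-- every configuration on four points has a representative -/
def Comp4 (R4 : ℕ → Prop) : Prop :=
  ∀ d : Fin 4 → Fin 4 → ℕ, Cfg d →
    ∃ σ : Equiv.Perm (Fin 4), R4 (code4 (fun i j => d (σ i) (σ j)))

/-- every configuration on five points whose first four points form a representative has a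
representative -/
def Comp5 (R4 : ℕ → Prop) (R5 : ℕ → ℕ → Prop) : Prop :=
  ∀ d : Fin 5 → Fin 5 → ℕ, Cfg d → R4 (code4 (fun i j => d (c45 i) (c45 j))) →
    ∃ π : Equiv.Perm (Fin 5), R5 (code4 (fun i j => d (π (c45 i)) (π (c45 j))))
      (prof4 (fun i => d (π (c45 i)) (π 4)))

/-- the symmetrised value is negative on all configurations over the representatives on five
points -/
def Neg6 (W : ℕ → ℕ → ℕ → ℕ → ℤ) (R5 : ℕ → ℕ → Prop) : Prop :=
  ∀ d : Fin 6 → Fin 6 → ℕ, Cfg d →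
    R5 (code4 (fun i j => d (c46 i) (c46 j))) (prof4 (fun i => d (c46 i) 4)) → T6 W d < 0

/-- certificate with heredity rows: all digraphs -/
theorem all_of_cert6 (C D : ℕ) (L : ℕ → List (ℕ → ℤ)) (m : ℕ → ℕ → Fin 5 → ℕ)
    (lh : ℕ → ℕ → List (ℕ × Fin 5 × ℕ)) (X : ℕ → ℕ → ℕ → ℕ → ℤ) (W : ℕ → ℕ → ℕ → ℕ → ℤ)
    (R4 : ℕ → Prop) (R5 : ℕ → ℕ → Prop) (c4 : Comp4 R4) (c5 : Comp5 R4 R5)
    (hX : ∀ (V : Type) [Fintype V] [DecidableEq V] [Nonempty V] (E : V → V → Prop)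
      [DecidableRel E], (∀ u v, E u v → ¬ E v u) → (∀ u v w, E u v → E v w → ¬ E w u) →
      (∀ u : V, C * Fintype.card V ≤ D * (Finset.univ.filter (fun v => E u v)).card) →
      Hered E C D → ∀ x : Fin 4 → V, R4 (code4 (fun i j => rel E (x i) (x j))) →
      0 ≤ ∑ a : V, ∑ b : V, X (code4 (fun i j => rel E (x i) (x j)))
        (prof4 (fun i => rel E (x i) a)) (prof4 (fun i => rel E (x i) b)) (rel E a b))
    (F0 : ∀ t f g r, ¬ R4 t → W t f g r = 0)
    (F1 : ∀ t f g r, R4 t → f < 81 → g < 81 → r < 3 →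
      Wval6 C D (L t) (m t) (lh t) (X t) f g r +
        Wval6 C D (L t) (m t) (lh t) (X t) g f (inv r) ≤ W t f g r)
    (F2 : Neg6 W R5)
    (F4 : ∀ t f, R4 t → f < 81 → ∀ q ∈ lh t f, okz6 t f q.1 q.2.1)
    (V : Type) [Fintype V] [DecidableEq V] [Nonempty V] (E : V → V → Prop) [DecidableRel E]
    (hE : ∀ u v, E u v → ¬ E v u) (h3 : ∀ u v w, E u v → E v w → ¬ E w u) :
    ∃ u : V, D * (Finset.univ.filter (fun v => E u v)).card < C * Fintype.card V := by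
  refine induct C D ?_ (Fintype.card V) V E rfl hE h3
  intro V _ _ _ E _ hE h3 hdeg hH
  refine core6 E hE h3 W (fun x => ?_) R4 R5 c4 c5 F2
  by_cases ht : R4 (code4 (fun i j => rel E (x i) (x j)))
  · exact pos6 E hE C D hdeg x (L _) (m _) (lh _) (X _)
      (fun f hf q hq => ⟨hH, F4 _ f ht hf q hq⟩) (hX V E hE h3 hdeg hH x ht) _
      (fun f g r hf hg hr => F1 _ f g r ht hf hg hr)
  · simp only [fun f g r => F0 (code4 (fun i j => rel E (x i) (x j))) f g r ht]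
    simp

/-- the case without further rows -/
theorem all_of_cert6' (C D : ℕ) (L : ℕ → List (ℕ → ℤ)) (m : ℕ → ℕ → Fin 5 → ℕ)
    (lh : ℕ → ℕ → List (ℕ × Fin 5 × ℕ)) (W : ℕ → ℕ → ℕ → ℕ → ℤ)
    (R4 : ℕ → Prop) (R5 : ℕ → ℕ → Prop) (c4 : Comp4 R4) (c5 : Comp5 R4 R5)
    (F0 : ∀ t f g r, ¬ R4 t → W t f g r = 0)
    (F1 : ∀ t f g r, R4 t → f < 81 → g < 81 → r < 3 →
      Wval6 C D (L t) (m t) (lh t) (fun _ _ _ => 0) f g r +
        Wval6 C D (L t) (m t) (lh t) (fun _ _ _ => 0) g f (inv r) ≤ W t f g r)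
    (F2 : Neg6 W R5)
    (F4 : ∀ t f, R4 t → f < 81 → ∀ q ∈ lh t f, okz6 t f q.1 q.2.1)
    (V : Type) [Fintype V] [DecidableEq V] [Nonempty V] (E : V → V → Prop) [DecidableRel E]
    (hE : ∀ u v, E u v → ¬ E v u) (h3 : ∀ u v w, E u v → E v w → ¬ E w u) :
    ∃ u : V, D * (Finset.univ.filter (fun v => E u v)).card < C * Fintype.card V :=
  all_of_cert6 C D L m lh (fun _ _ _ _ => 0) W R4 R5 c4 c5
    (fun V _ _ _ E _ _ _ _ _ x _ => by simp) F0 F1 F2 F4 V E hE h3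

end Pool.Agent.CH6
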