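import Pool.Agent.Helper93_CH6.Sound6

/-!
The theorem for general certificates with packed data.
-/

set_option autoImplicit false

namespace Pool.Agent.CH6

open Pool.Agent.CH

section Rows

/-- pattern of a kind: `k < 5` degree row of root `k`, `k = 8 + mask` heredity row -/
noncomputable def patK (C D k : ℕ) : ℕ :=
  Bool.rec (motive := fun _ => ℕ) (patL C D (Nat.sub k 8)) (patD D k) (Nat.ble k 4)

/-- a row from its kind and its weights -/
noncomputable def mkrow (C D : ℕ) (q : ℕ × ℕ) : ℕ × ℕ × ℕ :=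
  (q.2, lit q.1 (fun k => patK C D k), C)

/-- rows from kinds and weights -/
noncomputable def mapR (C D : ℕ) (l : List (ℕ × ℕ)) : List (ℕ × ℕ × ℕ) :=
  List.rec (motive := fun _ => List (ℕ × ℕ × ℕ)) [] (fun q _ ih => mkrow C D q :: ih) l

/-- weights of a heredity row are supported on profiles with a dominated root -/
noncomputable def okw (t α mask n : ℕ) : Bool :=
  Nat.rec (motive := fun _ => Bool) true
    (fun f ih => (Nat.beq (vd α f) 0 || zok t f mask) && ih) n

/-- check of the kinds -/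
noncomputable def okQ (t : ℕ) (l : List (ℕ × ℕ)) : Bool :=
  List.rec (motive := fun _ => Bool) true (fun q _ ih => (Nat.ble q.1 4 ||
    (Nat.ble 9 q.1 && (Nat.ble q.1 39 && okw t q.2 (Nat.sub q.1 8) 81))) && ih) l

lemma okw_spec (t α mask n : ℕ) (h : okw t α mask n = true) (f : ℕ) (hf : f < n) :
    vd α f = 0 ∨ ∃ z : Fin 5, okz6 t f mask z := by
  induction n with
  | zero => omega
  | succ n ih =>
    have h' : ((Nat.beq (vd α n) 0 || zok t n mask) && okw t α mask n) = true := h
    rw [Bool.and_eq_true, Bool.or_eq_true] at h'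
    by_cases hn : f = n
    · subst hn
      rcases h'.1 with h1 | h1
      · left; exact Nat.eq_of_beq_eq_true h1
      · right; exact zok_spec _ _ _ h1
    · exact ih h'.2 (by omega)

/-- a good kind -/
def goodQ (t : ℕ) (q : ℕ × ℕ) : Prop :=
  q.1 ≤ 4 ∨ (9 ≤ q.1 ∧ q.1 ≤ 39 ∧ ∀ f, f < 81 → vd q.2 f = 0 ∨
    ∃ z : Fin 5, okz6 t f (q.1 - 8) z)

lemma okQ_spec (t : ℕ) (l : List (ℕ × ℕ)) (h : okQ t l = true) : ∀ q ∈ l, goodQ t q := by
  induction l with
  | nil => intro q hq; simp at hq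
  | cons a l ih =>
    have h' : ((Nat.ble a.1 4 || (Nat.ble 9 a.1 && (Nat.ble a.1 39 &&
      okw t a.2 (Nat.sub a.1 8) 81))) && okQ t l) = true := h
    rw [Bool.and_eq_true, Bool.or_eq_true, Bool.and_eq_true, Bool.and_eq_true] at h'
    intro q hq
    rcases List.mem_cons.1 hq with rfl | hq
    · rcases h'.1 with h1 | ⟨h1, h2, h3⟩
      · left; exact Nat.le_of_ble_eq_true h1
      · right
        exact ⟨Nat.le_of_ble_eq_true h1, Nat.le_of_ble_eq_true h2, fun f hf =>
          okw_spec t q.2 (q.1 - 8) 81 h3 f hf⟩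
    · exact ih h'.2 q hq

lemma mem_mapR (C D : ℕ) (l : List (ℕ × ℕ)) (ρ : ℕ × ℕ × ℕ) (h : ρ ∈ mapR C D l) :
    ∃ q ∈ l, ρ = (q.2, patK C D q.1, C) := by
  induction l with
  | nil =>
    have : mapR C D [] = [] := rfl
    rw [this] at h
    simp at h
  | cons a l ih =>
    have h' : mapR C D (a :: l) = mkrow C D a :: mapR C D l := rfl
    rw [h'] at h
    rcases List.mem_cons.1 h with h1 | h1
    · refine ⟨a, by simp, ?_⟩
      rw [h1]
      unfold mkrow
      rw [lit_eq]
    · obtain ⟨q, hq, h2⟩ := ih h1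
      exact ⟨q, by simp [hq], h2⟩

variable {V : Type*} [Fintype V] [DecidableEq V]

lemma patK_deg (C D k : ℕ) (hk : k ≤ 4) : patK C D k = patD D k := by
  unfold patK
  have : Nat.ble k 4 = true := Nat.ble_eq_true_of_le hk
  rw [this]

lemma patK_lh (C D k : ℕ) (hk : 9 ≤ k) : patK C D k = patL C D (k - 8) := by
  unfold patK
  have : Nat.ble k 4 = false := by
    rw [Bool.eq_false_iff]
    intro h
    have := Nat.le_of_ble_eq_true h
    omega
  rw [this]
  rfl

/-- degree rows and heredity rows are sound -/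
theorem RS_row (E : V → V → Prop) [DecidableRel E] (hE : ∀ u v, E u v → ¬ E v u) (C D : ℕ)
    (hC : C < 65536) (hD : D < 65536)
    (hdeg : ∀ u : V, C * Fintype.card V ≤ D * (Finset.univ.filter (fun v => E u v)).card)
    (hH : Hered E C D) (x : Fin 4 → V) (q : ℕ × ℕ)
    (hq : goodQ (code4 (fun i j => rel E (x i) (x j))) q) :
    0 ≤ RS E x (q.2, patK C D q.1, C) := by
  unfold RS
  simp only
  have hidx : ∀ a b : V, 81 * rel E a b + prof4 (fun i => rel E (x i) b) < 243 ∧
      (81 * rel E a b + prof4 (fun i => rel E (x i) b)) % 81 = prof4 (fun i => rel E (x i) b) ∧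
      (81 * rel E a b + prof4 (fun i => rel E (x i) b)) / 81 = rel E a b := by
    intro a b
    have h1 := rel_lt E a b
    have h2 := prof_lt (fun i => rel E (x i) b) (fun i => rel_lt E _ _)
    omega
  refine Finset.sum_nonneg (fun a _ => ?_)
  rw [← Finset.mul_sum]
  rcases hq with hk | ⟨hk1, hk2, hw⟩
  · refine mul_nonneg (by positivity) ?_
    rw [patK_deg C D q.1 hk]
    have hj : q.1 < 5 := by omega
    have hv : ∀ b, (vd (patD D q.1) (81 * rel E a b + prof4 (fun i => rel E (x i) b)) : ℤ) - C =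
        deg6 C D (fun i => if i = ⟨q.1, hj⟩ then 1 else 0) (prof4 (fun i => rel E (x i) b))
          (rel E a b) := by
      intro b
      obtain ⟨h1, h2, h3⟩ := hidx a b
      have h4 := vd_patD D hD ⟨q.1, hj⟩ _ h1
      rw [h2, h3] at h4
      have h5 : vd (patD D q.1) (81 * rel E a b + prof4 (fun i => rel E (x i) b)) = _ := h4
      rw [h5]
      unfold deg6
      rw [Finset.sum_eq_single (⟨q.1, hj⟩ : Fin 5)]
      · beta_reduce
        rw [if_pos rfl]
        unfold bit1
        push_cast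
        ring
      · intro i _ hi
        beta_reduce
        rw [if_neg hi]
        simp
      · intro h; exact absurd (Finset.mem_univ _) h
    rw [Finset.sum_congr rfl (fun b _ => hv b)]
    exact deg6_nonneg E C D hdeg x a _
  · rcases hw _ (prof_lt (fun i => rel E (x i) a) (fun i => rel_lt E _ _)) with h0 | ⟨z, hz⟩
    · rw [h0]
      simp
    · refine mul_nonneg (by positivity) ?_
      rw [patK_lh C D q.1 hk1]
      have hv : ∀ b, (vd (patL C D (q.1 - 8)) (81 * rel E a b +
          prof4 (fun i => rel E (x i) b)) : ℤ) - C =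
          lh6 C D (q.1 - 8) (prof4 (fun i => rel E (x i) b)) (rel E a b) := by
        intro b
        obtain ⟨h1, h2, h3⟩ := hidx a b
        have h4 := vd_patL C D hC hD (q.1 - 8) (by omega) (by omega) _ h1
        rw [h2, h3] at h4
        rw [h4]
        ring
      rw [Finset.sum_congr rfl (fun b _ => hv b)]
      exact lh6_nonneg E hE C D hH x a (q.1 - 8) z hz

end Rows

section Core

/-- reduction to representatives for an invariant function -/
theorem core6G {V : Type*} (E : V → V → Prop) [DecidableRel E]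
    (hE : ∀ u v, E u v → ¬ E v u) (h3 : ∀ u v w, E u v → E v w → ¬ E w u)
    (T : (Fin 6 → Fin 6 → ℕ) → ℤ)
    (hT : ∀ d (ρ : Equiv.Perm (Fin 6)), T (fun i j => d (ρ i) (ρ j)) = T d)
    (hx : ∃ x : Fin 6 → V, 0 ≤ T (fun i j => rel E (x i) (x j)))
    (R4 : ℕ → Prop) (R5 : ℕ → ℕ → Prop) (c4 : Comp4 R4) (c5 : Comp5 R4 R5)
    (hneg : ∀ d : Fin 6 → Fin 6 → ℕ, Cfg d →
      R5 (code4 (fun i j => d (c46 i) (c46 j))) (prof4 (fun i => d (c46 i) 4)) → T d < 0) :
    False := by
  obtain ⟨x, hx⟩ := hx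
  have hc := cfg_rel E hE h3 x
  generalize (fun i j => rel E (x i) (x j)) = d at hx hc
  obtain ⟨σ, hσ⟩ := c4 (fun i j => d (c46 i) (c46 j)) (hc.comp c46)
  have h1 : ∀ i : Fin 4, (ext σ : Equiv.Perm (Fin (4 + 2))) (c46 i) = c46 (σ i) :=
    fun i => ext_castAdd σ i
  have hx1 := hx
  rw [← hT d (ext σ : Equiv.Perm (Fin (4 + 2)))] at hx1
  have hc1 := hc.comp (ext σ : Equiv.Perm (Fin (4 + 2)))
  have hR1 : R4 (code4 (fun i j => d ((ext σ : Equiv.Perm (Fin (4 + 2))) (c46 i))
      ((ext σ : Equiv.Perm (Fin (4 + 2))) (c46 j)))) := by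
    simp only [h1]
    exact hσ
  generalize hd1 : (fun i j => d ((ext σ : Equiv.Perm (Fin (4 + 2))) i)
    ((ext σ : Equiv.Perm (Fin (4 + 2))) j)) = d1 at hx1 hc1
  have hR1' : R4 (code4 (fun i j => d1 (c46 i) (c46 j))) := by
    rw [← hd1]; exact hR1
  obtain ⟨π, hπ⟩ := c5 (fun i j => d1 (c56 i) (c56 j)) (hc1.comp c56) hR1'
  have h2 : ∀ i : Fin 5, (ext π : Equiv.Perm (Fin (5 + 1))) (c56 i) = c56 (π i) :=
    fun i => ext_castAdd π i
  have hx2 := hx1
  rw [← hT d1 (ext π : Equiv.Perm (Fin (5 + 1)))] at hx2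
  have hc2 := hc1.comp (ext π : Equiv.Perm (Fin (5 + 1)))
  have h4 : (4 : Fin 6) = c56 4 := rfl
  have := hneg (fun i j => d1 ((ext π : Equiv.Perm (Fin (5 + 1))) i)
    ((ext π : Equiv.Perm (Fin (5 + 1))) j)) hc2 (by
      have e1 : ∀ i : Fin 4, (ext π : Equiv.Perm (Fin (5 + 1))) (c46 i) = c56 (π (c45 i)) :=
        fun i => h2 (c45 i)
      have e2 : (ext π : Equiv.Perm (Fin (5 + 1))) 4 = c56 (π 4) := h2 4
      simp only [e1, e2]
      exact hπ)
  exact absurd hx2 (not_le.2 this)

/-- some 6-tuple has a nonnegative symmetrised value, both tables -/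
theorem exists_nonneg2 {V : Type*} [Fintype V] [Nonempty V] (E : V → V → Prop) [DecidableRel E]
    (W : ℕ → ℕ → ℕ → ℕ → ℤ) (P : ℕ → List ℕ)
    (hpos : ∀ x : Fin 4 → V, 0 ≤ ∑ a : V, ∑ b : V,
      W (code4 (fun i j => rel E (x i) (x j))) (prof4 (fun i => rel E (x i) a))
        (prof4 (fun i => rel E (x i) b)) (rel E a b)) :
    ∃ x : Fin 6 → V, 0 ≤ T6 W (fun i j => rel E (x i) (x j)) +
      T62 P (fun i j => rel E (x i) (x j)) := by
  classical
  by_contra hcon
  push Not at hcon
  have h1 : ∑ x : Fin 6 → V, (T6 W (fun i j => rel E (x i) (x j)) +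
      T62 P (fun i j => rel E (x i) (x j))) < 0 :=
    Finset.sum_neg (fun x _ => hcon x) Finset.univ_nonempty
  have h2 : ∑ x : Fin 6 → V, (T6 W (fun i j => rel E (x i) (x j)) +
      T62 P (fun i j => rel E (x i) (x j))) =
      ∑ _π : Equiv.Perm (Fin 6), ∑ x : Fin 6 → V, (hval W (fun i j => rel E (x i) (x j)) +
        hval2 P (fun i j => rel E (x i) (x j))) := by
    unfold T6 T62
    simp only [← Finset.sum_add_distrib]
    rw [Finset.sum_comm]
    refine Finset.sum_congr rfl (fun π _ => ?_)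
    let e : (Fin 6 → V) ≃ (Fin 6 → V) :=
      { toFun := fun x i => x (π i)
        invFun := fun x i => x (π.symm i)
        left_inv := by intro x; funext i; simp
        right_inv := by intro x; funext i; simp }
    exact Equiv.sum_comp e (fun x => hval W (fun i j => rel E (x i) (x j)) +
      hval2 P (fun i j => rel E (x i) (x j)))
  have h3 : 0 ≤ ∑ x : Fin 6 → V, (hval W (fun i j => rel E (x i) (x j)) +
      hval2 P (fun i j => rel E (x i) (x j))) := by
    rw [Finset.sum_add_distrib]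
    refine add_nonneg ?_ (pos2 E P)
    have h := sum6 (fun a b (x : Fin 4 → V) =>
      W (code4 (fun i j => rel E (x i) (x j))) (prof4 (fun i => rel E (x i) a))
        (prof4 (fun i => rel E (x i) b)) (rel E a b))
    unfold hval
    rw [h]
    exact Finset.sum_nonneg (fun x _ => hpos x)
  rw [h2, Finset.sum_const, nsmul_eq_mul] at h1
  have h4 : (0 : ℤ) ≤ ((Finset.univ : Finset (Equiv.Perm (Fin 6))).card : ℤ) := by positivity
  nlinarith

end Core

/-- range checks of a certificate -/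
structure DataOk (C D : ℕ) (L : ℕ → List ℕ) (Q : ℕ → List (ℕ × ℕ)) (P : ℕ → List ℕ) : Prop where
  hC : C < 65536
  hD : D < 65536
  v : ∀ i, i < 32 → okV 81 (L i) = true
  nv : ∀ i, i < 32 → (L i).length ≤ 128
  r : ∀ i, i < 32 → okR (mapR C D (Q i)) = true
  q : ∀ i, i < 32 → okQ (rep i) (Q i) = true
  nr : ∀ i, i < 32 → (Q i).length ≤ 128
  p : ∀ τ, τ < 2 → okV 128 (P τ) = true
  np : ∀ τ, τ < 2 → (P τ).length ≤ 128

lemma length_mapR (C D : ℕ) (l : List (ℕ × ℕ)) : (mapR C D l).length = l.length := by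
  induction l with
  | nil => rfl
  | cons a l ih =>
    have h' : mapR C D (a :: l) = mkrow C D a :: mapR C D l := rfl
    rw [h', List.length_cons, List.length_cons, ih]

/-- THE THEOREM for general certificates. -/
theorem all_of_certC (C D : ℕ) (L : ℕ → List ℕ) (Q : ℕ → List (ℕ × ℕ)) (P : ℕ → List ℕ)
    (h : DataOk C D L Q P)
    (hchk : ∀ p ∈ R5L, chk (FB (rowC L (fun i => mapR C D (Q i))) (rowP P)) p = true)
    (V : Type) [Fintype V] [DecidableEq V] [Nonempty V] (E : V → V → Prop) [DecidableRel E]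
    (hE : ∀ u v, E u v → ¬ E v u) (h3 : ∀ u v w, E u v → E v w → ¬ E w u) :
    ∃ u : V, D * (Finset.univ.filter (fun v => E u v)).card < C * Fintype.card V := by
  have hok : OkC L (fun i => mapR C D (Q i)) :=
    ⟨fun i hi => okvs_of _ (h.v i hi), fun i hi => okR_spec _ (h.r i hi), h.nv,
      fun i hi => by rw [length_mapR]; exact h.nr i hi⟩
  have ht1 := tab1 L (fun i => mapR C D (Q i)) hok
  have ht2 := tab2_of P (fun τ hτ => okV_spec 128 _ (h.p τ hτ)) h.np
  refine induct C D ?_ (Fintype.card V) V E rfl hE h3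
  intro V _ _ _ E _ hE h3 hdeg hH
  refine core6G E hE h3 (fun d => T6 (WC L (fun i => mapR C D (Q i))) d + T62 P d)
    (fun d ρ => by rw [T6_comp, T62_comp]) ?_ R4 R5 comp4 comp5
    (fun d hd hR => negB _ _ ht1 P _ ht2 hchk d hd hR)
  refine exists_nonneg2 E _ P (fun x => pos_WC E hE L _ x (fun i hi hcode ρ hρ => ?_))
  obtain ⟨q, hq, rfl⟩ := mem_mapR C D (Q i) ρ hρ
  refine RS_row E hE C D h.hC h.hD hdeg hH x q ?_
  rw [hcode]
  exact okQ_spec _ _ (h.q i hi) q hq

end Pool.Agent.CH6
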