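import Pool.Agent.Helper93_CH6.Two6

/-!
From the kernel check to the pointwise negativity, general tables.
-/

set_option autoImplicit false

namespace Pool.Agent.CH6

open Pool.Agent.CH

/-- entry of the table -/
noncomputable def entB (row : ℕ → ℕ) (i f g r : ℕ) : ℕ :=
  lit (Nat.add (Nat.mul 128 i) f) (fun n => vd (row n) (Nat.add (Nat.mul 81 r) g))

/-- sum over the automorphisms -/
noncomputable def sumB (row : ℕ → ℕ) (i f g r : ℕ) : ℕ :=
  Nat.rec (motive := fun _ => ℕ) (entB row i f g r)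
    (fun k ih => Nat.add (entB row i (pp (pt (au i k)) f) (pp (pt (au i k)) g) r) ih) (an i)

/-- the value of a pair of vertices -/
noncomputable def pvB (row : ℕ → ℕ) (c f g r : ℕ) : ℕ :=
  sumB row (Nat.mod (ie c) 64) (pp (pt (Nat.div (ie c) 64)) f) (pp (pt (Nat.div (ie c) 64)) g) r

/-- entry of the table of the squares with two roots -/
noncomputable def mv (row2 : ℕ → ℕ) (c c' : ℕ) : ℕ :=
  lit (Nat.add (Nat.mul 128 (Nat.mod c 3)) (cl c)) (fun n => vd (row2 n) (cl c'))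

/-- three entries -/
noncomputable def mv3 (row2 : ℕ → ℕ) (c1 c2 c3 c4 c5 c6 : ℕ) : ℕ :=
  Nat.add (mv row2 c1 c2) (Nat.add (mv row2 c3 c4) (mv row2 c5 c6))

/-- both orders of the roots -/
noncomputable def sw3 (a x y C : ℕ) : ℕ :=
  Nat.rec (motive := fun _ => ℕ) (Nat.add x y)
    (fun n _ => Nat.rec (motive := fun _ => ℕ) (Nat.add x C) (fun _ _ => Nat.add y C) n) a

/-- the values of the squares with two roots -/
noncomputable def tot2 (row2 : ℕ → ℕ) (a01 a02 a12 a03 a13 a23 a04 a14 a24 a34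
    a05 a15 a25 a35 a45 : ℕ) : ℕ :=
  Nat.add (sw3 a01 (mv3 row2 (cd6 a01 a02 a12 a03 a13 a23) (cd6 a01 a04 a14 a05 a15 a45)
      (cd6 a01 a02 a12 a04 a14 a24) (cd6 a01 a03 a13 a05 a15 a35)
      (cd6 a01 a02 a12 a05 a15 a25) (cd6 a01 a03 a13 a04 a14 a34))
    (mv3 row2 (cd6 (iv a01) a12 a02 a13 a03 a23) (cd6 (iv a01) a14 a04 a15 a05 a45)
      (cd6 (iv a01) a12 a02 a14 a04 a24) (cd6 (iv a01) a13 a03 a15 a05 a35)
      (cd6 (iv a01) a12 a02 a15 a05 a25) (cd6 (iv a01) a13 a03 a14 a04 a34)) 1856910058928070412348686336)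
  (Nat.add (sw3 a02 (mv3 row2 (cd6 a02 a01 (iv a12) a03 a23 a13) (cd6 a02 a04 a24 a05 a25 a45)
      (cd6 a02 a01 (iv a12) a04 a24 a14) (cd6 a02 a03 a23 a05 a25 a35)
      (cd6 a02 a01 (iv a12) a05 a25 a15) (cd6 a02 a03 a23 a04 a24 a34))
    (mv3 row2 (cd6 (iv a02) (iv a12) a01 a23 a03 a13) (cd6 (iv a02) a24 a04 a25 a05 a45)
      (cd6 (iv a02) (iv a12) a01 a24 a04 a14) (cd6 (iv a02) a23 a03 a25 a05 a35)
      (cd6 (iv a02) (iv a12) a01 a25 a05 a15) (cd6 (iv a02) a23 a03 a24 a04 a34)) 1856910058928070412348686336)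
  (Nat.add (sw3 a12 (mv3 row2 (cd6 a12 (iv a01) (iv a02) a13 a23 a03) (cd6 a12 a14 a24 a15 a25 a45)
      (cd6 a12 (iv a01) (iv a02) a14 a24 a04) (cd6 a12 a13 a23 a15 a25 a35)
      (cd6 a12 (iv a01) (iv a02) a15 a25 a05) (cd6 a12 a13 a23 a14 a24 a34))
    (mv3 row2 (cd6 (iv a12) (iv a02) (iv a01) a23 a13 a03) (cd6 (iv a12) a24 a14 a25 a15 a45)
      (cd6 (iv a12) (iv a02) (iv a01) a24 a14 a04) (cd6 (iv a12) a23 a13 a25 a15 a35)
      (cd6 (iv a12) (iv a02) (iv a01) a25 a15 a05) (cd6 (iv a12) a23 a13 a24 a14 a34)) 1856910058928070412348686336)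
  (Nat.add (sw3 a03 (mv3 row2 (cd6 a03 a01 (iv a13) a02 (iv a23) a12) (cd6 a03 a04 a34 a05 a35 a45)
      (cd6 a03 a01 (iv a13) a04 a34 a14) (cd6 a03 a02 (iv a23) a05 a35 a25)
      (cd6 a03 a01 (iv a13) a05 a35 a15) (cd6 a03 a02 (iv a23) a04 a34 a24))
    (mv3 row2 (cd6 (iv a03) (iv a13) a01 (iv a23) a02 a12) (cd6 (iv a03) a34 a04 a35 a05 a45)
      (cd6 (iv a03) (iv a13) a01 a34 a04 a14) (cd6 (iv a03) (iv a23) a02 a35 a05 a25)
      (cd6 (iv a03) (iv a13) a01 a35 a05 a15) (cd6 (iv a03) (iv a23) a02 a34 a04 a24)) 1856910058928070412348686336)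
  (Nat.add (sw3 a13 (mv3 row2 (cd6 a13 (iv a01) (iv a03) a12 (iv a23) a02) (cd6 a13 a14 a34 a15 a35 a45)
      (cd6 a13 (iv a01) (iv a03) a14 a34 a04) (cd6 a13 a12 (iv a23) a15 a35 a25)
      (cd6 a13 (iv a01) (iv a03) a15 a35 a05) (cd6 a13 a12 (iv a23) a14 a34 a24))
    (mv3 row2 (cd6 (iv a13) (iv a03) (iv a01) (iv a23) a12 a02) (cd6 (iv a13) a34 a14 a35 a15 a45)
      (cd6 (iv a13) (iv a03) (iv a01) a34 a14 a04) (cd6 (iv a13) (iv a23) a12 a35 a15 a25)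
      (cd6 (iv a13) (iv a03) (iv a01) a35 a15 a05) (cd6 (iv a13) (iv a23) a12 a34 a14 a24)) 1856910058928070412348686336)
  (Nat.add (sw3 a23 (mv3 row2 (cd6 a23 (iv a02) (iv a03) (iv a12) (iv a13) a01) (cd6 a23 a24 a34 a25 a35 a45)
      (cd6 a23 (iv a02) (iv a03) a24 a34 a04) (cd6 a23 (iv a12) (iv a13) a25 a35 a15)
      (cd6 a23 (iv a02) (iv a03) a25 a35 a05) (cd6 a23 (iv a12) (iv a13) a24 a34 a14))
    (mv3 row2 (cd6 (iv a23) (iv a03) (iv a02) (iv a13) (iv a12) a01) (cd6 (iv a23) a34 a24 a35 a25 a45)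
      (cd6 (iv a23) (iv a03) (iv a02) a34 a24 a04) (cd6 (iv a23) (iv a13) (iv a12) a35 a25 a15)
      (cd6 (iv a23) (iv a03) (iv a02) a35 a25 a05) (cd6 (iv a23) (iv a13) (iv a12) a34 a24 a14)) 1856910058928070412348686336)
  (Nat.add (sw3 a04 (mv3 row2 (cd6 a04 a01 (iv a14) a02 (iv a24) a12) (cd6 a04 a03 (iv a34) a05 a45 a35)
      (cd6 a04 a01 (iv a14) a03 (iv a34) a13) (cd6 a04 a02 (iv a24) a05 a45 a25)
      (cd6 a04 a01 (iv a14) a05 a45 a15) (cd6 a04 a02 (iv a24) a03 (iv a34) a23))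
    (mv3 row2 (cd6 (iv a04) (iv a14) a01 (iv a24) a02 a12) (cd6 (iv a04) (iv a34) a03 a45 a05 a35)
      (cd6 (iv a04) (iv a14) a01 (iv a34) a03 a13) (cd6 (iv a04) (iv a24) a02 a45 a05 a25)
      (cd6 (iv a04) (iv a14) a01 a45 a05 a15) (cd6 (iv a04) (iv a24) a02 (iv a34) a03 a23)) 1856910058928070412348686336)
  (Nat.add (sw3 a14 (mv3 row2 (cd6 a14 (iv a01) (iv a04) a12 (iv a24) a02) (cd6 a14 a13 (iv a34) a15 a45 a35)
      (cd6 a14 (iv a01) (iv a04) a13 (iv a34) a03) (cd6 a14 a12 (iv a24) a15 a45 a25)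
      (cd6 a14 (iv a01) (iv a04) a15 a45 a05) (cd6 a14 a12 (iv a24) a13 (iv a34) a23))
    (mv3 row2 (cd6 (iv a14) (iv a04) (iv a01) (iv a24) a12 a02) (cd6 (iv a14) (iv a34) a13 a45 a15 a35)
      (cd6 (iv a14) (iv a04) (iv a01) (iv a34) a13 a03) (cd6 (iv a14) (iv a24) a12 a45 a15 a25)
      (cd6 (iv a14) (iv a04) (iv a01) a45 a15 a05) (cd6 (iv a14) (iv a24) a12 (iv a34) a13 a23)) 1856910058928070412348686336)
  (Nat.add (sw3 a24 (mv3 row2 (cd6 a24 (iv a02) (iv a04) (iv a12) (iv a14) a01) (cd6 a24 a23 (iv a34) a25 a45 a35)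
      (cd6 a24 (iv a02) (iv a04) a23 (iv a34) a03) (cd6 a24 (iv a12) (iv a14) a25 a45 a15)
      (cd6 a24 (iv a02) (iv a04) a25 a45 a05) (cd6 a24 (iv a12) (iv a14) a23 (iv a34) a13))
    (mv3 row2 (cd6 (iv a24) (iv a04) (iv a02) (iv a14) (iv a12) a01) (cd6 (iv a24) (iv a34) a23 a45 a25 a35)
      (cd6 (iv a24) (iv a04) (iv a02) (iv a34) a23 a03) (cd6 (iv a24) (iv a14) (iv a12) a45 a25 a15)
      (cd6 (iv a24) (iv a04) (iv a02) a45 a25 a05) (cd6 (iv a24) (iv a14) (iv a12) (iv a34) a23 a13)) 1856910058928070412348686336)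
  (Nat.add (sw3 a34 (mv3 row2 (cd6 a34 (iv a03) (iv a04) (iv a13) (iv a14) a01) (cd6 a34 (iv a23) (iv a24) a35 a45 a25)
      (cd6 a34 (iv a03) (iv a04) (iv a23) (iv a24) a02) (cd6 a34 (iv a13) (iv a14) a35 a45 a15)
      (cd6 a34 (iv a03) (iv a04) a35 a45 a05) (cd6 a34 (iv a13) (iv a14) (iv a23) (iv a24) a12))
    (mv3 row2 (cd6 (iv a34) (iv a04) (iv a03) (iv a14) (iv a13) a01) (cd6 (iv a34) (iv a24) (iv a23) a45 a35 a25)
      (cd6 (iv a34) (iv a04) (iv a03) (iv a24) (iv a23) a02) (cd6 (iv a34) (iv a14) (iv a13) a45 a35 a15)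
      (cd6 (iv a34) (iv a04) (iv a03) a45 a35 a05) (cd6 (iv a34) (iv a14) (iv a13) (iv a24) (iv a23) a12)) 1856910058928070412348686336)
  (Nat.add (sw3 a05 (mv3 row2 (cd6 a05 a01 (iv a15) a02 (iv a25) a12) (cd6 a05 a03 (iv a35) a04 (iv a45) a34)
      (cd6 a05 a01 (iv a15) a03 (iv a35) a13) (cd6 a05 a02 (iv a25) a04 (iv a45) a24)
      (cd6 a05 a01 (iv a15) a04 (iv a45) a14) (cd6 a05 a02 (iv a25) a03 (iv a35) a23))
    (mv3 row2 (cd6 (iv a05) (iv a15) a01 (iv a25) a02 a12) (cd6 (iv a05) (iv a35) a03 (iv a45) a04 a34)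
      (cd6 (iv a05) (iv a15) a01 (iv a35) a03 a13) (cd6 (iv a05) (iv a25) a02 (iv a45) a04 a24)
      (cd6 (iv a05) (iv a15) a01 (iv a45) a04 a14) (cd6 (iv a05) (iv a25) a02 (iv a35) a03 a23)) 1856910058928070412348686336)
  (Nat.add (sw3 a15 (mv3 row2 (cd6 a15 (iv a01) (iv a05) a12 (iv a25) a02) (cd6 a15 a13 (iv a35) a14 (iv a45) a34)
      (cd6 a15 (iv a01) (iv a05) a13 (iv a35) a03) (cd6 a15 a12 (iv a25) a14 (iv a45) a24)
      (cd6 a15 (iv a01) (iv a05) a14 (iv a45) a04) (cd6 a15 a12 (iv a25) a13 (iv a35) a23))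
    (mv3 row2 (cd6 (iv a15) (iv a05) (iv a01) (iv a25) a12 a02) (cd6 (iv a15) (iv a35) a13 (iv a45) a14 a34)
      (cd6 (iv a15) (iv a05) (iv a01) (iv a35) a13 a03) (cd6 (iv a15) (iv a25) a12 (iv a45) a14 a24)
      (cd6 (iv a15) (iv a05) (iv a01) (iv a45) a14 a04) (cd6 (iv a15) (iv a25) a12 (iv a35) a13 a23)) 1856910058928070412348686336)
  (Nat.add (sw3 a25 (mv3 row2 (cd6 a25 (iv a02) (iv a05) (iv a12) (iv a15) a01) (cd6 a25 a23 (iv a35) a24 (iv a45) a34)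
      (cd6 a25 (iv a02) (iv a05) a23 (iv a35) a03) (cd6 a25 (iv a12) (iv a15) a24 (iv a45) a14)
      (cd6 a25 (iv a02) (iv a05) a24 (iv a45) a04) (cd6 a25 (iv a12) (iv a15) a23 (iv a35) a13))
    (mv3 row2 (cd6 (iv a25) (iv a05) (iv a02) (iv a15) (iv a12) a01) (cd6 (iv a25) (iv a35) a23 (iv a45) a24 a34)
      (cd6 (iv a25) (iv a05) (iv a02) (iv a35) a23 a03) (cd6 (iv a25) (iv a15) (iv a12) (iv a45) a24 a14)
      (cd6 (iv a25) (iv a05) (iv a02) (iv a45) a24 a04) (cd6 (iv a25) (iv a15) (iv a12) (iv a35) a23 a13)) 1856910058928070412348686336)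
  (Nat.add (sw3 a35 (mv3 row2 (cd6 a35 (iv a03) (iv a05) (iv a13) (iv a15) a01) (cd6 a35 (iv a23) (iv a25) a34 (iv a45) a24)
      (cd6 a35 (iv a03) (iv a05) (iv a23) (iv a25) a02) (cd6 a35 (iv a13) (iv a15) a34 (iv a45) a14)
      (cd6 a35 (iv a03) (iv a05) a34 (iv a45) a04) (cd6 a35 (iv a13) (iv a15) (iv a23) (iv a25) a12))
    (mv3 row2 (cd6 (iv a35) (iv a05) (iv a03) (iv a15) (iv a13) a01) (cd6 (iv a35) (iv a25) (iv a23) (iv a45) a34 a24)
      (cd6 (iv a35) (iv a05) (iv a03) (iv a25) (iv a23) a02) (cd6 (iv a35) (iv a15) (iv a13) (iv a45) a34 a14)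
      (cd6 (iv a35) (iv a05) (iv a03) (iv a45) a34 a04) (cd6 (iv a35) (iv a15) (iv a13) (iv a25) (iv a23) a12)) 1856910058928070412348686336)
  (sw3 a45 (mv3 row2 (cd6 a45 (iv a04) (iv a05) (iv a14) (iv a15) a01) (cd6 a45 (iv a24) (iv a25) (iv a34) (iv a35) a23)
      (cd6 a45 (iv a04) (iv a05) (iv a24) (iv a25) a02) (cd6 a45 (iv a14) (iv a15) (iv a34) (iv a35) a13)
      (cd6 a45 (iv a04) (iv a05) (iv a34) (iv a35) a03) (cd6 a45 (iv a14) (iv a15) (iv a24) (iv a25) a12))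
    (mv3 row2 (cd6 (iv a45) (iv a05) (iv a04) (iv a15) (iv a14) a01) (cd6 (iv a45) (iv a25) (iv a24) (iv a35) (iv a34) a23)
      (cd6 (iv a45) (iv a05) (iv a04) (iv a25) (iv a24) a02) (cd6 (iv a45) (iv a15) (iv a14) (iv a35) (iv a34) a13)
      (cd6 (iv a45) (iv a05) (iv a04) (iv a35) (iv a34) a03) (cd6 (iv a45) (iv a15) (iv a14) (iv a25) (iv a24) a12)) 1856910058928070412348686336))))))))))))))

/-- the check of a configuration -/
noncomputable def FB (row row2 : ℕ → ℕ) (a01 a02 a12 a03 a13 a23 a04 a14 a24 a34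
    a05 a15 a25 a35 a45 : ℕ) : Bool :=
  Nat.ble (Nat.succ (Nat.add (tot6 (pvB row) a01 a02 a12 a03 a13 a23 a04 a14 a24 a34
    a05 a15 a25 a35 a45) (Nat.mul 4 (tot2 row2 a01 a02 a12 a03 a13 a23 a04 a14 a24 a34
    a05 a15 a25 a35 a45)))) 445658414142736898963684720640

/-- the check of a configuration without squares with two roots -/
noncomputable def FB1 (row : ℕ → ℕ) (a01 a02 a12 a03 a13 a23 a04 a14 a24 a34
    a05 a15 a25 a35 a45 : ℕ) : Bool :=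
  Nat.ble (Nat.succ (tot6 (pvB row) a01 a02 a12 a03 a13 a23 a04 a14 a24 a34
    a05 a15 a25 a35 a45)) 222829207071368449481842360320

lemma entB_eq (row : ℕ → ℕ) (i f g r : ℕ) :
    entB row i f g r = vd (row (128 * i + f)) (81 * r + g) := rfl

lemma sumB_eq (row : ℕ → ℕ) (i f g r : ℕ) : (sumB row i f g r : ℤ) =
    entB row i f g r + ((List.range (an i)).map (fun k =>
      (entB row i (pp (pt (au i k)) f) (pp (pt (au i k)) g) r : ℤ))).sum := by
  have h : ∀ n : ℕ, ((Nat.rec (motive := fun _ => ℕ) (entB row i f g r)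
    (fun k ih => Nat.add (entB row i (pp (pt (au i k)) f) (pp (pt (au i k)) g) r) ih) n : ℕ) : ℤ) =
    entB row i f g r + ((List.range n).map (fun k =>
      (entB row i (pp (pt (au i k)) f) (pp (pt (au i k)) g) r : ℤ))).sum := by
    intro n
    induction n with
    | zero => simp
    | succ n ih =>
      rw [List.range_succ, List.map_append, List.sum_append, ← add_assoc, ← ih]
      show ((entB row i (pp (pt (au i n)) f) (pp (pt (au i n)) g) r + _ : ℕ) : ℤ) = _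
      push_cast
      simp only [List.map_cons, List.map_nil, List.sum_cons, List.sum_nil, add_zero]
      rw [add_comm]
  exact h (an i)

theorem au_lt : ∀ i : Fin 32, ∀ k < an i, au i k < 24 := by decide +kernel

lemma pp_lt (s f : ℕ) (hs : s < 24) (hf : f < 81) : pp (pt s) f < 81 := by
  have h := fact_c ⟨s, hs⟩ ⟨f, hf⟩
  have h2 : prof4 (fun x => dg f (pf s x)) < 81 := prof_lt _ (fun x => Nat.mod_lt _ (by norm_num))
  have h3 : prof4 (fun x => dg f (pf s x)) = pp (pt s) f := h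
  omega

/-- a pair term -/
lemma pair_B (row : ℕ → ℕ) (W : ℕ → ℕ → ℕ → ℕ → ℤ)
    (F0 : ∀ t f g r, ¬ R4 t → W t f g r = 0)
    (hW : ∀ i f g r, i < 32 → f < 81 → g < 81 → r < 3 →
      W (rep i) f g r = (entB row i f g r : ℤ) - (offi i : ℤ))
    (hsym : ∀ i f g r, i < 32 → f < 81 → g < 81 → r < 3 →
      W (rep i) f g r = W (rep i) g f (inv r))
    (d : Fin 6 → Fin 6 → ℕ) (hd : Cfg d) (i j k l p q : Fin 6) :
    GG W d i j k l p q = 2 * ((pvB row (cd6 (d i j) (d i k) (d j k) (d i l) (d j l) (d k l))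
      (cd4 (d i p) (d j p) (d k p) (d l p)) (cd4 (d i q) (d j q) (d k q) (d l q)) (d p q) : ℕ)
      - (OFS : ℤ)) := by
  have he : Cfg (fun x y => d (![i, j, k, l] x) (![i, j, k, l] y)) := hd.comp ![i, j, k, l]
  have hc : code4 (fun x y => d (![i, j, k, l] x) (![i, j, k, l] y)) =
      cd6 (d i j) (d i k) (d j k) (d i l) (d j l) (d k l) := by
    rw [cd6_eq]
    rfl
  have hf : prof4 (fun x => d (![i, j, k, l] x) p) = cd4 (d i p) (d j p) (d k p) (d l p) := by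
    rw [cd4_eq]
    rfl
  have hg : prof4 (fun x => d (![i, j, k, l] x) q) = cd4 (d i q) (d j q) (d k q) (d l q) := by
    rw [cd4_eq]
    rfl
  have hsym' : ∀ t f g r, f < 81 → g < 81 → r < 3 → W t f g r = W t g f (inv r) := by
    intro t f g r h1 h2 h3
    by_cases ht : R4 t
    · obtain ⟨i, rfl⟩ := ht
      exact hsym i f g r i.2 h1 h2 h3
    · rw [F0 t f g r ht, F0 t g f _ ht]
  have hG2 : G W d ![i, j, k, l] q p = G W d ![i, j, k, l] p q := by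
    unfold G
    refine Finset.sum_congr rfl (fun σ _ => ?_)
    rw [hd.anti p q]
    exact (hsym' _ _ _ _ (prof_lt _ (fun _ => hd.lt _ _)) (prof_lt _ (fun _ => hd.lt _ _))
      (hd.lt p q)).symm
  obtain ⟨b1, b2, b3, b4⟩ := coset_sum W F0 _ he (fun x => d (![i, j, k, l] x) p)
    (fun x => d (![i, j, k, l] x) q) (fun _ => hd.lt _ _) (fun _ => hd.lt _ _) (d p q) _ _ _ _ _
    hc rfl rfl rfl rfl
  have hG : G W d ![i, j, k, l] p q = _ := b4
  unfold GG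
  rw [hG2, hG]
  rw [hf] at b2
  rw [hg] at b3
  rw [hf, hg]
  generalize cd6 (d i j) (d i k) (d j k) (d i l) (d j l) (d k l) = c at *
  generalize cd4 (d i p) (d j p) (d k p) (d l p) = f at *
  generalize cd4 (d i q) (d j q) (d k q) (d l q) = g at *
  have hsum : ((List.range (an (ie c % 64))).map (fun k => W (rep (ie c % 64))
      (pp (pt (au (ie c % 64) k)) (pp (pt (ie c / 64)) f))
      (pp (pt (au (ie c % 64) k)) (pp (pt (ie c / 64)) g)) (d p q))).sum =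
      ((List.range (an (ie c % 64))).map (fun k => (entB row (ie c % 64)
      (pp (pt (au (ie c % 64) k)) (pp (pt (ie c / 64)) f))
      (pp (pt (au (ie c % 64) k)) (pp (pt (ie c / 64)) g)) (d p q) : ℤ))).sum
      - an (ie c % 64) * offi (ie c % 64) := by
    have hl : ∀ l : List ℕ, (∀ k ∈ l, k < an (ie c % 64)) → (l.map (fun k => W (rep (ie c % 64))
      (pp (pt (au (ie c % 64) k)) (pp (pt (ie c / 64)) f))
      (pp (pt (au (ie c % 64) k)) (pp (pt (ie c / 64)) g)) (d p q))).sum =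
      (l.map (fun k => (entB row (ie c % 64)
      (pp (pt (au (ie c % 64) k)) (pp (pt (ie c / 64)) f))
      (pp (pt (au (ie c % 64) k)) (pp (pt (ie c / 64)) g)) (d p q) : ℤ))).sum
      - l.length * offi (ie c % 64) := by
      intro l
      induction l with
      | nil => simp
      | cons a l ih =>
        intro h
        have ha := au_lt ⟨_, b1⟩ a (h a (by simp))
        have h1 := hW (ie c % 64) _ _ _ b1 (pp_lt _ _ ha b2) (pp_lt _ _ ha b3) (hd.lt p q)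
        have h2 := ih (fun k hk => h k (by simp [hk]))
        simp only [List.map_cons, List.sum_cons, List.length_cons]
        rw [h2, h1]
        push_cast
        ring
    have := hl (List.range (an (ie c % 64))) (fun k hk => List.mem_range.1 hk)
    rw [List.length_range] at this
    exact this
  rw [hsum, hW _ _ _ _ b1 b2 b3 (hd.lt p q)]
  have hs := sumB_eq row (ie c % 64) (pp (pt (ie c / 64)) f) (pp (pt (ie c / 64)) g) (d p q)
  have hp : pvB row c f g (d p q) = sumB row (ie c % 64) (pp (pt (ie c / 64)) f)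
    (pp (pt (ie c / 64)) g) (d p q) := rfl
  rw [hp, hs]
  have ho := offi_eq ⟨_, b1⟩
  have ho' : ((an (ie c % 64) : ℤ) + 1) * offi (ie c % 64) = OFS := by
    have : (((an (ie c % 64) + 1) * offi (ie c % 64) : ℕ) : ℤ) = (OFS : ℕ) := by
      rw [show (an (ie c % 64) + 1) * offi (ie c % 64) = OFS from ho]
    push_cast at this
    exact this
  linarith

theorem cl_lt : ∀ c < 729, cl c < 128 := by decide +kernel

lemma q4_lt {d : Fin 6 → Fin 6 → ℕ} (hd : Cfg d) (p q a b : Fin 6) : q4 d p q a b < 729 :=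
  code4_lt (hd.comp ![p, q, a, b])

lemma q4_cd {d : Fin 6 → Fin 6 → ℕ} (p q a b : Fin 6) :
    q4 d p q a b = cd6 (d p q) (d p a) (d q a) (d p b) (d q b) (d a b) := by
  rw [cd6_eq]
  rfl

/-- value of an entry of the second table -/
def tab2 (P : ℕ → List ℕ) (row2 : ℕ → ℕ) : Prop :=
  ∀ τ κ κ', τ < 2 → κ < 128 → κ' < 128 → (vd (row2 (128 * τ + κ)) κ' : ℤ) - 618970019642690137449562112 =
    ((P τ).map (fun v => ((vd v κ : ℤ) - 549755813888) * ((vd v κ' : ℤ) - 549755813888))).sum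

lemma mv_eq (P : ℕ → List ℕ) (row2 : ℕ → ℕ) (hM : tab2 P row2) (c c' : ℕ) (hc : c < 729)
    (hc' : c' < 729) (h2 : c % 3 ≠ 2) :
    (mv row2 c c' : ℤ) = M2 P c c' + 618970019642690137449562112 := by
  have h := hM (c % 3) (cl c) (cl c') (by omega) (cl_lt c hc) (cl_lt c' hc')
  unfold M2
  rw [if_neg h2, ← h]
  have : mv row2 c c' = vd (row2 (128 * (c % 3) + cl c)) (cl c') := rfl
  rw [this]
  ring

/-- both orders of the roots -/
lemma pair_T (P : ℕ → List ℕ) (row2 : ℕ → ℕ) (hM : tab2 P row2) (d : Fin 6 → Fin 6 → ℕ)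
    (hd : Cfg d) (i j k l p q : Fin 6) :
    G2 P d ![i, j, k, l] p q + G2 P d ![i, j, k, l] q p = 8 * ((sw3 (d p q)
      (mv3 row2 (cd6 (d p q) (d p i) (d q i) (d p j) (d q j) (d i j))
        (cd6 (d p q) (d p k) (d q k) (d p l) (d q l) (d k l))
        (cd6 (d p q) (d p i) (d q i) (d p k) (d q k) (d i k))
        (cd6 (d p q) (d p j) (d q j) (d p l) (d q l) (d j l))
        (cd6 (d p q) (d p i) (d q i) (d p l) (d q l) (d i l))
        (cd6 (d p q) (d p j) (d q j) (d p k) (d q k) (d j k)))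
      (mv3 row2 (cd6 (d q p) (d q i) (d p i) (d q j) (d p j) (d i j))
        (cd6 (d q p) (d q k) (d p k) (d q l) (d p l) (d k l))
        (cd6 (d q p) (d q i) (d p i) (d q k) (d p k) (d i k))
        (cd6 (d q p) (d q j) (d p j) (d q l) (d p l) (d j l))
        (cd6 (d q p) (d q i) (d p i) (d q l) (d p l) (d i l))
        (cd6 (d q p) (d q j) (d p j) (d q k) (d p k) (d j k)))
      1856910058928070412348686336 : ℕ) - 3713820117856140824697372672) := by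
  rw [pair2 P hd i j k l p q, pair2 P hd i j k l q p]
  simp only [← q4_cd]
  have hm1 := fun a b => q4_mod hd p q a b
  have hm2 := fun a b => q4_mod hd q p a b
  have hl := hd.lt p q
  have ha := hd.anti p q
  have h3 : d p q = 0 ∨ d p q = 1 ∨ d p q = 2 := by omega
  have hv1 : d p q ≠ 2 → ((mv3 row2 (q4 d p q i j) (q4 d p q k l) (q4 d p q i k) (q4 d p q j l)
      (q4 d p q i l) (q4 d p q j k) : ℕ) : ℤ) = M2 P (q4 d p q i j) (q4 d p q k l) +
      M2 P (q4 d p q i k) (q4 d p q j l) + M2 P (q4 d p q i l) (q4 d p q j k) +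
      1856910058928070412348686336 := by
    intro h
    show ((mv row2 _ _ + (mv row2 _ _ + mv row2 _ _) : ℕ) : ℤ) = _
    push_cast
    rw [mv_eq P row2 hM _ _ (q4_lt hd _ _ _ _) (q4_lt hd _ _ _ _) (by rw [hm1]; exact h),
      mv_eq P row2 hM _ _ (q4_lt hd _ _ _ _) (q4_lt hd _ _ _ _) (by rw [hm1]; exact h),
      mv_eq P row2 hM _ _ (q4_lt hd _ _ _ _) (q4_lt hd _ _ _ _) (by rw [hm1]; exact h)]
    ring
  have hv2 : d q p ≠ 2 → ((mv3 row2 (q4 d q p i j) (q4 d q p k l) (q4 d q p i k) (q4 d q p j l)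
      (q4 d q p i l) (q4 d q p j k) : ℕ) : ℤ) = M2 P (q4 d q p i j) (q4 d q p k l) +
      M2 P (q4 d q p i k) (q4 d q p j l) + M2 P (q4 d q p i l) (q4 d q p j k) +
      1856910058928070412348686336 := by
    intro h
    show ((mv row2 _ _ + (mv row2 _ _ + mv row2 _ _) : ℕ) : ℤ) = _
    push_cast
    rw [mv_eq P row2 hM _ _ (q4_lt hd _ _ _ _) (q4_lt hd _ _ _ _) (by rw [hm2]; exact h),
      mv_eq P row2 hM _ _ (q4_lt hd _ _ _ _) (q4_lt hd _ _ _ _) (by rw [hm2]; exact h),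
      mv_eq P row2 hM _ _ (q4_lt hd _ _ _ _) (q4_lt hd _ _ _ _) (by rw [hm2]; exact h)]
    ring
  have hz1 : d p q = 2 → ∀ a b c, M2 P (q4 d p q a b) c = 0 := by
    intro h a b c
    unfold M2
    rw [if_pos (by rw [hm1]; exact h)]
  have hz2 : d q p = 2 → ∀ a b c, M2 P (q4 d q p a b) c = 0 := by
    intro h a b c
    unfold M2
    rw [if_pos (by rw [hm2]; exact h)]
  rcases h3 with h | h | h
  · have h' : d q p = 0 := by rw [ha, h]; rfl
    have e : ∀ x y C : ℕ, sw3 (d p q) x y C = x + y := by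
      intro x y C; rw [h]; rfl
    rw [e]
    push_cast
    rw [hv1 (by omega), hv2 (by omega)]
    ring
  · have h' : d q p = 2 := by rw [ha, h]; rfl
    have e : ∀ x y C : ℕ, sw3 (d p q) x y C = x + C := by
      intro x y C; rw [h]; rfl
    rw [e]
    push_cast
    rw [hv1 (by omega), hz2 h', hz2 h', hz2 h']
    ring
  · have h' : d q p = 1 := by rw [ha, h]; rfl
    have e : ∀ x y C : ℕ, sw3 (d p q) x y C = y + C := by
      intro x y C; rw [h]; rfl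
    rw [e]
    push_cast
    rw [hv2 (by omega), hz1 h, hz1 h, hz1 h]
    ring

/-- hypotheses on the first table -/
structure Tab1 (W : ℕ → ℕ → ℕ → ℕ → ℤ) (row : ℕ → ℕ) : Prop where
  F0 : ∀ t f g r, ¬ R4 t → W t f g r = 0
  val : ∀ i f g r, i < 32 → f < 81 → g < 81 → r < 3 →
      W (rep i) f g r = (entB row i f g r : ℤ) - (offi i : ℤ)
  sym : ∀ i f g r, i < 32 → f < 81 → g < 81 → r < 3 →
      W (rep i) f g r = W (rep i) g f (inv r)

lemma T6_val (row : ℕ → ℕ) (W : ℕ → ℕ → ℕ → ℕ → ℤ) (h1 : Tab1 W row)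
    (d : Fin 6 → Fin 6 → ℕ) (hd : Cfg d) :
    T6 W d = 2 * ((tot6 (pvB row) (d 0 1) (d 0 2) (d 1 2) (d 0 3) (d 1 3) (d 2 3)
      (d 0 4) (d 1 4) (d 2 4) (d 3 4) (d 0 5) (d 1 5) (d 2 5) (d 3 5) (d 4 5) : ℕ) : ℤ) - 445658414142736898963684720640 := by
  have pair := pair_B row W h1.F0 h1.val h1.sym d hd
  rw [T6_eq]
  have hrev : ∀ i j : Fin 6, d j i = iv (d i j) := by
    intro i j
    rw [hd.anti i j, iv_eq (hd.lt i j)]
  have h10 : d 1 0 = iv (d 0 1) := hrev 0 1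
  have h20 : d 2 0 = iv (d 0 2) := hrev 0 2
  have h21 : d 2 1 = iv (d 1 2) := hrev 1 2
  have h30 : d 3 0 = iv (d 0 3) := hrev 0 3
  have h31 : d 3 1 = iv (d 1 3) := hrev 1 3
  have h32 : d 3 2 = iv (d 2 3) := hrev 2 3
  have h40 : d 4 0 = iv (d 0 4) := hrev 0 4
  have h41 : d 4 1 = iv (d 1 4) := hrev 1 4
  have h42 : d 4 2 = iv (d 2 4) := hrev 2 4
  have h43 : d 4 3 = iv (d 3 4) := hrev 3 4
  have h50 : d 5 0 = iv (d 0 5) := hrev 0 5
  have h51 : d 5 1 = iv (d 1 5) := hrev 1 5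
  have h52 : d 5 2 = iv (d 2 5) := hrev 2 5
  have h53 : d 5 3 = iv (d 3 5) := hrev 3 5
  have h54 : d 5 4 = iv (d 4 5) := hrev 4 5
  rw [pair 2 3 4 5 0 1, pair 1 3 4 5 0 2, pair 0 3 4 5 1 2, pair 1 2 4 5 0 3, pair 0 2 4 5 1 3, pair 0 1 4 5 2 3, pair 1 2 3 5 0 4, pair 0 2 3 5 1 4, pair 0 1 3 5 2 4, pair 0 1 2 5 3 4, pair 1 2 3 4 0 5, pair 0 2 3 4 1 5, pair 0 1 3 4 2 5, pair 0 1 2 4 3 5, pair 0 1 2 3 4 5]
  rw [h10, h20, h21, h30, h31, h32, h40, h41, h42, h43, h50, h51, h52, h53, h54]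
  unfold tot6
  simp only [Nat.add_eq]
  push_cast
  unfold OFS
  push_cast
  ring

lemma T62_val (P : ℕ → List ℕ) (row2 : ℕ → ℕ) (hM : tab2 P row2)
    (d : Fin 6 → Fin 6 → ℕ) (hd : Cfg d) :
    T62 P d = 8 * ((tot2 row2 (d 0 1) (d 0 2) (d 1 2) (d 0 3) (d 1 3) (d 2 3)
      (d 0 4) (d 1 4) (d 2 4) (d 3 4) (d 0 5) (d 1 5) (d 2 5) (d 3 5) (d 4 5) : ℕ) : ℤ) - 445658414142736898963684720640 := by
  have prt := pair_T P row2 hM d hd
  rw [T62_eq]
  have hrev : ∀ i j : Fin 6, d j i = iv (d i j) := by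
    intro i j
    rw [hd.anti i j, iv_eq (hd.lt i j)]
  have h10 : d 1 0 = iv (d 0 1) := hrev 0 1
  have h20 : d 2 0 = iv (d 0 2) := hrev 0 2
  have h21 : d 2 1 = iv (d 1 2) := hrev 1 2
  have h30 : d 3 0 = iv (d 0 3) := hrev 0 3
  have h31 : d 3 1 = iv (d 1 3) := hrev 1 3
  have h32 : d 3 2 = iv (d 2 3) := hrev 2 3
  have h40 : d 4 0 = iv (d 0 4) := hrev 0 4
  have h41 : d 4 1 = iv (d 1 4) := hrev 1 4
  have h42 : d 4 2 = iv (d 2 4) := hrev 2 4
  have h43 : d 4 3 = iv (d 3 4) := hrev 3 4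
  have h50 : d 5 0 = iv (d 0 5) := hrev 0 5
  have h51 : d 5 1 = iv (d 1 5) := hrev 1 5
  have h52 : d 5 2 = iv (d 2 5) := hrev 2 5
  have h53 : d 5 3 = iv (d 3 5) := hrev 3 5
  have h54 : d 5 4 = iv (d 4 5) := hrev 4 5
  rw [prt 2 3 4 5 0 1, prt 1 3 4 5 0 2, prt 0 3 4 5 1 2, prt 1 2 4 5 0 3, prt 0 2 4 5 1 3, prt 0 1 4 5 2 3, prt 1 2 3 5 0 4, prt 0 2 3 5 1 4, prt 0 1 3 5 2 4, prt 0 1 2 5 3 4, prt 1 2 3 4 0 5, prt 0 2 3 4 1 5, prt 0 1 3 4 2 5, prt 0 1 2 4 3 5, prt 0 1 2 3 4 5]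
  rw [h10, h20, h21, h30, h31, h32, h40, h41, h42, h43, h50, h51, h52, h53, h54]
  unfold tot2
  simp only [Nat.add_eq]
  push_cast
  ring

/-- POINTWISE NEGATIVITY from the kernel check, both tables. -/
theorem negB (W : ℕ → ℕ → ℕ → ℕ → ℤ) (row : ℕ → ℕ) (h1 : Tab1 W row) (P : ℕ → List ℕ)
    (row2 : ℕ → ℕ) (hM : tab2 P row2) (hchk : ∀ p ∈ R5L, chk (FB row row2) p = true)
    (d : Fin 6 → Fin 6 → ℕ) (hd : Cfg d)
    (hR : R5 (code4 (fun i j => d (c46 i) (c46 j))) (prof4 (fun i => d (c46 i) 4))) :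
    T6 W d + T62 P d < 0 := by
  have h := chk_spec hd (hchk _ hR)
  have hle := Nat.le_of_ble_eq_true h
  rw [T6_val row W h1 d hd, T62_val P row2 hM d hd]
  simp only [Nat.add_eq, Nat.mul_eq, Nat.succ_eq_add_one] at hle
  have hle2 : (((tot6 (pvB row) (d 0 1) (d 0 2) (d 1 2) (d 0 3) (d 1 3) (d 2 3)
      (d 0 4) (d 1 4) (d 2 4) (d 3 4) (d 0 5) (d 1 5) (d 2 5) (d 3 5) (d 4 5)) + 4 * (tot2 row2 (d 0 1) (d 0 2) (d 1 2) (d 0 3) (d 1 3) (d 2 3)
      (d 0 4) (d 1 4) (d 2 4) (d 3 4) (d 0 5) (d 1 5) (d 2 5) (d 3 5) (d 4 5)) + 1 : ℕ) : ℤ) ≤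
      ((445658414142736898963684720640 : ℕ) : ℤ) := Int.ofNat_le.2 hle
  push_cast at hle2
  linarith

/-- POINTWISE NEGATIVITY from the kernel check, first table only. -/
theorem negB1 (W : ℕ → ℕ → ℕ → ℕ → ℤ) (row : ℕ → ℕ) (h1 : Tab1 W row)
    (hchk : ∀ p ∈ R5L, chk (FB1 row) p = true) : Neg6 W R5 := by
  intro d hd hR
  have h := chk_spec hd (hchk _ hR)
  have hle := Nat.le_of_ble_eq_true h
  rw [T6_val row W h1 d hd]
  simp only [Nat.succ_eq_add_one] at hle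
  have hle2 : (((tot6 (pvB row) (d 0 1) (d 0 2) (d 1 2) (d 0 3) (d 1 3) (d 2 3)
      (d 0 4) (d 1 4) (d 2 4) (d 3 4) (d 0 5) (d 1 5) (d 2 5) (d 3 5) (d 4 5)) + 1 : ℕ) : ℤ) ≤
      ((222829207071368449481842360320 : ℕ) : ℤ) := Int.ofNat_le.2 hle
  push_cast at hle2
  linarith

end Pool.Agent.CH6
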