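import Pool.Agent.Helper93_CH6.Red6
import Pool.Agent.Helper93_CH.Pos

/-!
Nonnegativity of the root sums with four roots: squares, outdegree rows, heredity rows and
further rows.
-/

set_option autoImplicit false

namespace Pool.Agent.CH6

open Pool.Agent.CH

/-- digit `i` of a profile -/
def dg (g i : ℕ) : ℕ := g / 3 ^ i % 3

/-- relation of `b` to root `i` (`i = 4` is the vertex `a`) -/
def eb (g r : ℕ) (i : Fin 5) : ℕ := if i = 4 then r else dg g i

/-- relation code between the roots `i` and `z` (`4` is the vertex `a`) -/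
def rc6 (t f : ℕ) (i z : Fin 5) : ℕ :=
  if z = 4 then dg f i else if i = 4 then inv (dg f z)
  else if i < z then t / 3 ^ ((z : ℕ) * ((z : ℕ) - 1) / 2 + i) % 3
  else inv (t / 3 ^ ((i : ℕ) * ((i : ℕ) - 1) / 2 + z) % 3)

/-- bit of a mask -/
def mb (mask : ℕ) (i : Fin 5) : Prop := mask / 2 ^ (i : ℕ) % 2 = 1

instance (mask : ℕ) (i : Fin 5) : Decidable (mb mask i) := by unfold mb; infer_instance

/-- all roots of the mask have an edge to the root `z` or are `z` -/
def okz6 (t f mask : ℕ) (z : Fin 5) : Prop := ∀ i : Fin 5, mb mask i → i = z ∨ rc6 t f i z = 1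

instance (t f mask : ℕ) (z : Fin 5) : Decidable (okz6 t f mask z) := by
  unfold okz6; infer_instance

/-- outdegree rows -/
def deg6 (C D : ℤ) (m : Fin 5 → ℕ) (g r : ℕ) : ℤ :=
  ∑ i : Fin 5, (m i : ℤ) * (D * bit1 (eb g r i) - C)

/-- heredity row -/
def lh6 (C D : ℤ) (mask g r : ℕ) : ℤ :=
  (D - C) - (if ∃ i : Fin 5, mb mask i ∧ eb g r i = 2 then D else 0) -
    (if ∀ i : Fin 5, mb mask i → eb g r i = 1 then D - C else 0)

/-- value of the certificate for a fixed type -/
def Wval6 (C D : ℤ) (L : List (ℕ → ℤ)) (m : ℕ → Fin 5 → ℕ) (lh : ℕ → List (ℕ × Fin 5 × ℕ))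
    (X : ℕ → ℕ → ℕ → ℤ) (f g r : ℕ) : ℤ :=
  sqV L f g + deg6 C D (m f) g r +
    ((lh f).map (fun q => (q.2.2 : ℤ) * lh6 C D q.1 g r)).sum + X f g r

section

variable {V : Type*} (E : V → V → Prop) [DecidableRel E]

lemma dg_prof (e : Fin 4 → ℕ) (he : ∀ i, e i < 3) (i : Fin 4) : dg (prof4 e) i = e i := by
  have h0 := he 0
  have h1 := he 1
  have h2 := he 2
  have h3 := he 3
  unfold dg prof4
  fin_cases i <;> simp <;> omega

lemma prof_lt (e : Fin 4 → ℕ) (he : ∀ i, e i < 3) : prof4 e < 81 := by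
  have h0 := he 0
  have h1 := he 1
  have h2 := he 2
  have h3 := he 3
  unfold prof4
  omega

lemma code_dg (d : Fin 4 → Fin 4 → ℕ) (hd : ∀ i j, d i j < 3) (i j : Fin 4) (hij : i < j) :
    code4 d / 3 ^ ((j : ℕ) * ((j : ℕ) - 1) / 2 + i) % 3 = d i j := by
  have h01 := hd 0 1
  have h02 := hd 0 2
  have h12 := hd 1 2
  have h03 := hd 0 3
  have h13 := hd 1 3
  have h23 := hd 2 3
  unfold code4
  fin_cases i <;> fin_cases j <;> simp at hij ⊢ <;> omega

/-- the five roots -/
def y5 (x : Fin 4 → V) (a : V) (i : Fin 5) : V := if h : (i : ℕ) < 4 then x ⟨i, h⟩ else a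

lemma y5_castSucc (x : Fin 4 → V) (a : V) (i : Fin 4) : y5 x a i.castSucc = x i := by
  unfold y5
  have : ((i.castSucc : Fin 5) : ℕ) < 4 := i.2
  rw [dif_pos this]
  rfl

lemma y5_last (x : Fin 4 → V) (a : V) : y5 x a 4 = a := rfl

lemma eb_eq (x : Fin 4 → V) (a b : V) (i : Fin 5) :
    eb (prof4 (fun i => rel E (x i) b)) (rel E a b) i = rel E (y5 x a i) b := by
  unfold eb
  refine Fin.lastCases ?_ (fun j => ?_) i
  · rfl
  · have h : (j.castSucc : Fin 5) ≠ 4 := by
      intro h
      have := congrArg Fin.val h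
      simp at this
      omega
    rw [if_neg h, y5_castSucc]
    exact dg_prof (fun i => rel E (x i) b) (fun i => rel_lt E (x i) b) j

lemma rc6_eq (hE : ∀ u v, E u v → ¬ E v u) (x : Fin 4 → V) (a : V) (i z : Fin 5)
    (hiz : i ≠ z) :
    rc6 (code4 (fun i j => rel E (x i) (x j))) (prof4 (fun i => rel E (x i) a)) i z =
      rel E (y5 x a i) (y5 x a z) := by
  have hne : ∀ j : Fin 4, (j.castSucc : Fin 5) ≠ 4 := by
    intro j h
    have := congrArg Fin.val h
    simp at this
    omega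
  have h44 : (Fin.last 4 : Fin 5) = 4 := rfl
  unfold rc6
  revert hiz
  refine Fin.lastCases ?_ (fun z' => ?_) z
  · intro hiz
    rw [if_pos h44]
    revert hiz
    refine Fin.lastCases ?_ (fun i' => ?_) i
    · intro h; exact absurd rfl h
    · intro _
      rw [y5_castSucc]
      exact dg_prof (fun i => rel E (x i) a) (fun i => rel_lt E (x i) a) i'
  · intro hiz
    rw [if_neg (hne z')]
    revert hiz
    refine Fin.lastCases ?_ (fun i' => ?_) i
    · intro _
      rw [if_pos h44, y5_castSucc]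
      have h := dg_prof (fun i => rel E (x i) a) (fun i => rel_lt E (x i) a) z'
      show inv (dg _ ((z' : Fin 4) : ℕ)) = rel E a (x z')
      rw [h, ← rel_inv E hE]
    · intro hiz
      rw [if_neg (hne i'), y5_castSucc, y5_castSucc]
      have hiz' : i' ≠ z' := fun h => hiz (by rw [h])
      by_cases hlt : i' < z'
      · have : (i'.castSucc : Fin 5) < z'.castSucc := hlt
        rw [if_pos this]
        exact code_dg (fun i j => rel E (x i) (x j)) (fun i j => rel_lt E _ _) i' z' hlt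
      · have : ¬ (i'.castSucc : Fin 5) < z'.castSucc := hlt
        rw [if_neg this]
        have hgt : z' < i' := lt_of_le_of_ne (not_lt.1 hlt) (Ne.symm hiz')
        have h := code_dg (fun i j => rel E (x i) (x j)) (fun i j => rel_lt E _ _) z' i' hgt
        show inv (_ / 3 ^ (((i' : Fin 4) : ℕ) * (((i' : Fin 4) : ℕ) - 1) / 2 +
          ((z' : Fin 4) : ℕ)) % 3) = _
        rw [h, ← rel_inv E hE]

end

section

variable {V : Type*} [Fintype V] [DecidableEq V] (E : V → V → Prop) [DecidableRel E]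

lemma lh6_nonneg (hE : ∀ u v, E u v → ¬ E v u) (C D : ℕ) (hH : Hered E C D)
    (x : Fin 4 → V) (a : V) (mask : ℕ) (z : Fin 5)
    (hok : okz6 (code4 (fun i j => rel E (x i) (x j))) (prof4 (fun i => rel E (x i) a)) mask z) :
    0 ≤ ∑ b, lh6 C D mask (prof4 (fun i => rel E (x i) b)) (rel E a b) := by
  let R : Finset V := (Finset.univ.filter (fun i : Fin 5 => mb mask i)).image (y5 x a)
  have hR : ∀ r, r ∈ R ↔ ∃ i : Fin 5, mb mask i ∧ y5 x a i = r := by
    intro r
    simp [R]
  have hdom : ∀ r ∈ R, r = y5 x a z ∨ E r (y5 x a z) := by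
    intro r hr
    obtain ⟨i, hi, rfl⟩ := (hR r).1 hr
    by_cases hiz : i = z
    · left; rw [hiz]
    · right
      rcases hok i hi with h | h
      · exact absurd h hiz
      · rw [rc6_eq E hE x a i z hiz, rel_eq_one] at h
        exact h
  have key := hH R (y5 x a z) hdom
  have hN : ∀ b, (∃ i : Fin 5, mb mask i ∧
      eb (prof4 (fun i => rel E (x i) b)) (rel E a b) i = 2) ↔ ∃ r ∈ R, E b r := by
    intro b
    constructor
    · rintro ⟨i, hi, h⟩
      rw [eb_eq, rel_eq_two E hE] at h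
      exact ⟨y5 x a i, (hR _).2 ⟨i, hi, rfl⟩, h⟩
    · rintro ⟨r, hr, hb⟩
      obtain ⟨i, hi, rfl⟩ := (hR r).1 hr
      refine ⟨i, hi, ?_⟩
      rw [eb_eq, rel_eq_two E hE]
      exact hb
  have hS : ∀ b, (∀ i : Fin 5, mb mask i →
      eb (prof4 (fun i => rel E (x i) b)) (rel E a b) i = 1) ↔ ∀ r ∈ R, E r b := by
    intro b
    constructor
    · intro h r hr
      obtain ⟨i, hi, rfl⟩ := (hR r).1 hr
      have := h i hi
      rw [eb_eq, rel_eq_one] at this
      exact this
    · intro h i hi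
      rw [eb_eq, rel_eq_one]
      exact h _ ((hR _).2 ⟨i, hi, rfl⟩)
  have hsum : ∑ b, lh6 C D mask (prof4 (fun i => rel E (x i) b)) (rel E a b) =
      ((D : ℤ) - C) * (Fintype.card V : ℤ) -
      (D : ℤ) * (Set.ncard {b | ∃ r ∈ R, E b r} : ℤ) -
      ((D : ℤ) - C) * (Set.ncard {b | ∀ r ∈ R, E r b} : ℤ) := by
    unfold lh6
    rw [Finset.sum_sub_distrib, Finset.sum_sub_distrib]
    rw [sum_if_ncard (fun b => ∃ i : Fin 5, mb mask i ∧
        eb (prof4 (fun i => rel E (x i) b)) (rel E a b) i = 2),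
      sum_if_ncard (fun b => ∀ i : Fin 5, mb mask i →
        eb (prof4 (fun i => rel E (x i) b)) (rel E a b) i = 1)]
    simp only [hN, hS]
    simp
    ring
  rw [hsum]
  linarith

omit [DecidableEq V] in
lemma deg6_nonneg (C D : ℕ)
    (hdeg : ∀ u : V, C * Fintype.card V ≤ D * (Finset.univ.filter (fun v => E u v)).card)
    (x : Fin 4 → V) (a : V) (m : Fin 5 → ℕ) :
    0 ≤ ∑ b, deg6 C D m (prof4 (fun i => rel E (x i) b)) (rel E a b) := by
  unfold deg6
  rw [Finset.sum_comm]
  refine Finset.sum_nonneg (fun i _ => ?_)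
  simp only [eb_eq]
  exact deg_row_nonneg E C D hdeg (m i) (y5 x a i)

/-- THE ROOT SUM OF THE CERTIFICATE IS NONNEGATIVE (symmetrised table). -/
theorem pos6 (hE : ∀ u v, E u v → ¬ E v u) (C D : ℕ)
    (hdeg : ∀ u : V, C * Fintype.card V ≤ D * (Finset.univ.filter (fun v => E u v)).card)
    (x : Fin 4 → V) (L : List (ℕ → ℤ)) (m : ℕ → Fin 5 → ℕ)
    (lh : ℕ → List (ℕ × Fin 5 × ℕ)) (X : ℕ → ℕ → ℕ → ℤ)
    (hlh : ∀ f, f < 81 → ∀ q ∈ lh f, Hered E C D ∧
      okz6 (code4 (fun i j => rel E (x i) (x j))) f q.1 q.2.1)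
    (hX : 0 ≤ ∑ a : V, ∑ b : V, X (prof4 (fun i => rel E (x i) a))
      (prof4 (fun i => rel E (x i) b)) (rel E a b))
    (W : ℕ → ℕ → ℕ → ℤ)
    (hW : ∀ f g r, f < 81 → g < 81 → r < 3 →
      Wval6 C D L m lh X f g r + Wval6 C D L m lh X g f (inv r) ≤ W f g r) :
    0 ≤ ∑ a : V, ∑ b : V, W (prof4 (fun i => rel E (x i) a))
      (prof4 (fun i => rel E (x i) b)) (rel E a b) := by
  have h0 : 0 ≤ ∑ a : V, ∑ b : V, Wval6 C D L m lh X (prof4 (fun i => rel E (x i) a))
      (prof4 (fun i => rel E (x i) b)) (rel E a b) := by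
    unfold Wval6
    simp only [Finset.sum_add_distrib]
    have h1 := sq_nonneg' L (fun a : V => prof4 (fun i => rel E (x i) a))
    have h2 : 0 ≤ ∑ a : V, ∑ b : V, deg6 C D (m (prof4 (fun i => rel E (x i) a)))
        (prof4 (fun i => rel E (x i) b)) (rel E a b) :=
      Finset.sum_nonneg (fun a _ => deg6_nonneg E C D hdeg x a _)
    have h3 : 0 ≤ ∑ a : V, ∑ b : V, ((lh (prof4 (fun i => rel E (x i) a))).map
        (fun q => (q.2.2 : ℤ) * lh6 C D q.1 (prof4 (fun i => rel E (x i) b))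
          (rel E a b))).sum := by
      refine Finset.sum_nonneg (fun a _ => ?_)
      have hl := hlh (prof4 (fun i => rel E (x i) a)) (prof_lt _ (fun i => rel_lt E _ _))
      generalize lh (prof4 (fun i => rel E (x i) a)) = l at hl
      induction l with
      | nil => simp
      | cons q l ih =>
        simp only [List.map_cons, List.sum_cons, Finset.sum_add_distrib]
        have g1 := hl q (by simp)
        have g2 := ih (fun q hq => hl q (by simp [hq]))
        have g3 := lh6_nonneg E hE C D g1.1 x a q.1 q.2.1 g1.2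
        rw [← Finset.mul_sum]
        have : (0 : ℤ) ≤ q.2.2 := by positivity
        have := mul_nonneg this g3
        linarith
    linarith
  have h2 : ∑ a : V, ∑ b : V, Wval6 C D L m lh X (prof4 (fun i => rel E (x i) b))
      (prof4 (fun i => rel E (x i) a)) (rel E b a) =
      ∑ a : V, ∑ b : V, Wval6 C D L m lh X (prof4 (fun i => rel E (x i) a))
      (prof4 (fun i => rel E (x i) b)) (rel E a b) := Finset.sum_comm
  have h3 : ∑ a : V, ∑ b : V, (Wval6 C D L m lh X (prof4 (fun i => rel E (x i) a))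
      (prof4 (fun i => rel E (x i) b)) (rel E a b) +
      Wval6 C D L m lh X (prof4 (fun i => rel E (x i) b))
      (prof4 (fun i => rel E (x i) a)) (rel E b a)) ≤
      ∑ a : V, ∑ b : V, W (prof4 (fun i => rel E (x i) a))
      (prof4 (fun i => rel E (x i) b)) (rel E a b) := by
    refine Finset.sum_le_sum (fun a _ => Finset.sum_le_sum (fun b _ => ?_))
    rw [rel_inv E hE a b]
    exact hW _ _ _ (prof_lt _ (fun i => rel_lt E _ _)) (prof_lt _ (fun i => rel_lt E _ _))
      (rel_lt E a b)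
  simp only [Finset.sum_add_distrib] at h3
  rw [h2] at h3
  linarith

end

end Pool.Agent.CH6
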