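import Pool.Agent.Helper93_CH6.Gen6
import Pool.Agent.Helper99_CHN.Nest

/-!
Certificates with nested rows.
-/

set_option autoImplicit false

namespace Pool.Agent.CH6

open Pool.Agent.CH

section Rows

/-- value of a nested row plus the offset -/
def nsP (A E M Q mask n : ℕ) : ℕ :=
  Nat.add (Nat.mul (Nat.sub 1 (c1 mask n)) (Nat.add (Nat.mul A (Nat.sub 1 (td n 81))) E))
    (Nat.mul (Nat.sub 1 (Nat.sub 1 (c1 mask n))) (Nat.add (Nat.mul (Nat.sub 1 (c2 mask n)) Q)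
      (Nat.mul (Nat.sub 1 (Nat.sub 1 (c2 mask n))) M)))

/-- pattern of a nested row -/
noncomputable def patN (l : ℕ × ℕ × ℕ × ℕ × ℕ) (mask : ℕ) : ℕ :=
  lit l.1 (fun A => lit l.2.1 (fun E => lit l.2.2.1 (fun M => lit l.2.2.2.1 (fun Q =>
    pkN (fun n => nsP A E M Q mask n) 243))))

/-- packed indicator of the common outneighbourhood of the roots of the mask -/
noncomputable def indS (mask : ℕ) : ℕ := pkN (fun f => Nat.sub 1 (c1 mask f)) 81

/-- a row from its kind and its weights, nested rows -/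
noncomputable def nrow (ln : ℕ → ℕ × ℕ × ℕ × ℕ × ℕ) (q : ℕ × ℕ) : ℕ × ℕ × ℕ :=
  (Nat.mul q.2 (lit (Nat.mod q.1 16) (fun mask => indS mask)),
    lit (Nat.div (Nat.sub q.1 64) 16) (fun i => lit (Nat.mod q.1 16) (fun mask =>
      patN (ln i) mask)),
    lit (Nat.div (Nat.sub q.1 64) 16) (fun i => (ln i).2.2.2.2))

/-- a row from its kind and its weights -/
noncomputable def mkrowN (C D : ℕ) (ln : ℕ → ℕ × ℕ × ℕ × ℕ × ℕ) (q : ℕ × ℕ) : ℕ × ℕ × ℕ :=
  Bool.rec (motive := fun _ => ℕ × ℕ × ℕ) (mkrow C D q) (nrow ln q) (Nat.ble 64 q.1)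

/-- rows from kinds and weights -/
noncomputable def mapN (C D : ℕ) (ln : ℕ → ℕ × ℕ × ℕ × ℕ × ℕ) (l : List (ℕ × ℕ)) :
    List (ℕ × ℕ × ℕ) :=
  List.rec (motive := fun _ => List (ℕ × ℕ × ℕ)) [] (fun q _ ih => mkrowN C D ln q :: ih) l

/-- a nested row is allowed -/
def okn (nl k : ℕ) : Bool :=
  Nat.ble 64 k && (Nat.ble (Nat.succ k) (Nat.add 64 (Nat.mul 16 nl)) &&
    Nat.ble 1 (Nat.mod k 16))

/-- check of the kinds -/
noncomputable def okQN (t nl : ℕ) (l : List (ℕ × ℕ)) : Bool :=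
  List.rec (motive := fun _ => Bool) true (fun q _ ih => (Nat.ble q.1 4 ||
    ((Nat.ble 9 q.1 && (Nat.ble q.1 39 && okw t q.2 (Nat.sub q.1 8) 81)) || okn nl q.1)) &&
      ih) l

/-- a good kind -/
def goodN (t nl : ℕ) (q : ℕ × ℕ) : Prop :=
  (q.1 < 64 ∧ goodQ t q) ∨ ∃ i mask, i < nl ∧ 0 < mask ∧ mask < 16 ∧ q.1 = 64 + 16 * i + mask

lemma okQN_spec (t nl : ℕ) (l : List (ℕ × ℕ)) (h : okQN t nl l = true) :
    ∀ q ∈ l, goodN t nl q := by
  induction l with
  | nil => intro q hq; simp at hq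
  | cons a l ih =>
    have h' : ((Nat.ble a.1 4 || ((Nat.ble 9 a.1 && (Nat.ble a.1 39 &&
      okw t a.2 (Nat.sub a.1 8) 81)) || okn nl a.1)) && okQN t nl l) = true := h
    rw [Bool.and_eq_true, Bool.or_eq_true, Bool.or_eq_true, Bool.and_eq_true,
      Bool.and_eq_true] at h'
    intro q hq
    rcases List.mem_cons.1 hq with rfl | hq
    · rcases h'.1 with h1 | ⟨h1, h2, h3⟩ | h1
      · left
        have := Nat.le_of_ble_eq_true h1
        exact ⟨by omega, Or.inl this⟩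
      · left
        have h4 := Nat.le_of_ble_eq_true h1
        have h5 := Nat.le_of_ble_eq_true h2
        exact ⟨by omega, Or.inr ⟨h4, h5, fun f hf => okw_spec t q.2 (q.1 - 8) 81 h3 f hf⟩⟩
      · right
        unfold okn at h1
        rw [Bool.and_eq_true, Bool.and_eq_true] at h1
        obtain ⟨a1, a2, a3⟩ := h1
        have b1 : 64 ≤ q.1 := Nat.le_of_ble_eq_true a1
        have b2 : q.1 + 1 ≤ 64 + 16 * nl := Nat.le_of_ble_eq_true a2
        have b3 : 1 ≤ q.1 % 16 := Nat.le_of_ble_eq_true a3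
        exact ⟨(q.1 - 64) / 16, q.1 % 16, by omega, by omega, by omega, by omega⟩
    · exact ih h'.2 q hq

lemma mem_mapN (C D : ℕ) (ln : ℕ → ℕ × ℕ × ℕ × ℕ × ℕ) (l : List (ℕ × ℕ)) (ρ : ℕ × ℕ × ℕ)
    (h : ρ ∈ mapN C D ln l) : ∃ q ∈ l, ρ = mkrowN C D ln q := by
  induction l with
  | nil =>
    have : mapN C D ln [] = [] := rfl
    rw [this] at h
    simp at h
  | cons a l ih =>
    have h' : mapN C D ln (a :: l) = mkrowN C D ln a :: mapN C D ln l := rfl
    rw [h'] at h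
    rcases List.mem_cons.1 h with h1 | h1
    · exact ⟨a, by simp, h1⟩
    · obtain ⟨q, hq, h2⟩ := ih h1
      exact ⟨q, by simp [hq], h2⟩

lemma mkrowN_lt (C D : ℕ) (ln : ℕ → ℕ × ℕ × ℕ × ℕ × ℕ) (q : ℕ × ℕ) (hq : q.1 < 64) :
    mkrowN C D ln q = (q.2, patK C D q.1, C) := by
  unfold mkrowN
  have : Nat.ble 64 q.1 = false := by
    rw [Bool.eq_false_iff]
    intro h
    have := Nat.le_of_ble_eq_true h
    omega
  rw [this]
  show mkrow C D q = _
  unfold mkrow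
  rw [lit_eq]

lemma mkrowN_ge (C D : ℕ) (ln : ℕ → ℕ × ℕ × ℕ × ℕ × ℕ) (q : ℕ × ℕ) (i mask : ℕ)
    (hm : mask < 16) (hq : q.1 = 64 + 16 * i + mask) :
    mkrowN C D ln q = (q.2 * indS mask, patN (ln i) mask, (ln i).2.2.2.2) := by
  unfold mkrowN
  have : Nat.ble 64 q.1 = true := Nat.ble_eq_true_of_le (by omega)
  rw [this]
  show nrow ln q = _
  unfold nrow
  have h1 : Nat.mod q.1 16 = mask := by
    show q.1 % 16 = mask
    omega
  have h2 : Nat.div (Nat.sub q.1 64) 16 = i := by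
    show (q.1 - 64) / 16 = i
    omega
  rw [h1, h2, lit_eq, lit_eq, lit_eq, lit_eq]
  rfl

theorem fact_ns' : ∀ mask : Fin 15, ∀ n : Fin 243,
    (Nat.sub 1 (c1 (mask + 1) n) = if inS4 (mask + 1) (n % 81) then 1 else 0) ∧
    (Nat.sub 1 (c2 (mask + 1) n) = if inN4 (mask + 1) (n % 81) then 0 else 1) ∧
    (Nat.sub 1 (td n 81) = if (n : ℕ) / 81 = 0 then 1 else 0) ∧
    ¬ (inS4 (mask + 1) (n % 81) ∧ inN4 (mask + 1) (n % 81)) := by
  decide +kernel

theorem fact_ns (mask : ℕ) (hm : mask < 16) (hm0 : 0 < mask) (n : ℕ) (hn : n < 243) :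
    (Nat.sub 1 (c1 mask n) = if inS4 mask (n % 81) then 1 else 0) ∧
    (Nat.sub 1 (c2 mask n) = if inN4 mask (n % 81) then 0 else 1) ∧
    (Nat.sub 1 (td n 81) = if n / 81 = 0 then 1 else 0) ∧
    ¬ (inS4 mask (n % 81) ∧ inN4 mask (n % 81)) := by
  have h := fact_ns' ⟨mask - 1, by omega⟩ ⟨n, hn⟩
  have e : mask - 1 + 1 = mask := by omega
  simp only [e] at h
  exact h

/-- the data of a line -/
structure LineOk (C D : ℕ) (l : ℕ × ℕ × ℕ × ℕ × ℕ) (a' b' : ℤ) : Prop where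
  A : l.1 < 2 ^ 30
  E : (l.2.1 : ℤ) = l.2.2.2.2 - a' - b' * C
  M : (l.2.2.1 : ℤ) = l.2.2.2.2 - b' * C
  Q : (l.2.2.2.1 : ℤ) = l.2.2.2.2 - b' * (C - D)
  hE : l.2.1 < 2 ^ 30
  hM : l.2.2.1 < 2 ^ 30
  hQ : l.2.2.2.1 < 2 ^ 30
  L : Line C D l.1 a' b'

lemma nsP_eq (C D A E M Q off mask n : ℕ) (a' b' : ℤ) (hE : (E : ℤ) = off - a' - b' * C)
    (hM : (M : ℤ) = off - b' * C) (hQ : (Q : ℤ) = off - b' * (C - D))
    (hm : mask < 16) (hm0 : 0 < mask) (hn : n < 243) :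
    (nsP A E M Q mask n : ℤ) - off = nsV C D A a' b' mask (n % 81) (n / 81) := by
  obtain ⟨h1, h2, h3, h4⟩ := fact_ns mask hm hm0 n hn
  have e : nsP A E M Q mask n = Nat.sub 1 (c1 mask n) * (A * Nat.sub 1 (td n 81) + E) +
    Nat.sub 1 (Nat.sub 1 (c1 mask n)) * (Nat.sub 1 (c2 mask n) * Q +
      Nat.sub 1 (Nat.sub 1 (c2 mask n)) * M) := rfl
  rw [e, h1, h2, h3]
  unfold nsV
  by_cases ha : inS4 mask (n % 81)
  · have hb : ¬ inN4 mask (n % 81) := fun hb => h4 ⟨ha, hb⟩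
    rw [if_pos ha, if_neg hb, if_pos ha, if_pos ha, if_neg hb]
    by_cases hr : n / 81 = 0
    · rw [if_pos hr, if_pos hr]
      simp
      rw [hE]
      ring
    · rw [if_neg hr, if_neg hr]
      simp
      rw [hE]
      ring
  · rw [if_neg ha, if_neg ha, if_neg ha]
    by_cases hb : inN4 mask (n % 81)
    · rw [if_pos hb, if_pos hb]
      simp
      rw [hM]
      ring
    · rw [if_neg hb, if_neg hb]
      simp
      rw [hQ]
      ring

lemma nsP_lt (A E M Q mask n : ℕ) (hA : A < 2 ^ 30) (hE : E < 2 ^ 30) (hM : M < 2 ^ 30)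
    (hQ : Q < 2 ^ 30) (hm : mask < 16) (hm0 : 0 < mask) (hn : n < 243) :
    nsP A E M Q mask n < BB := by
  obtain ⟨h1, h2, h3, h4⟩ := fact_ns mask hm hm0 n hn
  have e : nsP A E M Q mask n = Nat.sub 1 (c1 mask n) * (A * Nat.sub 1 (td n 81) + E) +
    Nat.sub 1 (Nat.sub 1 (c1 mask n)) * (Nat.sub 1 (c2 mask n) * Q +
      Nat.sub 1 (Nat.sub 1 (c2 mask n)) * M) := rfl
  rw [e, h1, h2, h3]
  unfold BB
  split_ifs <;> simp <;> omega

lemma vd_patN (l : ℕ × ℕ × ℕ × ℕ × ℕ) (C D : ℕ) (a' b' : ℤ) (h : LineOk C D l a' b')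
    (mask : ℕ) (hm : mask < 16) (hm0 : 0 < mask) (n : ℕ) (hn : n < 243) :
    (vd (patN l mask) n : ℤ) - l.2.2.2.2 = nsV C D l.1 a' b' mask (n % 81) (n / 81) := by
  have e : patN l mask = pkN (fun n => nsP l.1 l.2.1 l.2.2.1 l.2.2.2.1 mask n) 243 := rfl
  rw [e, pkN_eq, vd_pk 243 _ n _ hn]
  · exact nsP_eq C D l.1 l.2.1 l.2.2.1 l.2.2.2.1 l.2.2.2.2 mask n a' b' h.E h.M h.Q hm hm0 hn
  · intro i hi
    exact nsP_lt _ _ _ _ _ _ h.A h.hE h.hM h.hQ hm hm0 hi

lemma indS_eq (mask : ℕ) (hm : mask < 16) (hm0 : 0 < mask) :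
    indS mask = pk 81 (fun f => if inS4 mask f then 1 else 0) := by
  unfold indS
  rw [pkN_eq]
  refine pk_congr (fun f hf => ?_)
  have h := (fact_ns mask hm hm0 f (by omega)).1
  rw [Nat.mod_eq_of_lt hf] at h
  exact h

lemma vd_indS (w mask : ℕ) (hw : w < BB) (hm : mask < 16) (hm0 : 0 < mask) (f : ℕ)
    (hf : f < 81) : vd (w * indS mask) f = w * (if inS4 mask f then 1 else 0) := by
  rw [indS_eq mask hm hm0, pk_mul]
  refine vd_pk 81 _ f (fun i _ => ?_) hf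
  split_ifs
  · simpa using hw
  · simpa using BB_pos

variable {V : Type} [Fintype V] [DecidableEq V]

omit [DecidableEq V] in
lemma RS_mk (E : V → V → Prop) [DecidableRel E] (x : Fin 4 → V) (α p o : ℕ) :
    RS E x (α, p, o) = ∑ a : V, ∑ b : V, (vd α (prof4 (fun i => rel E (x i) a)) : ℤ) *
      ((vd p (81 * rel E a b + prof4 (fun i => rel E (x i) b)) : ℤ) - o) := rfl

/-- nested rows are sound -/
theorem RS_nest (E : V → V → Prop) [DecidableRel E] (hE : ∀ u v, E u v → ¬ E v u)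
    (h3 : ∀ u v w, E u v → E v w → ¬ E w u) (C D : ℕ)
    (hdeg : ∀ u : V, C * Fintype.card V ≤ D * (Finset.univ.filter (fun v => E u v)).card)
    (hmin : MinS E C D) (l : ℕ × ℕ × ℕ × ℕ × ℕ) (a' b' : ℤ) (hl : LineOk C D l a' b')
    (x : Fin 4 → V) (w : ℕ) (hw : w < BB) (mask : ℕ) (hm : mask < 16) (hm0 : 0 < mask) :
    0 ≤ RS E x (w * indS mask, patN l mask, l.2.2.2.2) := by
  have hi0 : ∃ i0 : Fin 4, mask / 2 ^ (i0 : ℕ) % 2 = 1 := by
    have : ∀ m : Fin 15, ∃ i0 : Fin 4, (m + 1 : ℕ) / 2 ^ (i0 : ℕ) % 2 = 1 := by decide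
    obtain ⟨i0, h⟩ := this ⟨mask - 1, by omega⟩
    refine ⟨i0, ?_⟩
    have e : mask - 1 + 1 = mask := by omega
    simp only [e] at h
    exact h
  obtain ⟨i0, hi0⟩ := hi0
  have h := nest_nonneg E hE h3 C D hdeg hmin l.1 a' b' hl.L x mask i0 hi0
  rw [RS_mk]
  have hidx : ∀ a b : V, 81 * rel E a b + prof4 (fun i => rel E (x i) b) < 243 ∧
      (81 * rel E a b + prof4 (fun i => rel E (x i) b)) % 81 = prof4 (fun i => rel E (x i) b) ∧
      (81 * rel E a b + prof4 (fun i => rel E (x i) b)) / 81 = rel E a b := by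
    intro a b
    have h1 := rel_lt E a b
    have h2 := prof_lt (fun i => rel E (x i) b) (fun i => rel_lt E _ _)
    omega
  have hv : ∀ a b : V, (vd (w * indS mask) (prof4 (fun i => rel E (x i) a)) : ℤ) *
      ((vd (patN l mask) (81 * rel E a b + prof4 (fun i => rel E (x i) b)) : ℤ) - l.2.2.2.2) =
      w * ((if inS4 mask (prof4 (fun i => rel E (x i) a)) then (1 : ℤ) else 0) *
      nsV C D l.1 a' b' mask (prof4 (fun i => rel E (x i) b)) (rel E a b)) := by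
    intro a b
    obtain ⟨h1, h2, h4⟩ := hidx a b
    rw [vd_patN l C D a' b' hl mask hm hm0 _ h1, h2, h4, vd_indS w mask hw hm hm0 _
      (prof_lt (fun i => rel E (x i) a) (fun i => rel_lt E _ _))]
    push_cast
    ring
  rw [Finset.sum_congr rfl (fun a _ => Finset.sum_congr rfl (fun b _ => hv a b)),
    Finset.sum_congr rfl (fun a _ => (Finset.mul_sum _ _ _).symm), ← Finset.mul_sum]
  exact mul_nonneg (by positivity) h

end Rows

/-- the scalar weights of nested rows are in range -/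
noncomputable def okL (l : List (ℕ × ℕ)) : Bool :=
  List.rec (motive := fun _ => Bool) true (fun q _ ih => (Nat.ble q.1 63 ||
    Nat.ble (Nat.succ q.2) BB) && ih) l

lemma okL_spec (l : List (ℕ × ℕ)) (h : okL l = true) : ∀ q ∈ l, 64 ≤ q.1 → q.2 < BB := by
  induction l with
  | nil => intro q hq; simp at hq
  | cons a l ih =>
    have h' : ((Nat.ble a.1 63 || Nat.ble (Nat.succ a.2) BB) && okL l) = true := h
    rw [Bool.and_eq_true, Bool.or_eq_true] at h'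
    intro q hq h64
    rcases List.mem_cons.1 hq with rfl | hq
    · rcases h'.1 with h1 | h1
      · have := Nat.le_of_ble_eq_true h1
        omega
      · exact Nat.le_of_ble_eq_true h1
    · exact ih h'.2 q hq h64

/-- lookup in a list of lists -/
def nthL {α : Type} (l : List (List α)) : ℕ → List α :=
  List.rec (motive := fun _ => ℕ → List α) (fun _ => [])
    (fun a _ ih n => Nat.rec (motive := fun _ => List α) a (fun m _ => ih m) n) l

/-- range checks of a certificate -/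
structure DataN (C D : ℕ) (nl : ℕ) (ln : ℕ → ℕ × ℕ × ℕ × ℕ × ℕ) (L : ℕ → List ℕ)
    (Q : ℕ → List (ℕ × ℕ)) (P : ℕ → List ℕ) : Prop where
  hC : C < 65536
  hD : D < 65536
  v : ∀ i, i < 32 → okV 81 (L i) = true
  nv : ∀ i, i < 32 → (L i).length ≤ 128
  r : ∀ i, i < 32 → okR (mapN C D ln (Q i)) = true
  q : ∀ i, i < 32 → okQN (rep i) nl (Q i) = true
  w : ∀ i, i < 32 → okL (Q i) = true
  nr : ∀ i, i < 32 → (Q i).length ≤ 128
  p : ∀ τ, τ < 2 → okV 128 (P τ) = true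
  np : ∀ τ, τ < 2 → (P τ).length ≤ 128

lemma length_mapN (C D : ℕ) (ln : ℕ → ℕ × ℕ × ℕ × ℕ × ℕ) (l : List (ℕ × ℕ)) :
    (mapN C D ln l).length = l.length := by
  induction l with
  | nil => rfl
  | cons a l ih =>
    have h' : mapN C D ln (a :: l) = mkrowN C D ln a :: mapN C D ln l := rfl
    rw [h', List.length_cons, List.length_cons, ih]

/-- THE THEOREM for general certificates with nested rows. -/
theorem all_of_certN (C D nl : ℕ) (ln : ℕ → ℕ × ℕ × ℕ × ℕ × ℕ)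
    (hln : ∀ i, i < nl → ∃ a' b' : ℤ, LineOk C D (ln i) a' b')
    (L : ℕ → List ℕ) (Q : ℕ → List (ℕ × ℕ)) (P : ℕ → List ℕ)
    (h : DataN C D nl ln L Q P)
    (hchk : ∀ p ∈ R5L, chk (FB (rowC L (fun i => mapN C D ln (Q i))) (rowP P)) p = true)
    (V : Type) [Fintype V] [DecidableEq V] [Nonempty V] (E : V → V → Prop) [DecidableRel E]
    (hE : ∀ u v, E u v → ¬ E v u) (h3 : ∀ u v w, E u v → E v w → ¬ E w u) :
    ∃ u : V, D * (Finset.univ.filter (fun v => E u v)).card < C * Fintype.card V := by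
  have hok : OkC L (fun i => mapN C D ln (Q i)) :=
    ⟨fun i hi => okvs_of _ (h.v i hi), fun i hi => okR_spec _ (h.r i hi), h.nv,
      fun i hi => by rw [length_mapN]; exact h.nr i hi⟩
  have ht1 := tab1 L (fun i => mapN C D ln (Q i)) hok
  have ht2 := tab2_of P (fun τ hτ => okV_spec 128 _ (h.p τ hτ)) h.np
  refine induct' C D ?_ (Fintype.card V) V E rfl hE h3
  intro V _ _ _ E _ hE h3 hdeg hH hmin
  refine core6G E hE h3 (fun d => T6 (WC L (fun i => mapN C D ln (Q i))) d + T62 P d)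
    (fun d ρ => by rw [T6_comp, T62_comp]) ?_ R4 R5 comp4 comp5
    (fun d hd hR => negB _ _ ht1 P _ ht2 hchk d hd hR)
  refine exists_nonneg2 E _ P (fun x => pos_WC E hE L _ x (fun i hi hcode ρ hρ => ?_))
  obtain ⟨q, hq, rfl⟩ := mem_mapN C D ln (Q i) ρ hρ
  rcases okQN_spec _ _ _ (h.q i hi) q hq with ⟨h64, hg⟩ | ⟨j, mask, hj, hm0, hm, hq1⟩
  · rw [mkrowN_lt C D ln q h64]
    refine RS_row E hE C D h.hC h.hD hdeg hH x q ?_
    rw [hcode]
    exact hg
  · rw [mkrowN_ge C D ln q j mask hm hq1]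
    obtain ⟨a', b', hl⟩ := hln j hj
    exact RS_nest E hE h3 C D hdeg hmin (ln j) a' b' hl x q.2 (okL_spec _ (h.w i hi) q hq (by omega))
      mask hm hm0

end Pool.Agent.CH6
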