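import Pool.Agent.Helper93_CH6.Eval6

/-!
Permutations of four points, matrices of codes, and the sum over all orderings.
-/

set_option autoImplicit false

namespace Pool.Agent.CH6

open Pool.Agent.CH

/-- value of the `s`-th permutation of four points -/
def pf (s : ℕ) (x : Fin 4) : Fin 4 := ⟨(PFL / 4 ^ (4 * s + x)) % 4, Nat.mod_lt _ (by norm_num)⟩

/-- index of the inverse -/
def pinv (s : ℕ) : ℕ := (PIL / 256 ^ s) % 256

theorem pf_left : ∀ s : Fin 24, ∀ x : Fin 4, pf (pinv s) (pf s x) = x := by decide +kernel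

theorem pf_right : ∀ s : Fin 24, ∀ x : Fin 4, pf s (pf (pinv s) x) = x := by decide +kernel

/-- the `s`-th permutation of four points -/
def pm (s : Fin 24) : Equiv.Perm (Fin 4) := ⟨pf s, pf (pinv s), pf_left s, pf_right s⟩

theorem pf_inj : ∀ a b : Fin 24, (∀ x : Fin 4, pf a x = pf b x) → a = b := by decide +kernel

theorem pm_bij : Function.Bijective pm := by
  rw [Fintype.bijective_iff_injective_and_card]
  refine ⟨fun a b h => pf_inj a b (fun x => ?_), ?_⟩
  · exact congrArg (fun σ : Equiv.Perm (Fin 4) => σ x) h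
  · rw [Fintype.card_perm]
    rfl

lemma sum_perm (F : Equiv.Perm (Fin 4) → ℤ) : ∑ σ, F σ = ∑ s : Fin 24, F (pm s) :=
  (Fintype.sum_bijective pm pm_bij _ _ (fun _ => rfl)).symm

/-- the matrix of a code -/
def mat (c : ℕ) (i j : Fin 4) : ℕ :=
  if i = j then 0 else if i < j then c / 3 ^ ((j : ℕ) * ((j : ℕ) - 1) / 2 + i) % 3
  else inv (c / 3 ^ ((i : ℕ) * ((i : ℕ) - 1) / 2 + j) % 3)

lemma eq_mat {e : Fin 4 → Fin 4 → ℕ} (he : Cfg e) : e = mat (code4 e) := by
  funext i j
  unfold mat
  by_cases hij : i = j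
  · rw [if_pos hij, hij]
    have h1 := he.anti j j
    have h2 := he.lt j j
    unfold inv at h1
    have : e j j = 0 ∨ e j j = 1 ∨ e j j = 2 := by omega
    rcases this with h | h | h
    · exact h
    · rw [h] at h1; simp at h1
    · rw [h] at h1; simp at h1
  · rw [if_neg hij]
    by_cases hlt : i < j
    · rw [if_pos hlt]
      exact (code_dg e he.lt i j hlt).symm
    · rw [if_neg hlt]
      have hgt : j < i := lt_of_le_of_ne (not_lt.1 hlt) (Ne.symm hij)
      rw [code_dg e he.lt j i hgt]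
      exact he.anti j i

lemma code4_lt {e : Fin 4 → Fin 4 → ℕ} (he : Cfg e) : code4 e < 729 := by
  have h01 := he.lt 0 1
  have h02 := he.lt 0 2
  have h12 := he.lt 1 2
  have h03 := he.lt 0 3
  have h13 := he.lt 1 3
  have h23 := he.lt 2 3
  unfold code4
  omega

/-- no directed triangle -/
def ok4 (c : ℕ) : Prop :=
  okT (mat c 0 1) (mat c 1 2) (mat c 0 2) ∧ okT (mat c 0 1) (mat c 1 3) (mat c 0 3) ∧
  okT (mat c 0 2) (mat c 2 3) (mat c 0 3) ∧ okT (mat c 1 2) (mat c 2 3) (mat c 1 3)

instance (c : ℕ) : Decidable (ok4 c) := by unfold ok4; infer_instance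

/-- the permuted code -/
def pc (c s : ℕ) : ℕ := code4 (fun i j => mat c (pf s i) (pf s j))

theorem fact_a : ∀ c < 729, ok4 c →
    ie c / 64 < 24 ∧ ie c % 64 < 32 ∧ pc c (ie c / 64) = rep (ie c % 64) := by decide +kernel

theorem fact_b : ∀ i : Fin 32, (List.range 24).filter (fun s => pc (rep i) s = rep i) =
    0 :: (List.range (an i)).map (au i) := by decide +kernel

theorem fact_b2 : ∀ i : Fin 32, ∀ s : Fin 24, R4 (pc (rep i) s) → pc (rep i) s = rep i := by
  decide +kernel

theorem fact_c : ∀ s : Fin 24, ∀ f : Fin 81,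
    prof4 (fun x => dg f (pf s x)) = pp (pt s) f := by decide +kernel

lemma prof_perm (s : Fin 24) (f : Fin 4 → ℕ) (hf : ∀ i, f i < 3) :
    prof4 (fun x => f (pf s x)) = pp (pt s) (prof4 f) := by
  have h := fact_c s ⟨prof4 f, prof_lt f hf⟩
  have e : ∀ x : Fin 4, dg (prof4 f) (pf s x) = f (pf s x) := fun x => dg_prof f hf (pf s x)
  simp only [e] at h
  exact h

theorem fact_d : ∀ f : Fin 81, pp (pt 0) f = f := by decide +kernel

lemma sum_range_list (n : ℕ) (x : ℕ → ℤ) :
    ∑ u ∈ Finset.range n, x u = ((List.range n).map x).sum := by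
  induction n with
  | zero => simp
  | succ n ih =>
    rw [Finset.sum_range_succ, ih, List.range_succ, List.map_append, List.sum_append]
    simp

lemma sum_filter_list (l : List ℕ) (p : ℕ → Prop) [DecidablePred p] (x : ℕ → ℤ) :
    (l.map (fun u => if p u then x u else 0)).sum =
      ((l.filter (fun u => decide (p u))).map x).sum := by
  induction l with
  | nil => simp
  | cons a l ih =>
    by_cases h : p a
    · simp [h, ih]
    · simp [h, ih]

/-- THE SUM OVER ALL ORDERINGS of four points is a sum over the automorphisms of the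
representative. -/
theorem coset_sum (W : ℕ → ℕ → ℕ → ℕ → ℤ) (F0 : ∀ t f g r, ¬ R4 t → W t f g r = 0)
    (e : Fin 4 → Fin 4 → ℕ) (he : Cfg e) (f g : Fin 4 → ℕ) (hf : ∀ i, f i < 3)
    (hg : ∀ i, g i < 3) (r c i s f' g' : ℕ) (hc : code4 e = c) (hi : ie c % 64 = i)
    (hs : ie c / 64 = s) (hf' : pp (pt s) (prof4 f) = f') (hg' : pp (pt s) (prof4 g) = g') :
    i < 32 ∧ f' < 81 ∧ g' < 81 ∧
    ∑ σ : Equiv.Perm (Fin 4), W (code4 (fun i j => e (σ i) (σ j))) (prof4 (fun i => f (σ i)))
      (prof4 (fun i => g (σ i))) r =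
    W (rep i) f' g' r + ((List.range (an i)).map (fun k => W (rep i) (pp (pt (au i k)) f')
      (pp (pt (au i k)) g') r)).sum := by
  have hlt := code4_lt he
  have hok : ok4 (code4 e) := by
    unfold ok4
    rw [← eq_mat he]
    exact ⟨he.ok 0 1 2, he.ok 0 1 3, he.ok 0 2 3, he.ok 1 2 3⟩
  obtain ⟨a1, a2, a3⟩ := fact_a (code4 e) hlt hok
  rw [hc, hs] at a1
  rw [hc, hi] at a2
  rw [hc, hs, hi] at a3
  -- the permuted data
  set S : Fin 24 := ⟨s, a1⟩ with hS
  have he' : Cfg (fun i j => e (pf s i) (pf s j)) := he.comp (pf s)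
  have hcode : code4 (fun i j => e (pf s i) (pf s j)) = rep i := by
    have : pc c s = code4 (fun i j => e (pf s i) (pf s j)) := by
      unfold pc
      rw [← hc, ← eq_mat he]
    rw [← this]
    exact a3
  have hpf : prof4 (fun x => f (pf s x)) = f' := by
    rw [← hf']
    exact prof_perm S f hf
  have hpg : prof4 (fun x => g (pf s x)) = g' := by
    rw [← hg']
    exact prof_perm S g hg
  refine ⟨a2, ?_, ?_, ?_⟩
  · rw [← hpf]; exact prof_lt _ (fun _ => hf _)
  · rw [← hpg]; exact prof_lt _ (fun _ => hg _)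
  rw [← Equiv.sum_comp (Equiv.mulLeft (pm S)) (fun σ : Equiv.Perm (Fin 4) =>
    W (code4 (fun i j => e (σ i) (σ j))) (prof4 (fun i => f (σ i)))
      (prof4 (fun i => g (σ i))) r)]
  rw [sum_perm]
  -- termwise
  have hmat : (fun i j => e (pf s i) (pf s j)) = mat (rep i) := by
    rw [eq_mat he', hcode]
  have hterm : ∀ u : Fin 24, W (code4 (fun i j => e ((pm S * pm u) i) ((pm S * pm u) j)))
      (prof4 (fun i => f ((pm S * pm u) i))) (prof4 (fun i => g ((pm S * pm u) i))) r =
      if pc (rep i) u = rep i then W (rep i) (pp (pt u) f') (pp (pt u) g') r else 0 := by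
    intro u
    have h1 : code4 (fun i j => e ((pm S * pm u) i) ((pm S * pm u) j)) = pc (rep i) u := by
      unfold pc
      rw [← hmat]
      rfl
    have h2 : prof4 (fun i => f ((pm S * pm u) i)) = pp (pt u) f' := by
      rw [← hpf]
      exact prof_perm u (fun x => f (pf s x)) (fun _ => hf _)
    have h3 : prof4 (fun i => g ((pm S * pm u) i)) = pp (pt u) g' := by
      rw [← hpg]
      exact prof_perm u (fun x => g (pf s x)) (fun _ => hg _)
    rw [h1, h2, h3]
    by_cases h : pc (rep i) u = rep i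
    · rw [if_pos h, h]
    · rw [if_neg h]
      exact F0 _ _ _ _ (fun h4 => h (fact_b2 ⟨i, a2⟩ u h4))
  have hsum : ∑ u : Fin 24, W (code4 (fun i j => e ((pm S * pm u) i) ((pm S * pm u) j)))
      (prof4 (fun i => f ((pm S * pm u) i))) (prof4 (fun i => g ((pm S * pm u) i))) r =
      ∑ u : Fin 24, (if pc (rep i) u = rep i then W (rep i) (pp (pt u) f') (pp (pt u) g') r
        else 0) := Finset.sum_congr rfl (fun u _ => hterm u)
  have hgoal : ∑ u : Fin 24, (fun σ : Equiv.Perm (Fin 4) =>
      W (code4 (fun i j => e (σ i) (σ j))) (prof4 (fun i => f (σ i)))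
      (prof4 (fun i => g (σ i))) r) (Equiv.mulLeft (pm S) (pm u)) =
      ∑ u : Fin 24, (if pc (rep i) u = rep i then W (rep i) (pp (pt u) f') (pp (pt u) g') r
        else 0) := hsum
  rw [hgoal]
  rw [Fin.sum_univ_eq_sum_range (fun u => if pc (rep i) u = rep i then
    W (rep i) (pp (pt u) f') (pp (pt u) g') r else 0) 24]
  rw [sum_range_list, sum_filter_list (List.range 24) (fun u => pc (rep i) u = rep i)
    (fun u => W (rep i) (pp (pt u) f') (pp (pt u) g') r)]
  have hb := fact_b ⟨i, a2⟩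
  have hb' : (List.range 24).filter (fun u => decide (pc (rep i) u = rep i)) =
    0 :: (List.range (an i)).map (au i) := hb
  rw [hb', List.map_cons, List.sum_cons, List.map_map]
  have hf81 : f' < 81 := by rw [← hpf]; exact prof_lt _ (fun _ => hf _)
  have hg81 : g' < 81 := by rw [← hpg]; exact prof_lt _ (fun _ => hg _)
  have d1 : pp (pt 0) f' = f' := fact_d ⟨f', hf81⟩
  have d2 : pp (pt 0) g' = g' := fact_d ⟨g', hg81⟩
  rw [d1, d2]
  rfl

end Pool.Agent.CH6
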