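import Pool.Agent.Helper93_CH6.Dec6

/-!
Reduction of the pointwise check to representatives on five vertices.
-/

set_option autoImplicit false

namespace Pool.Agent.CH6

open Pool.Agent.CH

/-- extend a permutation of the first `m` points by the identity -/
def ext {m k : ℕ} (σ : Equiv.Perm (Fin m)) : Equiv.Perm (Fin (m + k)) :=
  (finSumFinEquiv.symm.trans (Equiv.sumCongr σ (Equiv.refl (Fin k)))).trans finSumFinEquiv

lemma ext_castAdd {m k : ℕ} (σ : Equiv.Perm (Fin m)) (i : Fin m) :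
    (ext σ : Equiv.Perm (Fin (m + k))) (Fin.castAdd k i) = Fin.castAdd k (σ i) := by
  simp [ext]

lemma ext_natAdd {m k : ℕ} (σ : Equiv.Perm (Fin m)) (i : Fin k) :
    (ext σ : Equiv.Perm (Fin (m + k))) (Fin.natAdd m i) = Fin.natAdd m i := by
  simp [ext]

/-- first four points of a matrix on at least four points -/
def c46 (i : Fin 4) : Fin 6 := Fin.castAdd 2 i
/-- first five points -/
def c56 (i : Fin 5) : Fin 6 := Fin.castAdd 1 i
/-- first four of five points -/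
def c45 (i : Fin 4) : Fin 5 := Fin.castAdd 1 i

lemma c56_c45 (i : Fin 4) : c56 (c45 i) = c46 i := rfl

theorem core6 {V : Type*} [Fintype V] [Nonempty V] (E : V → V → Prop) [DecidableRel E]
    (hE : ∀ u v, E u v → ¬ E v u) (h3 : ∀ u v w, E u v → E v w → ¬ E w u)
    (W : ℕ → ℕ → ℕ → ℕ → ℤ)
    (hpos : ∀ x : Fin 4 → V, 0 ≤ ∑ a : V, ∑ b : V,
      W (code4 (fun i j => rel E (x i) (x j))) (prof4 (fun i => rel E (x i) a))
        (prof4 (fun i => rel E (x i) b)) (rel E a b))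
    (R4 : ℕ → Prop) (R5 : ℕ → ℕ → Prop)
    (c4 : ∀ d : Fin 4 → Fin 4 → ℕ, Cfg d →
      ∃ σ : Equiv.Perm (Fin 4), R4 (code4 (fun i j => d (σ i) (σ j))))
    (c5 : ∀ d : Fin 5 → Fin 5 → ℕ, Cfg d → R4 (code4 (fun i j => d (c45 i) (c45 j))) →
      ∃ π : Equiv.Perm (Fin 5), R5 (code4 (fun i j => d (π (c45 i)) (π (c45 j))))
        (prof4 (fun i => d (π (c45 i)) (π 4))))
    (hneg : ∀ d : Fin 6 → Fin 6 → ℕ, Cfg d →
      R5 (code4 (fun i j => d (c46 i) (c46 j))) (prof4 (fun i => d (c46 i) 4)) → T6 W d < 0) :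
    False := by
  obtain ⟨x, hx⟩ := exists_nonneg E W hpos
  have hc := cfg_rel E hE h3 x
  generalize (fun i j => rel E (x i) (x j)) = d at hx hc
  obtain ⟨σ, hσ⟩ := c4 (fun i j => d (c46 i) (c46 j)) (hc.comp c46)
  -- first permutation
  have h1 : ∀ i : Fin 4, (ext σ : Equiv.Perm (Fin (4 + 2))) (c46 i) = c46 (σ i) :=
    fun i => ext_castAdd σ i
  have hx1 := hx
  rw [← T6_comp W d (ext σ : Equiv.Perm (Fin (4 + 2)))] at hx1
  have hc1 := hc.comp (ext σ : Equiv.Perm (Fin (4 + 2)))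
  have hR1 : R4 (code4 (fun i j => d ((ext σ : Equiv.Perm (Fin (4 + 2))) (c46 i))
      ((ext σ : Equiv.Perm (Fin (4 + 2))) (c46 j)))) := by
    simp only [h1]
    exact hσ
  generalize hd1 : (fun i j => d ((ext σ : Equiv.Perm (Fin (4 + 2))) i)
    ((ext σ : Equiv.Perm (Fin (4 + 2))) j)) = d1 at hx1 hc1
  have hR1' : R4 (code4 (fun i j => d1 (c46 i) (c46 j))) := by
    rw [← hd1]; exact hR1
  -- second permutation
  obtain ⟨π, hπ⟩ := c5 (fun i j => d1 (c56 i) (c56 j)) (hc1.comp c56) hR1'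
  have h2 : ∀ i : Fin 5, (ext π : Equiv.Perm (Fin (5 + 1))) (c56 i) = c56 (π i) :=
    fun i => ext_castAdd π i
  have hx2 := hx1
  rw [← T6_comp W d1 (ext π : Equiv.Perm (Fin (5 + 1)))] at hx2
  have hc2 := hc1.comp (ext π : Equiv.Perm (Fin (5 + 1)))
  have h4 : (4 : Fin 6) = c56 4 := rfl
  have := hneg (fun i j => d1 ((ext π : Equiv.Perm (Fin (5 + 1))) i)
    ((ext π : Equiv.Perm (Fin (5 + 1))) j)) hc2 (by
      have e1 : ∀ i : Fin 4, (ext π : Equiv.Perm (Fin (5 + 1))) (c46 i) = c56 (π (c45 i)) :=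
        fun i => h2 (c45 i)
      have e2 : (ext π : Equiv.Perm (Fin (5 + 1))) 4 = c56 (π 4) := h2 4
      simp only [e1, e2]
      exact hπ)
  exact absurd hx2 (not_le.2 this)

end Pool.Agent.CH6
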