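import Pool.Agent.Helper93_CH6.Comp

/-!
Packed arithmetic: rows of the table computed from packed vectors.
-/

set_option autoImplicit false

namespace Pool.Agent.CH6

open Pool.Agent.CH

/-- base of the packed numbers, `2 ^ 96` -/
def BB : ℕ := 79228162514264337593543950336

/-- digit of a packed number -/
def vd (v j : ℕ) : ℕ := Nat.mod (Nat.shiftRight v (Nat.mul 96 j)) 79228162514264337593543950336

/-- packed number -/
def pk (n : ℕ) (x : ℕ → ℕ) : ℕ := ∑ j ∈ Finset.range n, x j * BB ^ j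

theorem BB_pos : 0 < BB := by unfold BB; norm_num

theorem BB_pow (j : ℕ) : BB ^ j = 2 ^ (96 * j) := by
  rw [pow_mul]
  rfl

theorem vd_eq (v j : ℕ) : vd v j = v / BB ^ j % BB := by
  show (v >>> (96 * j)) % 79228162514264337593543950336 = _
  rw [Nat.shiftRight_eq_div_pow, BB_pow]
  rfl

theorem vd_lt (v j : ℕ) : vd v j < BB := by
  rw [vd_eq]
  exact Nat.mod_lt _ BB_pos

lemma pk_zero (x : ℕ → ℕ) : pk 0 x = 0 := rfl

lemma pk_succ (n : ℕ) (x : ℕ → ℕ) : pk (n + 1) x = pk n x + x n * BB ^ n := by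
  unfold pk
  rw [Finset.sum_range_succ]

lemma pk_succ' (n : ℕ) (x : ℕ → ℕ) : pk (n + 1) x = x 0 + BB * pk n (fun j => x (j + 1)) := by
  unfold pk
  rw [Finset.sum_range_succ', Finset.mul_sum]
  rw [add_comm]
  congr 1
  · simp
  · refine Finset.sum_congr rfl (fun j _ => ?_)
    rw [pow_succ]
    ring

lemma pk_congr {n : ℕ} {x y : ℕ → ℕ} (h : ∀ j, j < n → x j = y j) : pk n x = pk n y := by
  unfold pk
  exact Finset.sum_congr rfl (fun j hj => by rw [h j (Finset.mem_range.1 hj)])

lemma pk_add (n : ℕ) (x y : ℕ → ℕ) : pk n x + pk n y = pk n (fun j => x j + y j) := by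
  unfold pk
  rw [← Finset.sum_add_distrib]
  exact Finset.sum_congr rfl (fun j _ => by ring)

lemma pk_mul (n c : ℕ) (x : ℕ → ℕ) : c * pk n x = pk n (fun j => c * x j) := by
  unfold pk
  rw [Finset.mul_sum]
  exact Finset.sum_congr rfl (fun j _ => by ring)

lemma pk_append (a b : ℕ) (x : ℕ → ℕ) :
    pk (a + b) x = pk a x + BB ^ a * pk b (fun j => x (a + j)) := by
  induction b with
  | zero => simp [pk_zero]
  | succ b ih =>
    rw [← add_assoc, pk_succ, ih, pk_succ, pow_add]
    ring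

theorem vd_pk (n : ℕ) : ∀ (x : ℕ → ℕ) (j : ℕ), (∀ i, i < n → x i < BB) → j < n →
    vd (pk n x) j = x j := by
  induction n with
  | zero => intro x j _ hj; omega
  | succ n ih =>
    intro x j hx hj
    rw [vd_eq, pk_succ']
    cases j with
    | zero =>
      rw [pow_zero, Nat.div_one, Nat.add_mul_mod_self_left]
      exact Nat.mod_eq_of_lt (hx 0 (by omega))
    | succ j =>
      rw [pow_succ', ← Nat.div_div_eq_div_mul, Nat.add_mul_div_left _ _ BB_pos,
        Nat.div_eq_of_lt (hx 0 (by omega)), zero_add]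
      have := ih (fun i => x (i + 1)) j (fun i hi => hx (i + 1) (by omega)) (by omega)
      rw [vd_eq] at this
      exact this

theorem pk_vd (n : ℕ) : ∀ v : ℕ, v < BB ^ n → v = pk n (vd v) := by
  induction n with
  | zero =>
    intro v hv
    rw [pow_zero] at hv
    rw [pk_zero]
    omega
  | succ n ih =>
    intro v hv
    rw [pk_succ']
    have h1 : v / BB < BB ^ n := by
      rw [Nat.div_lt_iff_lt_mul BB_pos, ← pow_succ]
      exact hv
    have h2 := ih (v / BB) h1
    have h3 : (fun j => vd v (j + 1)) = vd (v / BB) := by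
      funext j
      rw [vd_eq, vd_eq, pow_succ', Nat.div_div_eq_div_mul]
    rw [h3, ← h2, vd_eq, pow_zero, Nat.div_one]
    exact (Nat.mod_add_div v BB).symm

/-- kernel version of `pk` -/
noncomputable def pkN (F : ℕ → ℕ) (n : ℕ) : ℕ :=
  Nat.rec (motive := fun _ => ℕ) 0 (fun j ih => Nat.add ih (Nat.shiftLeft (F j) (Nat.mul 96 j))) n

lemma shl_eq (a j : ℕ) : Nat.shiftLeft a (Nat.mul 96 j) = a * BB ^ j := by
  show a <<< (96 * j) = _
  rw [Nat.shiftLeft_eq, BB_pow]

theorem pkN_eq (F : ℕ → ℕ) (n : ℕ) : pkN F n = pk n F := by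
  induction n with
  | zero => rfl
  | succ n ih =>
    rw [pk_succ, ← ih, ← shl_eq]
    rfl

/-- packed function of a profile and a relation -/
def pq (y : ℕ → ℕ → ℕ) : ℕ := pk 243 (fun j => y (j % 81) (j / 81))

lemma pq_split (y : ℕ → ℕ → ℕ) : pq y = pk 81 (fun g => y g 0) + BB ^ 81 * pk 81 (fun g => y g 1) +
    BB ^ 162 * pk 81 (fun g => y g 2) := by
  unfold pq
  have h1 := pk_append 81 162 (fun j => y (j % 81) (j / 81))
  have h2 := pk_append 81 81 (fun j => y ((81 + j) % 81) ((81 + j) / 81))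
  have e1 : pk 81 (fun j => y (j % 81) (j / 81)) = pk 81 (fun g => y g 0) :=
    pk_congr (fun j hj => by
      have a1 : j % 81 = j := by omega
      have a2 : j / 81 = 0 := by omega
      simp only [a1, a2])
  have e2 : pk 81 (fun j => y ((81 + j) % 81) ((81 + j) / 81)) = pk 81 (fun g => y g 1) :=
    pk_congr (fun j hj => by
      have a1 : (81 + j) % 81 = j := by omega
      have a2 : (81 + j) / 81 = 1 := by omega
      simp only [a1, a2])
  have e3 : pk 81 (fun j => y ((81 + (81 + j)) % 81) ((81 + (81 + j)) / 81)) =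
      pk 81 (fun g => y g 2) :=
    pk_congr (fun j hj => by
      have a1 : (81 + (81 + j)) % 81 = j := by omega
      have a2 : (81 + (81 + j)) / 81 = 2 := by omega
      simp only [a1, a2])
  have h2' : pk 162 (fun j => y ((81 + j) % 81) ((81 + j) / 81)) =
      pk 81 (fun g => y g 1) + BB ^ 81 * pk 81 (fun g => y g 2) := by
    rw [← e2, ← e3]
    exact h2
  have h1' : pk 243 (fun j => y (j % 81) (j / 81)) = pk 81 (fun g => y g 0) +
      BB ^ 81 * (pk 81 (fun g => y g 1) + BB ^ 81 * pk 81 (fun g => y g 2)) := by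
    rw [← e1, ← h2']
    exact h1
  rw [h1', show (162 : ℕ) = 81 + 81 from rfl, pow_add]
  ring

lemma pq_congr {x y : ℕ → ℕ → ℕ} (h : ∀ g r, g < 81 → r < 3 → x g r = y g r) : pq x = pq y := by
  unfold pq
  exact pk_congr (fun j hj => h _ _ (by omega) (by omega))

lemma pq_add (x y : ℕ → ℕ → ℕ) : pq x + pq y = pq (fun g r => x g r + y g r) := by
  unfold pq
  rw [pk_add]

lemma pq_mul (c : ℕ) (x : ℕ → ℕ → ℕ) : c * pq x = pq (fun g r => c * x g r) := by
  unfold pq
  rw [pk_mul]

lemma pq_outer (κ : ℕ → ℕ) (x : ℕ → ℕ) :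
    (κ 0 + κ 1 * BB ^ 81 + κ 2 * BB ^ 162) * pk 81 x = pq (fun g r => κ r * x g) := by
  rw [pq_split, ← pk_mul, ← pk_mul, ← pk_mul]
  ring

theorem vd_pq (y : ℕ → ℕ → ℕ) (hy : ∀ g r, g < 81 → r < 3 → y g r < BB) (g r : ℕ)
    (hg : g < 81) (hr : r < 3) : vd (pq y) (81 * r + g) = y g r := by
  unfold pq
  rw [vd_pk 243 _ _ (fun i hi => hy _ _ (by omega) (by omega)) (by omega)]
  have a1 : (81 * r + g) % 81 = g := by omega
  have a2 : (81 * r + g) / 81 = r := by omega
  rw [a1, a2]

end Pool.Agent.CH6
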