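import Pool.Agent.Helper93_CH6.Row6

/-!
The rows of the table: kernel functions and their digits.
-/

set_option autoImplicit false

namespace Pool.Agent.CH6

open Pool.Agent.CH

/-- sum of products with the packed vectors -/
noncomputable def sqs (vs : List ℕ) (f : ℕ) : ℕ :=
  List.rec (motive := fun _ => ℕ) 0 (fun v _ ih => Nat.add (Nat.mul (vd v f) v) ih) vs

/-- coefficient of the transposed part -/
def kap (P f : ℕ) : ℕ :=
  Nat.add (vd P f) (Nat.add (Nat.shiftLeft (vd P (Nat.add f 162)) (Nat.mul 96 81))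
    (Nat.shiftLeft (vd P (Nat.add f 81)) (Nat.mul 96 162)))

/-- linear rows -/
noncomputable def rws (rows : List (ℕ × ℕ × ℕ)) (f : ℕ) : ℕ :=
  List.rec (motive := fun _ => ℕ) 0 (fun ρ _ ih =>
    Nat.add (Nat.add (Nat.mul (vd ρ.1 f) ρ.2.1) (Nat.mul (kap ρ.2.1 f) ρ.1)) ih) rows

/-- sum of the packed vectors -/
noncomputable def smv (vs : List ℕ) : ℕ :=
  List.rec (motive := fun _ => ℕ) 0 (fun v _ ih => Nat.add v ih) vs

/-- sum of the packed weights times offsets -/
noncomputable def smr (rows : List (ℕ × ℕ × ℕ)) : ℕ :=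
  List.rec (motive := fun _ => ℕ) 0 (fun ρ _ ih => Nat.add (Nat.mul ρ.2.2 ρ.1) ih) rows

/-- the correction for the offsets -/
noncomputable def eta (vs : List ℕ) (rows : List (ℕ × ℕ × ℕ)) : ℕ :=
  Nat.add (Nat.mul 1099511627776 (smv vs)) (smr rows)

/-- all ones -/
noncomputable def JJ : ℕ := pkN (fun _ => 1) 243

/-- three copies -/
def J3 : ℕ := Nat.add 1 (Nat.add (Nat.shiftLeft 1 (Nat.mul 96 81)) (Nat.shiftLeft 1 (Nat.mul 96 162)))

/-- the row of a profile -/
noncomputable def rowv (K : ℕ) (vs : List ℕ) (rows : List (ℕ × ℕ × ℕ)) (f : ℕ) : ℕ :=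
  Nat.sub (Nat.add (Nat.mul K JJ) (Nat.add (Nat.mul J3 (Nat.mul 2 (sqs vs f))) (rws rows f)))
    (Nat.add (Nat.mul (vd (eta vs rows) f) JJ) (Nat.mul J3 (eta vs rows)))

/-- sum of the products -/
def SQ (vs : List ℕ) (f g : ℕ) : ℕ := (vs.map (fun v => vd v f * vd v g)).sum

/-- the linear part -/
def RW (rows : List (ℕ × ℕ × ℕ)) (f g r : ℕ) : ℕ :=
  (rows.map (fun ρ => vd ρ.1 f * vd ρ.2.1 (81 * r + g) +
    vd ρ.2.1 (81 * inv r + f) * vd ρ.1 g)).sum

/-- the correction -/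
def ET (vs : List ℕ) (rows : List (ℕ × ℕ × ℕ)) (g : ℕ) : ℕ :=
  1099511627776 * (vs.map (fun v => vd v g)).sum + (rows.map (fun ρ => ρ.2.2 * vd ρ.1 g)).sum

/-- the packed data are in range -/
def okvs (vs : List ℕ) : Prop := ∀ v ∈ vs, v < BB ^ 81 ∧ ∀ g, g < 81 → vd v g < 2 ^ 40

/-- the packed data are in range -/
def okrows (rows : List (ℕ × ℕ × ℕ)) : Prop :=
  ∀ ρ ∈ rows, ρ.1 < BB ^ 81 ∧ (∀ g, g < 81 → vd ρ.1 g < 2 ^ 64) ∧ ρ.2.1 < BB ^ 243 ∧
    (∀ j, j < 243 → vd ρ.2.1 j < 2 ^ 16) ∧ ρ.2.2 < 2 ^ 16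

lemma sqs_eq (vs : List ℕ) (hv : okvs vs) (f : ℕ) : sqs vs f = pk 81 (fun g => SQ vs f g) := by
  induction vs with
  | nil =>
    show 0 = _
    simp [SQ, pk]
  | cons v vs ih =>
    have h1 := ih (fun w hw => hv w (by simp [hw]))
    have h2 := pk_vd 81 v (hv v (by simp)).1
    have h3 : sqs (v :: vs) f = vd v f * v + sqs vs f := rfl
    rw [h3, h1]
    conv_lhs => rw [h2]
    rw [pk_mul, pk_add]
    refine pk_congr (fun g _ => ?_)
    simp only [SQ, List.map_cons, List.sum_cons]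
    rw [← h2]

lemma smv_eq (vs : List ℕ) (hv : okvs vs) :
    smv vs = pk 81 (fun g => (vs.map (fun v => vd v g)).sum) := by
  induction vs with
  | nil =>
    show 0 = _
    simp [pk]
  | cons v vs ih =>
    have h1 := ih (fun w hw => hv w (by simp [hw]))
    have h2 := pk_vd 81 v (hv v (by simp)).1
    have h3 : smv (v :: vs) = v + smv vs := rfl
    rw [h3, h1]
    conv_lhs => rw [h2]
    rw [pk_add]
    refine pk_congr (fun g _ => ?_)
    simp only [List.map_cons, List.sum_cons]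

lemma smr_eq (rows : List (ℕ × ℕ × ℕ)) (hr : okrows rows) :
    smr rows = pk 81 (fun g => (rows.map (fun ρ => ρ.2.2 * vd ρ.1 g)).sum) := by
  induction rows with
  | nil =>
    show 0 = _
    simp [pk]
  | cons ρ rows ih =>
    have h1 := ih (fun w hw => hr w (by simp [hw]))
    have h2 := pk_vd 81 ρ.1 (hr ρ (by simp)).1
    have h3 : smr (ρ :: rows) = ρ.2.2 * ρ.1 + smr rows := rfl
    rw [h3, h1]
    conv_lhs => rw [h2]
    rw [pk_mul, pk_add]
    refine pk_congr (fun g _ => ?_)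
    simp only [List.map_cons, List.sum_cons]

lemma eta_eq (vs : List ℕ) (rows : List (ℕ × ℕ × ℕ)) (hv : okvs vs) (hr : okrows rows) :
    eta vs rows = pk 81 (fun g => ET vs rows g) := by
  show 1099511627776 * smv vs + smr rows = _
  rw [smv_eq vs hv, smr_eq rows hr, pk_mul, pk_add]
  rfl

lemma kap_eq (P f : ℕ) : kap P f = vd P (81 * inv 0 + f) + vd P (81 * inv 1 + f) * BB ^ 81 +
    vd P (81 * inv 2 + f) * BB ^ 162 := by
  show vd P f + (Nat.shiftLeft (vd P (f + 162)) (Nat.mul 96 81) +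
    Nat.shiftLeft (vd P (f + 81)) (Nat.mul 96 162)) = _
  rw [shl_eq, shl_eq]
  have e0 : 81 * inv 0 + f = f := by simp [inv]
  have e1 : 81 * inv 1 + f = f + 162 := by simp [inv]; omega
  have e2 : 81 * inv 2 + f = f + 81 := by simp [inv]; omega
  rw [e0, e1, e2]
  ring

lemma rws_eq (rows : List (ℕ × ℕ × ℕ)) (hr : okrows rows) (f : ℕ) :
    rws rows f = pq (fun g r => RW rows f g r) := by
  induction rows with
  | nil =>
    show 0 = _
    simp [RW, pq, pk]
  | cons ρ rows ih =>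
    have h1 := ih (fun w hw => hr w (by simp [hw]))
    obtain ⟨a1, a2, a3, a4, a5⟩ := hr ρ (by simp)
    have h2 := pk_vd 81 ρ.1 a1
    have h2' := pk_vd 243 ρ.2.1 a3
    have h4 : ρ.2.1 = pq (fun g r => vd ρ.2.1 (81 * r + g)) := by
      conv_lhs => rw [h2']
      unfold pq
      refine pk_congr (fun j hj => ?_)
      have : 81 * (j / 81) + j % 81 = j := by omega
      show vd ρ.2.1 j = vd ρ.2.1 (81 * (j / 81) + j % 81)
      rw [this]
    have h3 : rws (ρ :: rows) f = (vd ρ.1 f * ρ.2.1 + kap ρ.2.1 f * ρ.1) + rws rows f := rfl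
    have h5 : kap ρ.2.1 f * ρ.1 = pq (fun g r => vd ρ.2.1 (81 * inv r + f) * vd ρ.1 g) := by
      rw [kap_eq]
      conv_lhs => rw [h2]
      exact pq_outer (fun r => vd ρ.2.1 (81 * inv r + f)) (vd ρ.1)
    have h6 : vd ρ.1 f * ρ.2.1 = pq (fun g r => vd ρ.1 f * vd ρ.2.1 (81 * r + g)) := by
      conv_lhs => rw [h4]
      rw [pq_mul]
    rw [h3, h1, h5, h6, pq_add, pq_add]
    refine pq_congr (fun g r _ _ => ?_)
    simp only [RW, List.map_cons, List.sum_cons]

lemma JJ_eq : JJ = pq (fun _ _ => 1) := by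
  unfold JJ pq
  rw [pkN_eq]

lemma J3_mul (x : ℕ → ℕ) : J3 * pk 81 x = pq (fun g _ => x g) := by
  have h : J3 = 1 + 1 * BB ^ 81 + 1 * BB ^ 162 := by
    show 1 + (Nat.shiftLeft 1 (Nat.mul 96 81) + Nat.shiftLeft 1 (Nat.mul 96 162)) = _
    rw [shl_eq, shl_eq]
    ring
  rw [h]
  have := pq_outer (fun _ => 1) x
  rw [this]
  simp

/-- THE DIGITS OF A ROW. -/
theorem vd_rowv (K : ℕ) (vs : List ℕ) (rows : List (ℕ × ℕ × ℕ)) (hv : okvs vs)
    (hr : okrows rows) (f : ℕ) (hf : f < 81)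
    (hlt : ∀ g r, g < 81 → r < 3 → K + 2 * SQ vs f g + RW rows f g r < BB)
    (hle : ∀ g, g < 81 → ET vs rows f + ET vs rows g ≤ K) (hE : ∀ g, g < 81 → ET vs rows g < BB)
    (g r : ℕ) (hg : g < 81) (hr3 : r < 3) :
    (vd (rowv K vs rows f) (81 * r + g) : ℤ) =
      K + 2 * SQ vs f g + RW rows f g r - ET vs rows f - ET vs rows g := by
  have h1 : rowv K vs rows f = (K * JJ + (J3 * (2 * sqs vs f) + rws rows f)) -
    (vd (eta vs rows) f * JJ + J3 * eta vs rows) := rfl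
  have h2 : vd (eta vs rows) f = ET vs rows f := by
    rw [eta_eq vs rows hv hr]
    exact vd_pk 81 _ f (fun i hi => hE i hi) hf
  rw [h2, JJ_eq, eta_eq vs rows hv hr, sqs_eq vs hv, rws_eq rows hr, pk_mul, J3_mul, J3_mul,
    pq_mul, pq_mul, pq_add, pq_add, pq_add] at h1
  have h3 : rowv K vs rows f = pq (fun g r => K + 2 * SQ vs f g + RW rows f g r -
      (ET vs rows f + ET vs rows g)) := by
    rw [h1]
    rw [Nat.sub_eq_iff_eq_add]
    · rw [pq_add]
      refine pq_congr (fun g r hg _ => ?_)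
      have := hle g hg
      omega
    · unfold pq pk
      refine Finset.sum_le_sum (fun j hj => Nat.mul_le_mul_right _ ?_)
      have := hle (j % 81) (by omega)
      simp only [mul_one]
      omega
  rw [h3, vd_pq _ (fun g r hg hr => by have := hlt g r hg hr; omega) g r hg hr3]
  have := hle g hg
  push_cast [Nat.cast_sub (show ET vs rows f + ET vs rows g ≤
    K + 2 * SQ vs f g + RW rows f g r by omega)]
  ring

end Pool.Agent.CH6
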