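import Pool.Agent.Helper93_CH6.Cert6

/-!
Degree rows and heredity rows in packed form, and the theorem for general certificates.
-/

set_option autoImplicit false

namespace Pool.Agent.CH6

open Pool.Agent.CH

section Patterns

/-- indicator of `1` -/
def b1 (x : ℕ) : ℕ := Nat.mul x (Nat.sub 2 x)

/-- indicator of `2` -/
def b2 (x : ℕ) : ℕ := Nat.div (Nat.mul x (Nat.sub x 1)) 2

lemma b1_eq {x : ℕ} (h : x < 3) : b1 x = if x = 1 then 1 else 0 := by
  have : x = 0 ∨ x = 1 ∨ x = 2 := by omega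
  rcases this with rfl | rfl | rfl <;> rfl

lemma b2_eq {x : ℕ} (h : x < 3) : b2 x = if x = 2 then 1 else 0 := by
  have : x = 0 ∨ x = 1 ∨ x = 2 := by omega
  rcases this with rfl | rfl | rfl <;> rfl

/-- ternary digit -/
def td (n m : ℕ) : ℕ := Nat.mod (Nat.div n m) 3

/-- binary digit -/
def bd (n m : ℕ) : ℕ := Nat.mod (Nat.div n m) 2

/-- pattern of a degree row -/
noncomputable def patD (D j : ℕ) : ℕ := pkN (fun n => Nat.mul D (b1 (td n (Nat.pow 3 j)))) 243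

/-- number of members of the mask with relation two -/
def c2 (mask n : ℕ) : ℕ :=
  Nat.add (Nat.mul (bd mask 1) (b2 (td n 1))) (Nat.add (Nat.mul (bd mask 2) (b2 (td n 3)))
  (Nat.add (Nat.mul (bd mask 4) (b2 (td n 9))) (Nat.add (Nat.mul (bd mask 8) (b2 (td n 27)))
  (Nat.mul (bd mask 16) (b2 (td n 81))))))

/-- number of members of the mask with relation different from one -/
def c1 (mask n : ℕ) : ℕ :=
  Nat.add (Nat.mul (bd mask 1) (Nat.sub 1 (b1 (td n 1))))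
  (Nat.add (Nat.mul (bd mask 2) (Nat.sub 1 (b1 (td n 3))))
  (Nat.add (Nat.mul (bd mask 4) (Nat.sub 1 (b1 (td n 9))))
  (Nat.add (Nat.mul (bd mask 8) (Nat.sub 1 (b1 (td n 27))))
  (Nat.mul (bd mask 16) (Nat.sub 1 (b1 (td n 81)))))))

/-- value of a heredity row plus `C` -/
def plv (C D mask n : ℕ) : ℕ :=
  Nat.mul (Nat.sub 1 (c2 mask n)) (Nat.add (Nat.mul C (Nat.sub 1 (c1 mask n)))
    (Nat.mul D (Nat.sub 1 (Nat.sub 1 (c1 mask n)))))

/-- pattern of a heredity row -/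
noncomputable def patL (C D mask : ℕ) : ℕ := pkN (fun n => plv C D mask n) 243

/-- some member of the mask has relation two -/
def ex2 (mask g r : ℕ) : Prop := ∃ i : Fin 5, mb mask i ∧ eb g r i = 2

/-- all members of the mask have relation one -/
def al1 (mask g r : ℕ) : Prop := ∀ i : Fin 5, mb mask i → eb g r i = 1

instance (mask g r : ℕ) : Decidable (ex2 mask g r) := by unfold ex2; infer_instance

instance (mask g r : ℕ) : Decidable (al1 mask g r) := by unfold al1; infer_instance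

theorem fact_lh' : ∀ mask : Fin 31, ∀ n : Fin 243,
    (Nat.sub 1 (c2 (mask + 1) n) = if ex2 (mask + 1) (n % 81) (n / 81) then 0 else 1) ∧
    (Nat.sub 1 (c1 (mask + 1) n) = if al1 (mask + 1) (n % 81) (n / 81) then 1 else 0) ∧
    ¬ (ex2 (mask + 1) (n % 81) (n / 81) ∧ al1 (mask + 1) (n % 81) (n / 81)) := by
  decide +kernel

theorem fact_lh (mask : ℕ) (hm : mask < 32) (hm0 : 0 < mask) (n : ℕ) (hn : n < 243) :
    (Nat.sub 1 (c2 mask n) = if ∃ i : Fin 5, mb mask i ∧ eb (n % 81) (n / 81) i = 2 then 0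
      else 1) ∧
    (Nat.sub 1 (c1 mask n) = if ∀ i : Fin 5, mb mask i → eb (n % 81) (n / 81) i = 1 then 1
      else 0) ∧
    ((∃ i : Fin 5, mb mask i ∧ eb (n % 81) (n / 81) i = 2) →
      ¬ ∀ i : Fin 5, mb mask i → eb (n % 81) (n / 81) i = 1) := by
  have h := fact_lh' ⟨mask - 1, by omega⟩ ⟨n, hn⟩
  have e : mask - 1 + 1 = mask := by omega
  simp only [e] at h
  exact ⟨h.1, h.2.1, fun h1 h2 => h.2.2 ⟨h1, h2⟩⟩

theorem fact_deg : ∀ j : Fin 5, ∀ n < 243, b1 (td n (Nat.pow 3 j)) =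
    if eb (n % 81) (n / 81) j = 1 then 1 else 0 := by decide +kernel

lemma vd_patD (D : ℕ) (hD : D < 65536) (j : Fin 5) (n : ℕ) (hn : n < 243) :
    vd (patD D j) n = D * (if eb (n % 81) (n / 81) j = 1 then 1 else 0) := by
  unfold patD
  rw [pkN_eq, vd_pk 243 _ n _ hn]
  · rw [← fact_deg j n hn]
    rfl
  · intro i hi
    have h := fact_deg j i hi
    have : Nat.mul D (b1 (td i (Nat.pow 3 j))) = D * (b1 (td i (Nat.pow 3 j))) := rfl
    rw [this, h]
    unfold BB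
    split_ifs <;> omega

lemma plv_eq (C D mask n : ℕ) (hm : mask < 32) (hm0 : 0 < mask) (hn : n < 243) :
    (plv C D mask n : ℤ) = lh6 C D mask (n % 81) (n / 81) + C := by
  obtain ⟨h1, h2, h3⟩ := fact_lh mask hm hm0 n hn
  have e : plv C D mask n = Nat.sub 1 (c2 mask n) * (C * Nat.sub 1 (c1 mask n) +
    D * (Nat.sub 1 (Nat.sub 1 (c1 mask n)))) := rfl
  rw [e, h1, h2]
  unfold lh6
  by_cases ha : ∃ i : Fin 5, mb mask i ∧ eb (n % 81) (n / 81) i = 2
  · rw [if_pos ha, if_neg (h3 ha), if_pos ha, if_neg (h3 ha)]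
    simp
  · by_cases hb : ∀ i : Fin 5, mb mask i → eb (n % 81) (n / 81) i = 1
    · rw [if_neg ha, if_pos hb, if_neg ha, if_pos hb]
      simp
    · rw [if_neg ha, if_neg hb, if_neg ha, if_neg hb]
      simp

lemma vd_patL (C D : ℕ) (hC : C < 65536) (hD : D < 65536) (mask : ℕ) (hm : mask < 32)
    (hm0 : 0 < mask) (n : ℕ) (hn : n < 243) :
    (vd (patL C D mask) n : ℤ) = lh6 C D mask (n % 81) (n / 81) + C := by
  unfold patL
  rw [pkN_eq, vd_pk 243 _ n _ hn]
  · exact plv_eq C D mask n hm hm0 hn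
  · intro i hi
    obtain ⟨h1, h2, h3⟩ := fact_lh mask hm hm0 i hi
    have e : plv C D mask i = Nat.sub 1 (c2 mask i) * (C * Nat.sub 1 (c1 mask i) +
      D * (Nat.sub 1 (Nat.sub 1 (c1 mask i)))) := rfl
    rw [e, h1, h2]
    unfold BB
    split_ifs <;> simp <;> omega

end Patterns

section Dominated

/-- the roots which dominate or equal the root `z` -/
def nz (t f z : ℕ) : ℕ :=
  Nat.rec (motive := fun _ => ℕ)
    (Nat.add 1 (Nat.add (Nat.mul 2 (b2 (td t 1))) (Nat.add (Nat.mul 4 (b2 (td t 3)))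
      (Nat.add (Nat.mul 8 (b2 (td t 27))) (Nat.mul 16 (b2 (td f 1)))))))
    (fun z _ => Nat.rec (motive := fun _ => ℕ)
      (Nat.add (b1 (td t 1)) (Nat.add 2 (Nat.add (Nat.mul 4 (b2 (td t 9)))
        (Nat.add (Nat.mul 8 (b2 (td t 81))) (Nat.mul 16 (b2 (td f 3)))))))
      (fun z _ => Nat.rec (motive := fun _ => ℕ)
        (Nat.add (b1 (td t 3)) (Nat.add (Nat.mul 2 (b1 (td t 9))) (Nat.add 4
          (Nat.add (Nat.mul 8 (b2 (td t 243))) (Nat.mul 16 (b2 (td f 9)))))))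
        (fun z _ => Nat.rec (motive := fun _ => ℕ)
          (Nat.add (b1 (td t 27)) (Nat.add (Nat.mul 2 (b1 (td t 81)))
            (Nat.add (Nat.mul 4 (b1 (td t 243))) (Nat.add 8 (Nat.mul 16 (b2 (td f 27)))))))
          (fun _ _ => Nat.add (b1 (td f 1)) (Nat.add (Nat.mul 2 (b1 (td f 3)))
            (Nat.add (Nat.mul 4 (b1 (td f 9))) (Nat.add (Nat.mul 8 (b1 (td f 27))) 16)))) z) z) z) z

lemma bits5 (a0 a1 a2 a3 a4 : ℕ) (h0 : a0 < 2) (h1 : a1 < 2) (h2 : a2 < 2) (h3 : a3 < 2)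
    (h4 : a4 < 2) (i : Fin 5) (h : (a0 + (2 * a1 + (4 * a2 + (8 * a3 + 16 * a4)))) / 2 ^ (i : ℕ) % 2
      = 1) : (i = 0 ∧ a0 = 1) ∨ (i = 1 ∧ a1 = 1) ∨ (i = 2 ∧ a2 = 1) ∨ (i = 3 ∧ a3 = 1) ∨
      (i = 4 ∧ a4 = 1) := by
  fin_cases i <;> simp at h ⊢ <;> omega

lemma b1_one {x : ℕ} (h : x < 3) (h1 : b1 x = 1) : x = 1 := by
  rw [b1_eq h] at h1
  split_ifs at h1 with h2
  exact h2

lemma b2_one {x : ℕ} (h : x < 3) (h1 : b2 x = 1) : inv x = 1 := by
  rw [b2_eq h] at h1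
  split_ifs at h1 with h2
  rw [h2]
  rfl

lemma b1_lt {x : ℕ} (h : x < 3) : b1 x < 2 := by
  rw [b1_eq h]; split_ifs <;> omega

lemma b2_lt {x : ℕ} (h : x < 3) : b2 x < 2 := by
  rw [b2_eq h]; split_ifs <;> omega

lemma td_lt (n m : ℕ) : td n m < 3 := Nat.mod_lt _ (by norm_num)

lemma nz_spec (t f : ℕ) (z i : Fin 5) (h : nz t f z / 2 ^ (i : ℕ) % 2 = 1) :
    i = z ∨ rc6 t f i z = 1 := by
  fin_cases z
  · have e : nz t f 0 = 1 + (2 * b2 (td t 1) + (4 * b2 (td t 3) + (8 * b2 (td t 27) +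
      16 * b2 (td f 1)))) := rfl
    have h' : (1 + (2 * b2 (td t 1) + (4 * b2 (td t 3) + (8 * b2 (td t 27) +
      16 * b2 (td f 1))))) / 2 ^ (i : ℕ) % 2 = 1 := by rw [← e]; exact h
    rcases bits5 _ _ _ _ _ (by norm_num) (b2_lt (td_lt _ _)) (b2_lt (td_lt _ _))
      (b2_lt (td_lt _ _)) (b2_lt (td_lt _ _)) i h' with h | h | h | h | h
    · left; exact h.1
    · right; rw [h.1]; exact b2_one (td_lt _ _) h.2
    · right; rw [h.1]; exact b2_one (td_lt _ _) h.2
    · right; rw [h.1]; exact b2_one (td_lt _ _) h.2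
    · right; rw [h.1]; exact b2_one (td_lt _ _) h.2
  · have e : nz t f 1 = b1 (td t 1) + (2 + (4 * b2 (td t 9) + (8 * b2 (td t 81) +
      16 * b2 (td f 3)))) := rfl
    have h' : (b1 (td t 1) + (2 * 1 + (4 * b2 (td t 9) + (8 * b2 (td t 81) +
      16 * b2 (td f 3))))) / 2 ^ (i : ℕ) % 2 = 1 := by rw [mul_one, ← e]; exact h
    rcases bits5 _ _ _ _ _ (b1_lt (td_lt _ _)) (by norm_num) (b2_lt (td_lt _ _))
      (b2_lt (td_lt _ _)) (b2_lt (td_lt _ _)) i h' with h | h | h | h | h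
    · right; rw [h.1]; exact b1_one (td_lt _ _) h.2
    · left; exact h.1
    · right; rw [h.1]; exact b2_one (td_lt _ _) h.2
    · right; rw [h.1]; exact b2_one (td_lt _ _) h.2
    · right; rw [h.1]; exact b2_one (td_lt _ _) h.2
  · have e : nz t f 2 = b1 (td t 3) + (2 * b1 (td t 9) + (4 + (8 * b2 (td t 243) +
      16 * b2 (td f 9)))) := rfl
    have h' : (b1 (td t 3) + (2 * b1 (td t 9) + (4 * 1 + (8 * b2 (td t 243) +
      16 * b2 (td f 9))))) / 2 ^ (i : ℕ) % 2 = 1 := by rw [mul_one, ← e]; exact h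
    rcases bits5 _ _ _ _ _ (b1_lt (td_lt _ _)) (b1_lt (td_lt _ _)) (by norm_num)
      (b2_lt (td_lt _ _)) (b2_lt (td_lt _ _)) i h' with h | h | h | h | h
    · right; rw [h.1]; exact b1_one (td_lt _ _) h.2
    · right; rw [h.1]; exact b1_one (td_lt _ _) h.2
    · left; exact h.1
    · right; rw [h.1]; exact b2_one (td_lt _ _) h.2
    · right; rw [h.1]; exact b2_one (td_lt _ _) h.2
  · have e : nz t f 3 = b1 (td t 27) + (2 * b1 (td t 81) + (4 * b1 (td t 243) + (8 +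
      16 * b2 (td f 27)))) := rfl
    have h' : (b1 (td t 27) + (2 * b1 (td t 81) + (4 * b1 (td t 243) + (8 * 1 +
      16 * b2 (td f 27))))) / 2 ^ (i : ℕ) % 2 = 1 := by rw [mul_one, ← e]; exact h
    rcases bits5 _ _ _ _ _ (b1_lt (td_lt _ _)) (b1_lt (td_lt _ _)) (b1_lt (td_lt _ _))
      (by norm_num) (b2_lt (td_lt _ _)) i h' with h | h | h | h | h
    · right; rw [h.1]; exact b1_one (td_lt _ _) h.2
    · right; rw [h.1]; exact b1_one (td_lt _ _) h.2
    · right; rw [h.1]; exact b1_one (td_lt _ _) h.2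
    · left; exact h.1
    · right; rw [h.1]; exact b2_one (td_lt _ _) h.2
  · have e : nz t f 4 = b1 (td f 1) + (2 * b1 (td f 3) + (4 * b1 (td f 9) + (8 * b1 (td f 27) +
      16))) := rfl
    have h' : (b1 (td f 1) + (2 * b1 (td f 3) + (4 * b1 (td f 9) + (8 * b1 (td f 27) +
      16 * 1)))) / 2 ^ (i : ℕ) % 2 = 1 := by rw [mul_one, ← e]; exact h
    rcases bits5 _ _ _ _ _ (b1_lt (td_lt _ _)) (b1_lt (td_lt _ _)) (b1_lt (td_lt _ _))
      (b1_lt (td_lt _ _)) (by norm_num) i h' with h | h | h | h | h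
    · right; rw [h.1]; exact b1_one (td_lt _ _) h.2
    · right; rw [h.1]; exact b1_one (td_lt _ _) h.2
    · right; rw [h.1]; exact b1_one (td_lt _ _) h.2
    · right; rw [h.1]; exact b1_one (td_lt _ _) h.2
    · left; exact h.1

/-- some root is dominated by the mask -/
def zok (t f mask : ℕ) : Bool :=
  Nat.beq (Nat.land mask (nz t f 0)) mask || (Nat.beq (Nat.land mask (nz t f 1)) mask ||
  (Nat.beq (Nat.land mask (nz t f 2)) mask || (Nat.beq (Nat.land mask (nz t f 3)) mask ||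
  Nat.beq (Nat.land mask (nz t f 4)) mask)))

lemma land_okz (t f mask : ℕ) (z : Fin 5) (h : Nat.beq (Nat.land mask (nz t f z)) mask = true) :
    okz6 t f mask z := by
  have h' : mask &&& nz t f z = mask := Nat.eq_of_beq_eq_true h
  intro i hi
  apply nz_spec
  unfold mb at hi
  have h1 : mask.testBit i = true := by
    rw [Nat.testBit_eq_decide_div_mod_eq]
    simpa using hi
  rw [← h', Nat.testBit_and, Bool.and_eq_true] at h1
  have h2 := h1.2
  rw [Nat.testBit_eq_decide_div_mod_eq] at h2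
  simpa using h2

lemma zok_spec (t f mask : ℕ) (h : zok t f mask = true) : ∃ z : Fin 5, okz6 t f mask z := by
  unfold zok at h
  rw [Bool.or_eq_true, Bool.or_eq_true, Bool.or_eq_true, Bool.or_eq_true] at h
  rcases h with h | h | h | h | h
  · exact ⟨0, land_okz t f mask 0 h⟩
  · exact ⟨1, land_okz t f mask 1 h⟩
  · exact ⟨2, land_okz t f mask 2 h⟩
  · exact ⟨3, land_okz t f mask 3 h⟩
  · exact ⟨4, land_okz t f mask 4 h⟩

end Dominated

end Pool.Agent.CH6
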