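import Pool.Agent.Helper93_CH6.Dec2

/-!
Squares with two roots: positivity and the symmetrised value.
-/

set_option autoImplicit false

namespace Pool.Agent.CH6

open Pool.Agent.CH

/-- classes of codes under exchange of the last two points, for root types `0` and `1` -/
def CLL : ℕ := 0x586c005468004e6200005c00485600404d00384400333e002b35000000005367004d61000000004755003f4c00000000323d002a3400576b005266004c6000005b004654003e4b00374300313c00293300000000000000000000005a00005300004a00004200003b000032000000000000000000000000004552003d4900000000303a002831000000000000000000000059004451003c48003641002f3900273000566a005165004b5f000058004350003b47003540002e3800262f000000005064004a5e00000000424f003a46000000002d3700252e005569004f6300495d00005700414e00394500343f002c3600242d00586c00000000576b00000000000000000000566a000000005569005468005367005266000000000000000000005165005064004f63004e62004d61004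c60000000000000000000004b5f004a5e00495d00005c00000000005b00005a00000000005900005800000000005700485600475500465400005300455200445100435000424f00414e00404d003f4c003e4b00004a003d49003c48003b47003a4600394500384400000000374300004200000000364100354000000000343f00333e00323d00313c00003b00303a002f39002e38002d37002c36002b35002a3400293300003200283100273000262f00252e00242d00232c00222b002029000026001d2200191d001417000e1000070800222b00212a001f28000025001c2100181c001316000d0f000607002029001f28001e27000024001b2000171b001215000c0e00050600002600002500002400002300001f00001a00001400000d000005001d22001c21001b2000001f001a1e001619001113000b0c00040400191d00181c00171b00001a001619001518001012000a0b000303001417001316001215000014001113001012000f1100090a000202000e10000d0f000c0e00000d000b0c000a0b00090a000809000101000708000607000506000005000404000303000202000101000000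

/-- class of a code -/
def cl (c : ℕ) : ℕ := Nat.mod (Nat.shiftRight CLL (Nat.mul 8 c)) 256

/-- table of the squares with two roots -/
def M2 (P : ℕ → List ℕ) (c c' : ℕ) : ℤ :=
  if c % 3 = 2 then 0 else
    ((P (c % 3)).map (fun v => ((vd v (cl c) : ℤ) - 549755813888) * ((vd v (cl c') : ℤ) - 549755813888))).sum

/-- code of four points of a matrix -/
def q4 (d : Fin 6 → Fin 6 → ℕ) (p q a b : Fin 6) : ℕ :=
  code4 (fun x y => d (![p, q, a, b] x) (![p, q, a, b] y))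

/-- value of the squares with two roots -/
def hval2 (P : ℕ → List ℕ) (d : Fin 6 → Fin 6 → ℕ) : ℤ :=
  M2 P (q4 d 0 1 2 3) (q4 d 0 1 4 5)

/-- the symmetrised value -/
def T62 (P : ℕ → List ℕ) (d : Fin 6 → Fin 6 → ℕ) : ℤ :=
  ∑ π : Equiv.Perm (Fin 6), hval2 P (fun i j => d (π i) (π j))

/-- the sum over the orderings of the four points which are not roots -/
def G2 (P : ℕ → List ℕ) (d : Fin 6 → Fin 6 → ℕ) (ρ : Fin 4 → Fin 6) (p q : Fin 6) : ℤ :=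
  ∑ σ : Equiv.Perm (Fin 4), M2 P (q4 d p q (ρ (σ 0)) (ρ (σ 1))) (q4 d p q (ρ (σ 2)) (ρ (σ 3)))

lemma q4_comp (d : Fin 6 → Fin 6 → ℕ) (s : Fin 6 → Fin 6) (p q a b : Fin 6) :
    q4 (fun i j => d (s i) (s j)) p q a b = q4 d (s p) (s q) (s a) (s b) := rfl

lemma T62_comp (P : ℕ → List ℕ) (d : Fin 6 → Fin 6 → ℕ) (ρ : Equiv.Perm (Fin 6)) :
    T62 P (fun i j => d (ρ i) (ρ j)) = T62 P d := by
  unfold T62
  rw [← Equiv.sum_comp (Equiv.mulLeft ρ) (fun π : Equiv.Perm (Fin 6) =>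
    hval2 P (fun i j => d (π i) (π j)))]
  rfl

lemma G2_inv (P : ℕ → List ℕ) (d : Fin 6 → Fin 6 → ℕ) : PInv (G2 P d) := by
  intro ρ ρ' p q h
  obtain ⟨τ, hτ⟩ := h
  unfold G2
  rw [← Equiv.sum_comp (Equiv.mulLeft τ) (fun σ : Equiv.Perm (Fin 4) =>
    M2 P (q4 d p q (ρ' (σ 0)) (ρ' (σ 1))) (q4 d p q (ρ' (σ 2)) (ρ' (σ 3))))]
  refine Finset.sum_congr rfl (fun σ _ => ?_)
  simp only [hτ]
  rfl

lemma T62_decomp (P : ℕ → List ℕ) (d : Fin 6 → Fin 6 → ℕ) :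
    T62 P d = ∑ p : Fin 6, ∑ q : Fin 5,
      G2 P d (fun i => Equiv.swap 0 p (Equiv.swap 0 q i.succ).succ) p
        (Equiv.swap 0 p q.succ) := by
  unfold T62
  rw [← Equiv.sum_comp (Equiv.Perm.decomposeFin (n := 5)).symm, Fintype.sum_prod_type]
  refine Finset.sum_congr rfl (fun p _ => ?_)
  rw [← Equiv.sum_comp (Equiv.Perm.decomposeFin (n := 4)).symm, Fintype.sum_prod_type]
  refine Finset.sum_congr rfl (fun q _ => ?_)
  unfold G2
  refine Finset.sum_congr rfl (fun σ _ => ?_)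
  unfold hval2
  have h0 : (Equiv.Perm.decomposeFin.symm (p, Equiv.Perm.decomposeFin.symm (q, σ)) :
      Equiv.Perm (Fin 6)) 0 = p := by
    rw [Equiv.Perm.decomposeFin_symm_apply_zero]
  have h1 : (Equiv.Perm.decomposeFin.symm (p, Equiv.Perm.decomposeFin.symm (q, σ)) :
      Equiv.Perm (Fin 6)) 1 = Equiv.swap 0 p q.succ := by
    have := Equiv.Perm.decomposeFin_symm_apply_succ
      (Equiv.Perm.decomposeFin.symm (q, σ) : Equiv.Perm (Fin 5)) p 0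
    rw [Equiv.Perm.decomposeFin_symm_apply_zero] at this
    exact this
  have h2 : ∀ i : Fin 4, (Equiv.Perm.decomposeFin.symm
      (p, Equiv.Perm.decomposeFin.symm (q, σ)) : Equiv.Perm (Fin 6)) i.succ.succ =
      Equiv.swap 0 p (Equiv.swap 0 q (σ i).succ).succ := by
    intro i
    rw [Equiv.Perm.decomposeFin_symm_apply_succ, Equiv.Perm.decomposeFin_symm_apply_succ]
  have h20 := h2 0
  have h21 := h2 1
  have h22 := h2 2
  have h23 := h2 3
  have e2 : (Fin.succ (Fin.succ (0 : Fin 4)) : Fin 6) = 2 := rfl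
  have e3 : (Fin.succ (Fin.succ (1 : Fin 4)) : Fin 6) = 3 := rfl
  have e4 : (Fin.succ (Fin.succ (2 : Fin 4)) : Fin 6) = 4 := rfl
  have e5 : (Fin.succ (Fin.succ (3 : Fin 4)) : Fin 6) = 5 := rfl
  rw [e2] at h20
  rw [e3] at h21
  rw [e4] at h22
  rw [e5] at h23
  have k1 := q4_comp d (fun i => (Equiv.Perm.decomposeFin.symm
    (p, Equiv.Perm.decomposeFin.symm (q, σ)) : Equiv.Perm (Fin 6)) i) 0 1 2 3
  have k2 := q4_comp d (fun i => (Equiv.Perm.decomposeFin.symm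
    (p, Equiv.Perm.decomposeFin.symm (q, σ)) : Equiv.Perm (Fin 6)) i) 0 1 4 5
  rw [k1, k2, h0, h1, h20, h21, h22, h23]

lemma pfv0 : pf 0 0 = 0 ∧ pf 0 1 = 1 ∧ pf 0 2 = 2 ∧ pf 0 3 = 3 := by decide +kernel

lemma pfv1 : pf 1 0 = 0 ∧ pf 1 1 = 1 ∧ pf 1 2 = 3 ∧ pf 1 3 = 2 := by decide +kernel

lemma pfv2 : pf 2 0 = 0 ∧ pf 2 1 = 2 ∧ pf 2 2 = 1 ∧ pf 2 3 = 3 := by decide +kernel

lemma pfv3 : pf 3 0 = 0 ∧ pf 3 1 = 2 ∧ pf 3 2 = 3 ∧ pf 3 3 = 1 := by decide +kernel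

lemma pfv4 : pf 4 0 = 0 ∧ pf 4 1 = 3 ∧ pf 4 2 = 1 ∧ pf 4 3 = 2 := by decide +kernel

lemma pfv5 : pf 5 0 = 0 ∧ pf 5 1 = 3 ∧ pf 5 2 = 2 ∧ pf 5 3 = 1 := by decide +kernel

lemma pfv6 : pf 6 0 = 1 ∧ pf 6 1 = 0 ∧ pf 6 2 = 2 ∧ pf 6 3 = 3 := by decide +kernel

lemma pfv7 : pf 7 0 = 1 ∧ pf 7 1 = 0 ∧ pf 7 2 = 3 ∧ pf 7 3 = 2 := by decide +kernel

lemma pfv8 : pf 8 0 = 1 ∧ pf 8 1 = 2 ∧ pf 8 2 = 0 ∧ pf 8 3 = 3 := by decide +kernel

lemma pfv9 : pf 9 0 = 1 ∧ pf 9 1 = 2 ∧ pf 9 2 = 3 ∧ pf 9 3 = 0 := by decide +kernel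

lemma pfv10 : pf 10 0 = 1 ∧ pf 10 1 = 3 ∧ pf 10 2 = 0 ∧ pf 10 3 = 2 := by decide +kernel

lemma pfv11 : pf 11 0 = 1 ∧ pf 11 1 = 3 ∧ pf 11 2 = 2 ∧ pf 11 3 = 0 := by decide +kernel

lemma pfv12 : pf 12 0 = 2 ∧ pf 12 1 = 0 ∧ pf 12 2 = 1 ∧ pf 12 3 = 3 := by decide +kernel

lemma pfv13 : pf 13 0 = 2 ∧ pf 13 1 = 0 ∧ pf 13 2 = 3 ∧ pf 13 3 = 1 := by decide +kernel

lemma pfv14 : pf 14 0 = 2 ∧ pf 14 1 = 1 ∧ pf 14 2 = 0 ∧ pf 14 3 = 3 := by decide +kernel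

lemma pfv15 : pf 15 0 = 2 ∧ pf 15 1 = 1 ∧ pf 15 2 = 3 ∧ pf 15 3 = 0 := by decide +kernel

lemma pfv16 : pf 16 0 = 2 ∧ pf 16 1 = 3 ∧ pf 16 2 = 0 ∧ pf 16 3 = 1 := by decide +kernel

lemma pfv17 : pf 17 0 = 2 ∧ pf 17 1 = 3 ∧ pf 17 2 = 1 ∧ pf 17 3 = 0 := by decide +kernel

lemma pfv18 : pf 18 0 = 3 ∧ pf 18 1 = 0 ∧ pf 18 2 = 1 ∧ pf 18 3 = 2 := by decide +kernel

lemma pfv19 : pf 19 0 = 3 ∧ pf 19 1 = 0 ∧ pf 19 2 = 2 ∧ pf 19 3 = 1 := by decide +kernel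

lemma pfv20 : pf 20 0 = 3 ∧ pf 20 1 = 1 ∧ pf 20 2 = 0 ∧ pf 20 3 = 2 := by decide +kernel

lemma pfv21 : pf 21 0 = 3 ∧ pf 21 1 = 1 ∧ pf 21 2 = 2 ∧ pf 21 3 = 0 := by decide +kernel

lemma pfv22 : pf 22 0 = 3 ∧ pf 22 1 = 2 ∧ pf 22 2 = 0 ∧ pf 22 3 = 1 := by decide +kernel

lemma pfv23 : pf 23 0 = 3 ∧ pf 23 1 = 2 ∧ pf 23 2 = 1 ∧ pf 23 3 = 0 := by decide +kernel

/-- sum over the 24 orderings of a function with the symmetries of two unordered pairs -/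
lemma sum24 (H : Fin 4 → Fin 4 → Fin 4 → Fin 4 → ℤ) (h1 : ∀ a b c e, H b a c e = H a b c e)
    (h2 : ∀ a b c e, H a b e c = H a b c e) (h3 : ∀ a b c e, H c e a b = H a b c e) :
    ∑ σ : Equiv.Perm (Fin 4), H (σ 0) (σ 1) (σ 2) (σ 3) =
      8 * (H 0 1 2 3 + H 0 2 1 3 + H 0 3 1 2) := by
  rw [sum_perm]
  show ∑ s : Fin 24, H (pf s 0) (pf s 1) (pf s 2) (pf s 3) = _
  rw [Fin.sum_univ_eq_sum_range (fun s => H (pf s 0) (pf s 1) (pf s 2) (pf s 3)) 24]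
  simp only [Finset.sum_range_succ, Finset.sum_range_zero, pfv0, pfv1, pfv2, pfv3, pfv4, pfv5, pfv6, pfv7, pfv8, pfv9, pfv10, pfv11, pfv12, pfv13, pfv14, pfv15, pfv16, pfv17, pfv18, pfv19, pfv20, pfv21, pfv22, pfv23]
  have e0132 : H 0 1 3 2 = H 0 1 2 3 := h2 0 1 2 3
  have e0231 : H 0 2 3 1 = H 0 2 1 3 := h2 0 2 1 3
  have e0321 : H 0 3 2 1 = H 0 3 1 2 := h2 0 3 1 2
  have e1023 : H 1 0 2 3 = H 0 1 2 3 := h1 0 1 2 3
  have e1032 : H 1 0 3 2 = H 0 1 2 3 := (h2 1 0 2 3).trans (h1 0 1 2 3)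
  have e1203 : H 1 2 0 3 = H 0 3 1 2 := h3 0 3 1 2
  have e1230 : H 1 2 3 0 = H 0 3 1 2 := (h2 1 2 0 3).trans (h3 0 3 1 2)
  have e1302 : H 1 3 0 2 = H 0 2 1 3 := h3 0 2 1 3
  have e1320 : H 1 3 2 0 = H 0 2 1 3 := (h2 1 3 0 2).trans (h3 0 2 1 3)
  have e2013 : H 2 0 1 3 = H 0 2 1 3 := h1 0 2 1 3
  have e2031 : H 2 0 3 1 = H 0 2 1 3 := (h2 2 0 1 3).trans (h1 0 2 1 3)
  have e2103 : H 2 1 0 3 = H 0 3 1 2 := (h1 1 2 0 3).trans (h3 0 3 1 2)
  have e2130 : H 2 1 3 0 = H 0 3 1 2 := (h2 2 1 0 3).trans ((h1 1 2 0 3).trans (h3 0 3 1 2))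
  have e2301 : H 2 3 0 1 = H 0 1 2 3 := h3 0 1 2 3
  have e2310 : H 2 3 1 0 = H 0 1 2 3 := (h2 2 3 0 1).trans (h3 0 1 2 3)
  have e3012 : H 3 0 1 2 = H 0 3 1 2 := h1 0 3 1 2
  have e3021 : H 3 0 2 1 = H 0 3 1 2 := (h2 3 0 1 2).trans (h1 0 3 1 2)
  have e3102 : H 3 1 0 2 = H 0 2 1 3 := (h1 1 3 0 2).trans (h3 0 2 1 3)
  have e3120 : H 3 1 2 0 = H 0 2 1 3 := (h2 3 1 0 2).trans ((h1 1 3 0 2).trans (h3 0 2 1 3))
  have e3201 : H 3 2 0 1 = H 0 1 2 3 := (h1 2 3 0 1).trans (h3 0 1 2 3)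
  have e3210 : H 3 2 1 0 = H 0 1 2 3 := (h2 3 2 0 1).trans ((h1 2 3 0 1).trans (h3 0 1 2 3))
  linarith

/-- a code determines its class, and the exchange of the last two points does not change it -/
theorem fact_cl : ∀ c < 729, ok4 c → cl (pc c 1) = cl c ∧ pc c 1 % 3 = c % 3 := by
  decide +kernel

lemma q4_swap {d : Fin 6 → Fin 6 → ℕ} (hd : Cfg d) (p q a b : Fin 6) :
    cl (q4 d p q b a) = cl (q4 d p q a b) ∧ q4 d p q b a % 3 = q4 d p q a b % 3 := by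
  have he : Cfg (fun x y => d (![p, q, a, b] x) (![p, q, a, b] y)) := hd.comp ![p, q, a, b]
  have hok : ok4 (q4 d p q a b) := by
    unfold ok4 q4
    rw [← eq_mat he]
    exact ⟨he.ok 0 1 2, he.ok 0 1 3, he.ok 0 2 3, he.ok 1 2 3⟩
  have h := fact_cl (q4 d p q a b) (code4_lt he) hok
  have h2 : pc (q4 d p q a b) 1 = q4 d p q b a := by
    unfold pc q4
    rw [← eq_mat he]
    obtain ⟨h0, h1, h2, h3⟩ := pfv1
    unfold code4
    beta_reduce
    rw [h0, h1, h2, h3]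
    rfl
  rw [h2] at h
  exact h

lemma q4_mod {d : Fin 6 → Fin 6 → ℕ} (hd : Cfg d) (p q a b : Fin 6) :
    q4 d p q a b % 3 = d p q := by
  have h : q4 d p q a b = d p q + 3 * d p a + 9 * d q a + 27 * d p b + 81 * d q b +
      243 * d a b := rfl
  have := hd.lt p q
  omega

lemma M2_symm (P : ℕ → List ℕ) (c c' : ℕ) (h : c % 3 = c' % 3) : M2 P c c' = M2 P c' c := by
  unfold M2
  rw [h]
  by_cases h2 : c' % 3 = 2
  · rw [if_pos h2, if_pos h2]
  · rw [if_neg h2, if_neg h2]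
    congr 1
    refine List.map_congr_left (fun v _ => by ring)

lemma M2_left (P : ℕ → List ℕ) (c c₁ c' : ℕ) (h : cl c = cl c₁) (h3 : c % 3 = c₁ % 3) :
    M2 P c c' = M2 P c₁ c' := by
  unfold M2
  rw [h, h3]

lemma M2_right (P : ℕ → List ℕ) (c c₁ c' : ℕ) (h : cl c = cl c₁) :
    M2 P c' c = M2 P c' c₁ := by
  unfold M2
  rw [h]

/-- a pair term -/
lemma pair2 (P : ℕ → List ℕ) {d : Fin 6 → Fin 6 → ℕ} (hd : Cfg d) (i j k l p q : Fin 6) :
    G2 P d ![i, j, k, l] p q = 8 * (M2 P (q4 d p q i j) (q4 d p q k l) +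
      M2 P (q4 d p q i k) (q4 d p q j l) + M2 P (q4 d p q i l) (q4 d p q j k)) := by
  have h := sum24 (fun a b c e => M2 P (q4 d p q (![i, j, k, l] a) (![i, j, k, l] b))
    (q4 d p q (![i, j, k, l] c) (![i, j, k, l] e)))
    (fun a b c e => M2_left P _ _ _ (q4_swap hd p q _ _).1 (q4_swap hd p q _ _).2)
    (fun a b c e => M2_right P _ _ _ (q4_swap hd p q _ _).1)
    (fun a b c e => M2_symm P _ _ (by rw [q4_mod hd, q4_mod hd]))
  exact h

/-- SYMMETRISED VALUE of the squares with two roots. -/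
theorem T62_eq (P : ℕ → List ℕ) (d : Fin 6 → Fin 6 → ℕ) :
    T62 P d =
      (G2 P d ![2, 3, 4, 5] 0 1 + G2 P d ![2, 3, 4, 5] 1 0) +
      (G2 P d ![1, 3, 4, 5] 0 2 + G2 P d ![1, 3, 4, 5] 2 0) +
      (G2 P d ![0, 3, 4, 5] 1 2 + G2 P d ![0, 3, 4, 5] 2 1) +
      (G2 P d ![1, 2, 4, 5] 0 3 + G2 P d ![1, 2, 4, 5] 3 0) +
      (G2 P d ![0, 2, 4, 5] 1 3 + G2 P d ![0, 2, 4, 5] 3 1) +
      (G2 P d ![0, 1, 4, 5] 2 3 + G2 P d ![0, 1, 4, 5] 3 2) +
      (G2 P d ![1, 2, 3, 5] 0 4 + G2 P d ![1, 2, 3, 5] 4 0) +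
      (G2 P d ![0, 2, 3, 5] 1 4 + G2 P d ![0, 2, 3, 5] 4 1) +
      (G2 P d ![0, 1, 3, 5] 2 4 + G2 P d ![0, 1, 3, 5] 4 2) +
      (G2 P d ![0, 1, 2, 5] 3 4 + G2 P d ![0, 1, 2, 5] 4 3) +
      (G2 P d ![1, 2, 3, 4] 0 5 + G2 P d ![1, 2, 3, 4] 5 0) +
      (G2 P d ![0, 2, 3, 4] 1 5 + G2 P d ![0, 2, 3, 4] 5 1) +
      (G2 P d ![0, 1, 3, 4] 2 5 + G2 P d ![0, 1, 3, 4] 5 2) +
      (G2 P d ![0, 1, 2, 4] 3 5 + G2 P d ![0, 1, 2, 4] 5 3) +
      (G2 P d ![0, 1, 2, 3] 4 5 + G2 P d ![0, 1, 2, 3] 5 4) := by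
  rw [T62_decomp]
  exact thirty (G2 P d) (G2_inv P d)

section Pos

variable {V : Type*} [Fintype V]

/-- six-fold product and functions -/
def e6 : (V × V × V × V × V × V) ≃ (Fin 6 → V) where
  toFun p := ![p.1, p.2.1, p.2.2.1, p.2.2.2.1, p.2.2.2.2.1, p.2.2.2.2.2]
  invFun x := (x 0, x 1, x 2, x 3, x 4, x 5)
  left_inv p := by rcases p with ⟨a, b, c, d, e, f⟩; rfl
  right_inv x := by funext i; fin_cases i <;> rfl

lemma sumV6 (g : V → V → V → V → V → V → ℤ) :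
    ∑ x : Fin 6 → V, g (x 0) (x 1) (x 2) (x 3) (x 4) (x 5) =
      ∑ a, ∑ b, ∑ c, ∑ d, ∑ e, ∑ f, g a b c d e f := by
  rw [← Equiv.sum_comp (e6 (V := V))]
  simp only [Fintype.sum_prod_type]
  rfl

/-- the sum of the squares with two roots is nonnegative -/
theorem pos2 (E : V → V → Prop) [DecidableRel E] (P : ℕ → List ℕ) :
    0 ≤ ∑ x : Fin 6 → V, hval2 P (fun i j => rel E (x i) (x j)) := by
  let F : V → V → V → V → ℕ := fun x y a b => rel E x y + 3 * rel E x a + 9 * rel E y a +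
    27 * rel E x b + 81 * rel E y b + 243 * rel E a b
  have h1 : ∀ x : Fin 6 → V, hval2 P (fun i j => rel E (x i) (x j)) =
      M2 P (F (x 0) (x 1) (x 2) (x 3)) (F (x 0) (x 1) (x 4) (x 5)) := fun x => rfl
  have h2 := sumV6 (fun x y a b c d => M2 P (F x y a b) (F x y c d))
  simp only [h1]
  rw [h2]
  refine Finset.sum_nonneg (fun x _ => Finset.sum_nonneg (fun y _ => ?_))
  have hm : ∀ a b, F x y a b % 3 = rel E x y := by
    intro a b
    have := rel_lt E x y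
    show (rel E x y + 3 * rel E x a + 9 * rel E y a +
      27 * rel E x b + 81 * rel E y b + 243 * rel E a b) % 3 = rel E x y
    omega
  unfold M2
  simp only [hm]
  by_cases hc : rel E x y = 2
  · simp [hc]
  · simp only [if_neg hc]
    induction P (rel E x y) with
    | nil => simp
    | cons v vs ih =>
      simp only [List.map_cons, List.sum_cons, Finset.sum_add_distrib]
      refine add_nonneg ?_ ih
      have : ∑ a : V, ∑ b : V, ∑ c : V, ∑ d : V, ((vd v (cl (F x y a b)) : ℤ) - 549755813888) *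
          ((vd v (cl (F x y c d)) : ℤ) - 549755813888) =
          (∑ a : V, ∑ b : V, ((vd v (cl (F x y a b)) : ℤ) - 549755813888)) *
          (∑ a : V, ∑ b : V, ((vd v (cl (F x y a b)) : ℤ) - 549755813888)) := by
        rw [Finset.sum_mul]
        refine Finset.sum_congr rfl (fun a _ => ?_)
        rw [Finset.sum_mul]
        refine Finset.sum_congr rfl (fun b _ => ?_)
        rw [Finset.mul_sum]
        refine Finset.sum_congr rfl (fun c _ => ?_)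
        rw [Finset.mul_sum]
      rw [this]
      exact mul_self_nonneg _

end Pos

end Pool.Agent.CH6
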