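import Pool.Agent.Helper93_CH6.Row6b

/-!
Bounds and integer values of the table computed from packed vectors.
-/

set_option autoImplicit false

namespace Pool.Agent.CH6

open Pool.Agent.CH

/-- total offset of a pair -/
def OFS : ℕ := 14855280471424563298789490688

/-- offset of the entries of a type -/
def offi (i : ℕ) : ℕ := Nat.div OFS (Nat.succ (an i))

/-- value of the certificate -/
def vl (vs : List ℕ) (rows : List (ℕ × ℕ × ℕ)) (f g r : ℕ) : ℤ :=
  (vs.map (fun v => ((vd v f : ℤ) - 549755813888) * ((vd v g : ℤ) - 549755813888))).sum +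
  (rows.map (fun ρ => (vd ρ.1 f : ℤ) * ((vd ρ.2.1 (81 * r + g) : ℤ) - ρ.2.2))).sum

lemma sq_id (vs : List ℕ) (f g : ℕ) :
    2 * (vs.map (fun v => ((vd v f : ℤ) - 549755813888) * ((vd v g : ℤ) - 549755813888))).sum =
      2 * (SQ vs f g : ℤ) - 1099511627776 * ((vs.map (fun v => vd v f)).sum : ℕ) -
      1099511627776 * ((vs.map (fun v => vd v g)).sum : ℕ) + 604462909807314587353088 * vs.length := by
  induction vs with
  | nil => simp [SQ]
  | cons v vs ih =>
    simp only [SQ, List.map_cons, List.sum_cons, List.length_cons] at ih ⊢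
    push_cast at ih ⊢
    linarith

lemma rw_id (rows : List (ℕ × ℕ × ℕ)) (f g r : ℕ) (hr : r < 3) :
    (rows.map (fun ρ => (vd ρ.1 f : ℤ) * ((vd ρ.2.1 (81 * r + g) : ℤ) - ρ.2.2))).sum +
    (rows.map (fun ρ => (vd ρ.1 g : ℤ) * ((vd ρ.2.1 (81 * inv r + f) : ℤ) - ρ.2.2))).sum =
      (RW rows f g r : ℤ) - ((rows.map (fun ρ => ρ.2.2 * vd ρ.1 f)).sum : ℕ) -
      ((rows.map (fun ρ => ρ.2.2 * vd ρ.1 g)).sum : ℕ) := by
  induction rows with
  | nil => simp [RW]
  | cons ρ rows ih =>
    simp only [RW, List.map_cons, List.sum_cons] at ih ⊢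
    push_cast at ih ⊢
    linarith

lemma list_sum_le {α : Type*} (l : List α) (x : α → ℕ) (b : ℕ) (h : ∀ a ∈ l, x a ≤ b) :
    (l.map x).sum ≤ l.length * b := by
  induction l with
  | nil => simp
  | cons a l ih =>
    rw [List.map_cons, List.sum_cons, List.length_cons, Nat.succ_mul]
    have h1 := h a (by simp)
    have h2 := ih (fun c hc => h c (by simp [hc]))
    omega

lemma SQ_le (vs : List ℕ) (hv : okvs vs) (hn : vs.length ≤ 128) (f g : ℕ) (hf : f < 81)
    (hg : g < 81) : SQ vs f g ≤ 154742504910672534362390528 := by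
  have h := list_sum_le vs (fun v => vd v f * vd v g) (2 ^ 80) (fun v hv' => by
    have h1 := (hv v hv').2 f hf
    have h2 := (hv v hv').2 g hg
    have : vd v f * vd v g ≤ 2 ^ 40 * 2 ^ 40 := Nat.mul_le_mul h1.le h2.le
    calc vd v f * vd v g ≤ 2 ^ 40 * 2 ^ 40 := this
      _ = 2 ^ 80 := by norm_num)
  unfold SQ
  omega

lemma sv_le (vs : List ℕ) (hv : okvs vs) (hn : vs.length ≤ 128) (g : ℕ) (hg : g < 81) :
    (vs.map (fun v => vd v g)).sum ≤ 140737488355328 := by
  have h := list_sum_le vs (fun v => vd v g) (2 ^ 40) (fun v hv' => ((hv v hv').2 g hg).le)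
  omega

lemma inv_lt (r : ℕ) : inv r < 3 := by
  unfold inv; split_ifs <;> omega

lemma RW_le (rows : List (ℕ × ℕ × ℕ)) (hr : okrows rows) (hn : rows.length ≤ 128) (f g r : ℕ)
    (hf : f < 81) (hg : g < 81) (hr3 : r < 3) : RW rows f g r ≤ 309485009821345068724781056 := by
  have hi := inv_lt r
  have h := list_sum_le rows (fun ρ => vd ρ.1 f * vd ρ.2.1 (81 * r + g) +
    vd ρ.2.1 (81 * inv r + f) * vd ρ.1 g) (2 ^ 81) (fun ρ hρ => by
    obtain ⟨a1, a2, a3, a4, a5⟩ := hr ρ hρ
    have h1 := Nat.mul_le_mul (a2 f hf).le (a4 (81 * r + g) (by omega)).le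
    have h2 := Nat.mul_le_mul (a4 (81 * inv r + f) (by omega)).le (a2 g hg).le
    have e1 : 2 ^ 64 * 2 ^ 16 = 2 ^ 80 := by norm_num
    have e2 : 2 ^ 16 * 2 ^ 64 = 2 ^ 80 := by norm_num
    rw [e1] at h1
    rw [e2] at h2
    have e3 : (2 : ℕ) ^ 81 = 2 ^ 80 + 2 ^ 80 := by norm_num
    omega)
  unfold RW
  omega

lemma sr_le (rows : List (ℕ × ℕ × ℕ)) (hr : okrows rows) (hn : rows.length ≤ 128) (g : ℕ)
    (hg : g < 81) : (rows.map (fun ρ => ρ.2.2 * vd ρ.1 g)).sum ≤ 154742504910672534362390528 := by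
  have h := list_sum_le rows (fun ρ => ρ.2.2 * vd ρ.1 g) (2 ^ 80) (fun ρ hρ => by
    obtain ⟨a1, a2, a3, a4, a5⟩ := hr ρ hρ
    have h1 := Nat.mul_le_mul a5.le (a2 g hg).le
    have e1 : 2 ^ 16 * 2 ^ 64 = 2 ^ 80 := by norm_num
    rw [e1] at h1
    exact h1)
  omega

theorem an_le : ∀ i : Fin 32, an i ≤ 23 := by decide +kernel

theorem offi_eq : ∀ i : Fin 32, (an i + 1) * offi i = OFS := by decide +kernel

theorem offi_ge : ∀ i : Fin 32, 618970019642690137449562112 ≤ offi i ∧ offi i ≤ OFS := by decide +kernel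

/-- the constant of a row -/
noncomputable def offK (i : ℕ) (vs : List ℕ) : ℕ :=
  Nat.add (offi i) (Nat.mul 604462909807314587353088 (List.length vs))

/-- THE VALUE OF AN ENTRY. -/
theorem entry_val (i : ℕ) (hi : i < 32) (vs : List ℕ) (rows : List (ℕ × ℕ × ℕ)) (hv : okvs vs)
    (hr : okrows rows) (hn : vs.length ≤ 128) (hm : rows.length ≤ 128) (f g r : ℕ) (hf : f < 81)
    (hg : g < 81) (hr3 : r < 3) :
    (vd (rowv (offK i vs) vs rows f) (81 * r + g) : ℤ) - offi i =
      vl vs rows f g r + vl vs rows g f (inv r) := by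
  have hK : offK i vs = offi i + 604462909807314587353088 * vs.length := rfl
  have ho := offi_ge ⟨i, hi⟩
  have ho1 : 618970019642690137449562112 ≤ offi i := ho.1
  have ho2 : offi i ≤ 14855280471424563298789490688 := ho.2
  have hET : ∀ g, g < 81 → ET vs rows g ≤ 309485009821345068724781056 := by
    intro g hg
    have h1 := sv_le vs hv hn g hg
    have h2 := sr_le rows hr hm g hg
    unfold ET
    omega
  have key := vd_rowv (offK i vs) vs rows hv hr f hf
    (fun g r hg hr3 => by
      have h1 := SQ_le vs hv hn f g hf hg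
      have h2 := RW_le rows hr hm f g r hf hg hr3
      rw [hK]
      unfold BB
      omega)
    (fun g hg => by
      have h1 := hET f hf
      have h2 := hET g hg
      rw [hK]
      omega)
    (fun g hg => by
      have h1 := hET g hg
      unfold BB
      omega) g r hg hr3
  rw [key, hK]
  have h1 := sq_id vs f g
  have h2 := rw_id rows f g r hr3
  unfold vl ET
  have hcomm : (vs.map (fun v => ((vd v g : ℤ) - 549755813888) * ((vd v f : ℤ) - 549755813888))).sum =
      (vs.map (fun v => ((vd v f : ℤ) - 549755813888) * ((vd v g : ℤ) - 549755813888))).sum := by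
    congr 1
    refine List.map_congr_left (fun v _ => by ring)
  rw [hcomm]
  push_cast
  push_cast at h1 h2
  linarith

end Pool.Agent.CH6
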